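import Pool.Agent.Q1.PT.Form
import Pool.Agent.Y697.CJ.LAJ2

/-!
# Averages over the completions, the truncated parameters
-/

set_option autoImplicit false

namespace Pool.Agent.Q1.PT

open Finset Module
open Pool.Agent.Y697.PP (Sy Nd YY mem_YY)
open Pool.Agent.Y697.PQ (JJ mem_JJ thmJ gi)
open Pool.Agent.Y703.CQ (c2)

theorem avg_comm {α β : Type} [Fintype α] [Fintype β] (f : α → β → ℝ) :
    (avg fun a => avg fun b => f a b) = avg fun b => avg fun a => f a b := by
  unfold avg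
  rw [← Finset.sum_div, ← Finset.sum_div, Finset.sum_comm, div_div, div_div, mul_comm]

section
variable {n : Type} [Fintype n] [DecidableEq n] {l : ℕ}

theorem avg_shift (K : Finset (Fin l)) (f : Om n l → ℝ) :
    (avg fun ω => avg fun h => f (ω + rho n K h)) = avg f := by
  rw [avg_comm]
  have h1 : ∀ h : Om n l, (avg fun ω => f (ω + rho n K h)) = avg f := fun h =>
    avg_equiv (Equiv.addRight (rho n K h)) f
  simp_rw [h1]
  exact avg_const _

omit [DecidableEq n] in
theorem BF_zero_zero : BF (0 : Matrix n n (ZMod 2)) (0 : Om n l) = 0 := by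
  have h := BF_add (0 : Matrix n n (ZMod 2)) (0 : Om n l) 0
  rw [add_zero] at h
  refine LinearMap.ext fun z => LinearMap.ext fun z' => ?_
  have h1 := LinearMap.congr_fun (LinearMap.congr_fun h z) z'
  rw [LinearMap.add_apply, LinearMap.add_apply] at h1
  exact left_eq_add.1 h1

/-- the forms which vanish on `WK` -/
def SK (n : Type) [Fintype n] {l : ℕ} (K : Finset (Fin l)) :
    AddSubgroup (LinearMap.BilinForm (ZMod 2) (VV n l)) where
  carrier := {Y | Sy Y ∧ ∀ w ∈ WK n K, Y w = 0}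
  add_mem' := by
    rintro Y Y' ⟨h1, h2⟩ ⟨h3, h4⟩
    exact ⟨h1.add h3, fun w hw => by rw [LinearMap.add_apply, h2 w hw, h4 w hw, add_zero]⟩
  zero_mem' := ⟨fun _ _ => rfl, fun _ _ => rfl⟩
  neg_mem' := by
    rintro Y ⟨h1, h2⟩
    refine ⟨fun x y => ?_, fun w hw => ?_⟩
    · rw [LinearMap.neg_apply, LinearMap.neg_apply, LinearMap.neg_apply, LinearMap.neg_apply, h1 x y]
    · rw [LinearMap.neg_apply, h2 w hw, neg_zero]

omit [DecidableEq n] in
theorem mem_SK {K : Finset (Fin l)} {Y : LinearMap.BilinForm (ZMod 2) (VV n l)} :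
    Y ∈ YY (WK n K) ↔ Y ∈ SK n K := mem_YY

/-- the completions of the parameters -/
def phiK (n : Type) [Fintype n] {l : ℕ} (K : Finset (Fin l)) : Om n l →+ SK n K where
  toFun ω := ⟨BF 0 (rho n K ω), mem_SK.1 (YK_mem K ω)⟩
  map_zero' := by
    refine Subtype.ext ?_
    show BF 0 (rho n K 0) = 0
    rw [map_zero, BF_zero_zero]
  map_add' ω ω' := by
    refine Subtype.ext ?_
    show BF 0 (rho n K (ω + ω')) = BF 0 (rho n K ω) + BF 0 (rho n K ω')
    rw [map_add, BF_add]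

omit [DecidableEq n] in
theorem phiK_surj (K : Finset (Fin l)) : Function.Surjective (phiK n K) := by
  rintro ⟨Y, hY⟩
  obtain ⟨ω, hω⟩ := YK_surj K Y (mem_SK.2 hY)
  exact ⟨ω, Subtype.ext hω⟩

open Classical in
theorem avg_YK (K : Finset (Fin l)) (P : LinearMap.BilinForm (ZMod 2) (VV n l) → Prop) :
    (avg fun ω : Om n l => if P (BF 0 (rho n K ω)) then (1 : ℝ) else 0) =
      (((YY (WK n K)).filter P).card : ℝ) / ((YY (WK n K)).card : ℝ) := by
  have h1 := avg_hom (phiK n K) (phiK_surj K) (fun Y => if P Y.1 then (1 : ℝ) else 0)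
  have h2 : (avg fun ω : Om n l => if P (BF 0 (rho n K ω)) then (1 : ℝ) else 0) =
      avg fun ω : Om n l => (fun Y : SK n K => if P Y.1 then (1 : ℝ) else 0) (phiK n K ω) := rfl
  rw [h2, h1]
  unfold avg
  have h3 : ∀ f : LinearMap.BilinForm (ZMod 2) (VV n l) → ℝ,
      ∑ Y ∈ YY (WK n K), f Y = ∑ Y : SK n K, f Y.1 := fun f =>
    Finset.sum_subtype (YY (WK n K)) (fun Y => mem_SK) f
  congr 1
  · rw [← h3 fun Y => if P Y then (1 : ℝ) else 0, Finset.sum_boole]
  · have h4 := h3 fun _ => (1 : ℝ)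
    rw [Finset.sum_const, Finset.sum_const, nsmul_eq_mul, nsmul_eq_mul, mul_one, mul_one,
      Finset.card_univ] at h4
    exact h4.symm

theorem card_filter_inst' {α : Type} {s : Finset α} {P : α → Prop} (i j : DecidablePred P) :
    (@Finset.filter _ P i s).card = (@Finset.filter _ P j s).card := by
  have h : i = j := Subsingleton.elim _ _
  rw [h]

theorem ite_inst {α : Type} {P : Prop} (i j : Decidable P) (x y : α) :
    @ite α P i x y = @ite α P j x y := by
  have h : i = j := Subsingleton.elim _ _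
  rw [h]

open Classical in
/-- **the law of the completions** -/
theorem law (m : ℕ) (ε : ℝ) (hε : 0 < ε) : ∃ R : ℕ, ∀ (n : Type) [Fintype n] [DecidableEq n] (l : ℕ)
    (K : Finset (Fin l)) (B : Fin m → LinearMap.BilinForm (ZMod 2) (VV n l)) (d : ℕ),
    (∀ k, Sy (B k)) → (∀ k, Nd (B k) (WK n K)) →
    (∀ k k', k ≠ k' → finrank (ZMod 2) (JJ (B k) (B k') (WK n K)) ≤ d) →
    Fintype.card n + l ≤ d + K.card → d + R ≤ K.card →
    |(avg fun h : Om n l => if (∀ k, Nd (B k + BF 0 (rho n K h)) ⊤) then (1 : ℝ) else 0) - c2 ^ m| ≤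
      ε := by
  obtain ⟨R, hR⟩ := thmJ m ε hε
  refine ⟨R, ?_⟩
  intro n _ _ l K B d hS hN hJ hd hdR
  have e1 := finrank_WK (n := n) K
  have e2 : finrank (ZMod 2) (VV n l) = Fintype.card n + l := finrank_VV
  have key := hR (VV n l) (WK n K) B d K.card hS hN hJ (by omega) e1 hdR
  have hpos : 0 < ((YY (WK n K)).card : ℝ) := by
    rw [Nat.cast_pos, Finset.card_pos]
    exact ⟨0, mem_YY.2 ⟨fun _ _ => rfl, fun _ _ => rfl⟩⟩
  have h9 : (avg fun h : Om n l => if (∀ k, Nd (B k + BF 0 (rho n K h)) ⊤) then (1 : ℝ) else 0) =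
      (((YY (WK n K)).filter fun Y => ∀ k, Nd (B k + Y) ⊤).card : ℝ) /
      ((YY (WK n K)).card : ℝ) := by
    have h8 := avg_YK (n := n) K fun Y => ∀ k, Nd (B k + Y) ⊤
    refine Eq.trans ?_ (h8.trans ?_)
    · congr 1
      funext h
      exact ite_inst _ _ _ _
    · rw [card_filter_inst']
  rw [h9, ← Pool.Agent.Y697.CJ.gi_eq, div_sub' hpos.ne', abs_div,
    abs_of_pos hpos, div_le_iff₀ hpos, mul_comm _ (gi ^ m)]
  exact key

/-- the truncated parameters -/
def tr (K : Finset (Fin l)) (ω : Om n l) : Om n l :=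
  (fun i u => if i ∈ K then ω.1 i u else 0, fun i => if i ∈ K then ω.2.1 i else 1,
    fun i i' => if i ∈ K ∧ i' ∈ K then ω.2.2 i i' else 0)

theorem tr_shift (K : Finset (Fin l)) (ω h : Om n l) :
    tr K (ω + rho n K h) = tr K ω + rho n K h := by
  refine Prod.ext ?_ (Prod.ext ?_ ?_)
  · funext i u
    show (if i ∈ K then ω.1 i u + 0 else 0) = (if i ∈ K then ω.1 i u else 0) + 0
    rw [add_zero, add_zero]
  · funext i
    show (if i ∈ K then ω.2.1 i + (if i ∈ K then h.2.1 i else 0) else 1) =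
      (if i ∈ K then ω.2.1 i else 1) + if i ∈ K then h.2.1 i else 0
    split_ifs
    · rfl
    · rw [add_zero]
  · funext i i'
    show (if i ∈ K ∧ i' ∈ K then ω.2.2 i i' + (if i ∈ K ∧ i' ∈ K then h.2.2 i i' else 0) else 0) =
      (if i ∈ K ∧ i' ∈ K then ω.2.2 i i' else 0) + if i ∈ K ∧ i' ∈ K then h.2.2 i i' else 0
    split_ifs
    · rfl
    · rw [add_zero]

/-- the first indices -/
def K1 (k l : ℕ) : Finset (Fin l) := univ.filter fun i => i.val < k

theorem mem_K1 {k : ℕ} {i : Fin l} : i ∈ K1 k l ↔ i.val < k := by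
  unfold K1
  rw [mem_filter]
  exact ⟨fun h => h.2, fun h => ⟨mem_univ _, h⟩⟩

theorem K1_eq {k : ℕ} (h : k ≤ l) : K1 k l = univ.map (Fin.castLEEmb h) := by
  ext i
  rw [mem_K1, Finset.mem_map]
  constructor
  · intro hi
    exact ⟨⟨i.val, hi⟩, mem_univ _, rfl⟩
  · rintro ⟨j, -, rfl⟩
    exact j.2

theorem card_K1 {k : ℕ} (h : k ≤ l) : (K1 k l).card = k := by
  rw [K1_eq h, Finset.card_map, Finset.card_univ, Fintype.card_fin]

theorem sum_K1 {k : ℕ} (h : k ≤ l) {A : Type} [AddCommMonoid A] (f : Fin l → A) :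
    ∑ i ∈ K1 k l, f i = ∑ i : Fin k, f (Fin.castLE h i) := by
  rw [K1_eq h, Finset.sum_map]
  rfl

theorem sum_ite_K1 {k : ℕ} (h : k ≤ l) {A : Type} [AddCommMonoid A] (f : Fin l → A) :
    ∑ i, (if i ∈ K1 k l then f i else 0) = ∑ i : Fin k, f (Fin.castLE h i) := by
  rw [← sum_K1 h, ← Finset.sum_filter]
  congr 1
  ext i
  simp

theorem sy_tr (K : Finset (Fin l)) (ω : Om n l) (i i' : Fin l) :
    sy (tr K ω).2.2 i i' = if i ∈ K ∧ i' ∈ K then sy ω.2.2 i i' else 0 := by
  unfold sy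
  show (if i < i' then (if i ∈ K ∧ i' ∈ K then ω.2.2 i i' else 0) else
    if i' ∈ K ∧ i ∈ K then ω.2.2 i' i else 0) = _
  by_cases h1 : i ∈ K <;> by_cases h2 : i' ∈ K <;> simp [h1, h2]

/-- the rows of the truncated parameters outside of `K` -/
theorem r2_tr_not (K : Finset (Fin l)) (ω : Om n l) (z : VV n l) {i : Fin l} (hi : i ∉ K) :
    r2 (tr K ω) z i = z.2 i := by
  unfold r2
  have h1 : ∑ u, (tr K ω).1 i u * (z.1 u + z.2 i) = 0 := by
    refine Finset.sum_eq_zero fun u _ => ?_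
    show (if i ∈ K then ω.1 i u else 0) * _ = 0
    rw [if_neg hi, zero_mul]
  have h2 : ∑ i', sy (tr K ω).2.2 i i' * (z.2 i' + z.2 i) = 0 := by
    refine Finset.sum_eq_zero fun i' _ => ?_
    rw [sy_tr, if_neg (fun h => hi h.1), zero_mul]
  have h3 : (tr K ω).2.1 i = 1 := if_neg hi
  rw [h1, h2, h3, zero_add, zero_add, one_mul]

theorem r2_tr (K : Finset (Fin l)) (ω : Om n l) (z : VV n l) {i : Fin l} (hi : i ∈ K) :
    r2 (tr K ω) z i = ∑ u, ω.1 i u * (z.1 u + z.2 i) + ∑ i' ∈ K, sy ω.2.2 i i' * (z.2 i' + z.2 i) +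
      ω.2.1 i * z.2 i := by
  unfold r2
  have h1 : ∑ u, (tr K ω).1 i u * (z.1 u + z.2 i) = ∑ u, ω.1 i u * (z.1 u + z.2 i) := by
    refine Finset.sum_congr rfl fun u _ => ?_
    show (if i ∈ K then ω.1 i u else 0) * _ = _
    rw [if_pos hi]
  have h2 : ∑ i', sy (tr K ω).2.2 i i' * (z.2 i' + z.2 i) =
      ∑ i' ∈ K, sy ω.2.2 i i' * (z.2 i' + z.2 i) := by
    have h4 : ∀ i', sy (tr K ω).2.2 i i' * (z.2 i' + z.2 i) =
        if i' ∈ K then sy ω.2.2 i i' * (z.2 i' + z.2 i) else 0 := by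
      intro i'
      rw [sy_tr]
      by_cases h : i' ∈ K
      · rw [if_pos ⟨hi, h⟩, if_pos h]
      · rw [if_neg (fun h' => h h'.2), if_neg h, zero_mul]
    rw [Finset.sum_congr rfl fun i' _ => h4 i', ← Finset.sum_filter]
    congr 1
    ext i'
    simp
  have h3 : (tr K ω).2.1 i = ω.2.1 i := if_pos hi
  rw [h1, h2, h3]

theorem r1_tr (K : Finset (Fin l)) (M : Matrix n n (ZMod 2)) (ω : Om n l) (z : VV n l) (u : n) :
    r1 M (tr K ω) z u = ∑ v, M u v * z.1 v + ∑ i ∈ K, ω.1 i u * (z.2 i + z.1 u) := by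
  unfold r1
  congr 1
  have h4 : ∀ i, (tr K ω).1 i u * (z.2 i + z.1 u) =
      if i ∈ K then ω.1 i u * (z.2 i + z.1 u) else 0 := by
    intro i
    show (if i ∈ K then ω.1 i u else 0) * _ = _
    by_cases h : i ∈ K
    · rw [if_pos h, if_pos h]
    · rw [if_neg h, if_neg h, zero_mul]
  rw [Finset.sum_congr rfl fun i' _ => h4 i', ← Finset.sum_filter]
  congr 1
  ext i'
  simp

theorem nf_tr {k : ℕ} (h : k ≤ l) (M : Matrix n n (ZMod 2)) (ω : Om n l) :
    Nf M (tr (K1 k l) ω).1 (tr (K1 k l) ω).2.1 (tr (K1 k l) ω).2.2 ↔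
      Nf M (pre h ω).1 (pre h ω).2.1 (pre h ω).2.2 := by
  have s1 : ∀ (x : n → ZMod 2) (y : Fin l → ZMod 2) (u : n),
      r1 M (tr (K1 k l) ω) (x, y) u = ∑ v, M u v * x v +
        ∑ i : Fin k, (pre h ω).1 i u * (y (Fin.castLE h i) + x u) := by
    intro x y u
    rw [r1_tr, sum_K1 h]
    rfl
  have s2 : ∀ (x : n → ZMod 2) (y : Fin l → ZMod 2) (i : Fin k),
      r2 (tr (K1 k l) ω) (x, y) (Fin.castLE h i) =
        ∑ u, (pre h ω).1 i u * (x u + y (Fin.castLE h i)) +
        ∑ i' : Fin k, sy (pre h ω).2.2 i i' * (y (Fin.castLE h i') + y (Fin.castLE h i)) +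
        (pre h ω).2.1 i * y (Fin.castLE h i) := by
    intro x y i
    rw [r2_tr _ _ _ (mem_K1.2 (show (Fin.castLE h i).val < k from i.2)), sum_K1 h]
    rfl
  constructor
  · intro hN x y h1 h2
    have h3 := hN x (fun i => if hi : i.val < k then y ⟨i.val, hi⟩ else 0) (fun u => ?_) (fun i => ?_)
    · refine ⟨h3.1, funext fun i => ?_⟩
      have h4 := congrFun h3.2 (Fin.castLE h i)
      have h5 : (if hi : (Fin.castLE h i).val < k then y ⟨(Fin.castLE h i).val, hi⟩ else 0) = y i :=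
        dif_pos i.2
      rw [← h5]
      exact h4
    · have h4 := s1 x (fun i => if hi : i.val < k then y ⟨i.val, hi⟩ else 0) u
      refine h4.trans (Eq.trans ?_ (h1 u))
      congr 1
      refine Finset.sum_congr rfl fun i _ => ?_
      have h5 : (if hi : (Fin.castLE h i).val < k then y ⟨(Fin.castLE h i).val, hi⟩ else 0) = y i :=
        dif_pos i.2
      rw [h5]
    · by_cases hi : i.val < k
      · have h5 : ∀ i : Fin k, (if hi : (Fin.castLE h i).val < k then
            y ⟨(Fin.castLE h i).val, hi⟩ else 0) = y i := fun i => dif_pos i.2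
        have h4 := s2 x (fun i => if hi : i.val < k then y ⟨i.val, hi⟩ else 0) ⟨i.val, hi⟩
        refine h4.trans ?_
        simp_rw [h5]
        exact h2 ⟨i.val, hi⟩
      · have h4 := r2_tr_not (K1 k l) ω (x, fun i => if hi : i.val < k then y ⟨i.val, hi⟩ else 0)
          (fun h' => hi (mem_K1.1 h'))
        refine h4.trans ?_
        exact dif_neg hi
  · intro hN x y h1 h2
    have h0 : ∀ i : Fin l, ¬ i.val < k → y i = 0 := by
      intro i hi
      have h4 := r2_tr_not (K1 k l) ω (x, y) (fun h' => hi (mem_K1.1 h'))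
      exact h4.symm.trans (h2 i)
    have h3 := hN x (fun i => y (Fin.castLE h i)) (fun u => ?_) (fun i => ?_)
    · refine ⟨h3.1, funext fun i => ?_⟩
      by_cases hi : i.val < k
      · exact congrFun h3.2 ⟨i.val, hi⟩
      · exact h0 i hi
    · exact (s1 x y u).symm.trans (h1 u)
    · exact (s2 x y i).symm.trans (h2 (Fin.castLE h i))

end

end Pool.Agent.Q1.PT
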