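import Pool.Agent.Q1.PT.Two

/-!
# The first moment of the number of the solutions
-/

set_option autoImplicit false

namespace Pool.Agent.Q1.PT

open Finset Module

section
variable {n : Type} [Fintype n] [DecidableEq n] {l : ℕ}

/-- the indices of the independent conditions -/
def TT (K : Finset (Fin l)) (i0 : Fin l) (q : VV n l) : Finset (Fin l) :=
  (K.erase i0).filter fun i => ∃ r ∈ Kᶜ, q.2 r ≠ q.2 i

theorem mem_K1c {k : ℕ} {i : Fin l} : i ∈ (K1 k l)ᶜ ↔ k ≤ i.val := by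
  rw [Finset.mem_compl, mem_K1, not_lt]

theorem phJ_surj {k : ℕ} (x : n → ZMod 2) (q : VV n l) {i0 : Fin l} (hi0 : i0 ∈ K1 k l)
    (hq : q.2 i0 = 1) (t : Fin l → ZMod 2) : ∃ ω : Om n l,
      ∀ i ∈ TT (K1 k l) i0 q ∪ (K1 k l)ᶜ, phJ (K1 k l) x q ω i = t i := by
  classical
  set K := K1 k l with hK
  set T := TT K i0 q with hT
  have hr : ∀ i, ∃ r : Fin l, i ∈ T → r ∈ Kᶜ ∧ q.2 r ≠ q.2 i := by
    intro i
    by_cases hi : i ∈ T
    · obtain ⟨r, hr1, hr2⟩ := (Finset.mem_filter.1 hi).2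
      exact ⟨r, fun _ => ⟨hr1, hr2⟩⟩
    · exact ⟨i, fun h => absurd h hi⟩
  choose r hr using hr
  set G0 : Fin l → Fin l → ZMod 2 := fun i s => if i ∈ T ∧ s = r i then t i else 0 with hG0
  set S : Fin l → ZMod 2 := fun s => ∑ i ∈ K.erase i0, G0 i s * (q.2 i + q.2 s) with hS
  set G : Fin l → Fin l → ZMod 2 := fun i s => if i = i0 then t s + S s else G0 i s with hG
  set a : Fin l → Fin l → ZMod 2 := fun i s => if i ∈ K ∧ s ∈ Kᶜ then G i s else 0 with ha
  have hlt : ∀ {i s : Fin l}, i ∈ K → s ∈ Kᶜ → i < s := by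
    intro i s hi hs
    have h1 := mem_K1.1 hi
    have h2 := mem_K1c.1 hs
    exact Fin.lt_def.2 (by omega)
  have hs1 : ∀ {i s : Fin l}, i ∈ K → s ∈ Kᶜ → sy a i s = G i s := by
    intro i s hi hs
    unfold sy
    rw [if_pos (hlt hi hs)]
    exact if_pos ⟨hi, hs⟩
  have hs2 : ∀ {s s' : Fin l}, s ∈ Kᶜ → s' ∈ Kᶜ → sy a s s' = 0 := by
    intro s s' hs hs'
    have h1 : a s s' = 0 := if_neg fun h => Finset.mem_compl.1 hs h.1
    have h2 : a s' s = 0 := if_neg fun h => Finset.mem_compl.1 hs' h.1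
    unfold sy
    rw [h1, h2, ite_self]
  have hTK : ∀ {i : Fin l}, i ∈ T → i ∈ K ∧ i ≠ i0 := by
    intro i hi
    have h1 := Finset.mem_erase.1 (Finset.mem_filter.1 hi).1
    exact ⟨h1.2, h1.1⟩
  refine ⟨(0, fun s => t s + S s, a), fun i hi => ?_⟩
  rcases Finset.mem_union.1 hi with hi | hi
  · obtain ⟨hiK, hii⟩ := hTK hi
    show (if i ∈ K then ∑ u, (0 : ZMod 2) * (x u + q.1 u) +
      ∑ i' ∈ Kᶜ, sy a i i' * (q.2 i' + q.2 i) else r2 _ q i) = t i
    rw [if_pos hiK]
    simp only [zero_mul, Finset.sum_const_zero, zero_add]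
    rw [Finset.sum_eq_single (r i)]
    · rw [hs1 hiK (hr i hi).1]
      have h1 : G i (r i) = t i := by
        show (if i = i0 then _ else if i ∈ T ∧ r i = r i then t i else 0) = t i
        rw [if_neg hii, if_pos ⟨hi, rfl⟩]
      have h2 : q.2 (r i) + q.2 i = 1 := by
        have key : ∀ a b : ZMod 2, a ≠ b → a + b = 1 := by decide
        exact key _ _ (hr i hi).2
      rw [h1, h2, mul_one]
    · intro s hs hsr
      rw [hs1 hiK hs]
      have h1 : G i s = 0 := by
        show (if i = i0 then _ else if i ∈ T ∧ s = r i then t i else 0) = 0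
        rw [if_neg hii, if_neg fun h => hsr h.2]
      rw [h1, zero_mul]
    · intro h
      exact absurd (hr i hi).1 h
  · show (if i ∈ K then _ else r2 ((0, fun s => t s + S s, a) : Om n l) q i) = t i
    rw [if_neg (Finset.mem_compl.1 hi)]
    unfold r2
    show ∑ u, (0 : ZMod 2) * (q.1 u + q.2 i) + ∑ i', sy a i i' * (q.2 i' + q.2 i) +
      (t i + S i) * q.2 i = t i
    simp only [zero_mul, Finset.sum_const_zero, zero_add]
    rw [← Finset.sum_add_sum_compl K]
    have h1 : ∑ i' ∈ Kᶜ, sy a i i' * (q.2 i' + q.2 i) = 0 :=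
      Finset.sum_eq_zero fun s hs => by rw [hs2 hi hs, zero_mul]
    have h2 : ∑ i' ∈ K, sy a i i' * (q.2 i' + q.2 i) = ∑ i' ∈ K, G i' i * (q.2 i' + q.2 i) :=
      Finset.sum_congr rfl fun s hs => by rw [sy_symm', hs1 hs hi]
    rw [h1, h2, add_zero, ← Finset.add_sum_erase K _ hi0]
    have h3 : G i0 i = t i + S i := if_pos rfl
    have h4 : ∑ i' ∈ K.erase i0, G i' i * (q.2 i' + q.2 i) = S i := by
      refine Finset.sum_congr rfl fun s hs => ?_
      have h5 : G s i = G0 s i := if_neg (Finset.mem_erase.1 hs).1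
      rw [h5]
    rw [h3, h4, hq]
    generalize S i = b
    generalize q.2 i = c
    generalize t i = d
    revert b c d
    decide

/-- the weights -/
noncomputable def ww (K : Finset (Fin l)) (q : VV n l) (i : Fin l) : ℝ :=
  open Classical in if ∃ r ∈ Kᶜ, q.2 r ≠ q.2 i then 1 / 2 else 1

theorem ww_pos (K : Finset (Fin l)) (q : VV n l) (i : Fin l) : 0 < ww K q i := by
  unfold ww
  split_ifs <;> norm_num

open Classical in
theorem avg_phJ {k : ℕ} (hk : k ≤ l) (x : n → ZMod 2) (q : VV n l) (hq : q ∉ WK n (K1 k l)) :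
    (avg fun ω : Om n l => if phJ (K1 k l) x q ω = 0 then (1 : ℝ) else 0) ≤
      2 / 2 ^ (l - k) * ∏ i ∈ K1 k l, ww (K1 k l) q i := by
  set K := K1 k l with hK
  obtain ⟨i0, hi0, hq0⟩ : ∃ i0 ∈ K, q.2 i0 ≠ 0 := by
    by_contra h
    push Not at h
    exact hq h
  have hq1 : q.2 i0 = 1 := by
    have two : ∀ s : ZMod 2, s ≠ 0 → s = 1 := by decide
    exact two _ hq0
  set T := TT K i0 q with hT
  set φ : Om n l →+ ((T ∪ Kᶜ : Finset (Fin l)) → ZMod 2) :=
    { toFun := fun ω i => phJ K x q ω i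
      map_zero' := by
        funext i
        rw [map_zero]
        rfl
      map_add' := by
        intro ω ω'
        funext i
        rw [map_add]
        rfl } with hφ
  have hsurj : Function.Surjective φ := by
    intro t
    obtain ⟨ω, hω⟩ := phJ_surj x q hi0 hq1 fun i => if h : i ∈ T ∪ Kᶜ then t ⟨i, h⟩ else 0
    refine ⟨ω, funext fun i => ?_⟩
    exact (hω i i.2).trans (dif_pos i.2)
  have h1 := avg_hom_zero φ hsurj
  have h2 : (avg fun ω : Om n l => if phJ K x q ω = 0 then (1 : ℝ) else 0) ≤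
      avg fun ω : Om n l => if φ ω = 0 then (1 : ℝ) else 0 := by
    refine avg_mono fun ω => ?_
    by_cases h : phJ K x q ω = 0
    · have h3 : φ ω = 0 := by
        funext i
        show phJ K x q ω i = 0
        rw [h]
        rfl
      rw [if_pos h, if_pos h3]
    · rw [if_neg h]
      split_ifs <;> norm_num
  refine h2.trans ?_
  rw [h1]
  have hdis : Disjoint T Kᶜ := by
    rw [Finset.disjoint_left]
    intro i hi hi'
    exact Finset.mem_compl.1 hi' (Finset.mem_erase.1 (Finset.mem_filter.1 hi).1).2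
  have h3 : (Fintype.card ((T ∪ Kᶜ : Finset (Fin l)) → ZMod 2) : ℝ) = 2 ^ T.card * 2 ^ (l - k) := by
    rw [Fintype.card_fun, ZMod.card, Fintype.card_coe, Finset.card_union_of_disjoint hdis,
      Finset.card_compl, Fintype.card_fin, card_K1 hk, pow_add]
    push_cast
    ring
  rw [h3]
  have h4 : ∏ i ∈ K, ww K q i = (1 / 2) ^ (K.filter fun i => ∃ r ∈ Kᶜ, q.2 r ≠ q.2 i).card := by
    unfold ww
    rw [Finset.prod_ite, Finset.prod_const, Finset.prod_const_one, mul_one]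
  have h5 : (K.filter fun i => ∃ r ∈ Kᶜ, q.2 r ≠ q.2 i).card ≤ T.card + 1 := by
    have h6 : (K.filter fun i => ∃ r ∈ Kᶜ, q.2 r ≠ q.2 i) ⊆ insert i0 T := by
      intro i hi
      rw [Finset.mem_filter] at hi
      by_cases h : i = i0
      · rw [h]
        exact Finset.mem_insert_self _ _
      · refine Finset.mem_insert_of_mem (Finset.mem_filter.2 ⟨Finset.mem_erase.2 ⟨h, hi.1⟩, ?_⟩)
        exact hi.2
    exact (Finset.card_le_card h6).trans (Finset.card_insert_le _ _)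
  rw [h4]
  have h6 : ((1 : ℝ) / 2) ^ (T.card + 1) ≤
      (1 / 2) ^ (K.filter fun i => ∃ r ∈ Kᶜ, q.2 r ≠ q.2 i).card :=
    pow_le_pow_of_le_one (by norm_num) (by norm_num) h5
  have h7 : ((2 : ℝ) ^ T.card * 2 ^ (l - k))⁻¹ = 2 / 2 ^ (l - k) * (1 / 2) ^ (T.card + 1) := by
    rw [pow_succ, one_div, inv_pow]
    field_simp
  rw [h7]
  exact mul_le_mul_of_nonneg_left h6 (by positivity)

/-- the factors -/
noncomputable def vv (K : Finset (Fin l)) (c : ZMod 2) (i : Fin l) (s : ZMod 2) : ℝ :=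
  if i ∈ K then (if s = c then 1 else 1 / 2) else (if s = c then 1 else 0)

theorem vv_nonneg (K : Finset (Fin l)) (c : ZMod 2) (i : Fin l) (s : ZMod 2) : 0 ≤ vv K c i s := by
  unfold vv
  split_ifs <;> norm_num

theorem prod_ww_le {k : ℕ} (hk : k < l) (q : VV n l) : ∏ i ∈ K1 k l, ww (K1 k l) q i ≤
    1 / 2 ^ k + ∑ c : ZMod 2, ∏ i, vv (K1 k l) c i (q.2 i) := by
  classical
  set K := K1 k l with hK
  have hsum0 : 0 ≤ ∑ c : ZMod 2, ∏ i, vv K c i (q.2 i) :=
    Finset.sum_nonneg fun c _ => Finset.prod_nonneg fun i _ => vv_nonneg _ _ _ _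
  obtain ⟨r0, hr0⟩ : ∃ r0 : Fin l, r0 ∈ Kᶜ := ⟨⟨k, hk⟩, mem_K1c.2 le_rfl⟩
  by_cases h : ∀ r ∈ Kᶜ, q.2 r = q.2 r0
  · have h1 : ∏ i ∈ K, ww K q i = ∏ i, vv K (q.2 r0) i (q.2 i) := by
      rw [← Finset.prod_mul_prod_compl K]
      have h2 : ∏ i ∈ Kᶜ, vv K (q.2 r0) i (q.2 i) = 1 := by
        refine Finset.prod_eq_one fun i hi => ?_
        unfold vv
        rw [if_neg (Finset.mem_compl.1 hi), if_pos (h i hi)]
      rw [h2, mul_one]
      refine Finset.prod_congr rfl fun i hi => ?_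
      unfold ww vv
      rw [if_pos hi]
      by_cases h3 : q.2 i = q.2 r0
      · rw [if_pos h3, if_neg]
        rintro ⟨r, hr, hne⟩
        exact hne (by rw [h r hr, h3])
      · rw [if_neg h3, if_pos]
        exact ⟨r0, hr0, fun h4 => h3 h4.symm⟩
    rw [h1]
    have h2 : ∏ i, vv K (q.2 r0) i (q.2 i) ≤ ∑ c : ZMod 2, ∏ i, vv K c i (q.2 i) :=
      Finset.single_le_sum (f := fun c : ZMod 2 => ∏ i, vv K c i (q.2 i))
        (fun c _ => Finset.prod_nonneg fun i _ => vv_nonneg _ _ _ _) (mem_univ _)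
    have h3 : (0 : ℝ) ≤ 1 / 2 ^ k := by positivity
    linarith
  · push Not at h
    obtain ⟨r1, hr1, hne⟩ := h
    have h1 : ∏ i ∈ K, ww K q i = 1 / 2 ^ k := by
      have h2 : ∀ i ∈ K, ww K q i = 1 / 2 := by
        intro i _
        unfold ww
        rw [if_pos]
        by_cases h3 : q.2 r1 = q.2 i
        · exact ⟨r0, hr0, fun h4 => hne (h3.trans h4.symm)⟩
        · exact ⟨r1, hr1, h3⟩
      rw [Finset.prod_congr rfl h2, Finset.prod_const, card_K1 hk.le, one_div, one_div, inv_pow]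
    rw [h1]
    linarith

theorem sum_vv {k : ℕ} (hk : k ≤ l) : ∑ q : VV n l, ∑ c : ZMod 2, ∏ i, vv (K1 k l) c i (q.2 i) =
    2 ^ Fintype.card n * (2 * (3 / 2) ^ k) := by
  classical
  set K := K1 k l with hK
  have h1 : ∀ c : ZMod 2, ∑ y : Fin l → ZMod 2, ∏ i, vv K c i (y i) = (3 / 2) ^ k := by
    intro c
    have h2 := Finset.prod_univ_sum (fun _ : Fin l => (univ : Finset (ZMod 2))) (fun i s => vv K c i s)
    rw [Fintype.piFinset_univ] at h2
    rw [← h2, ← Finset.prod_mul_prod_compl K]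
    have h3 : ∀ i ∈ K, ∑ s : ZMod 2, vv K c i s = 3 / 2 := by
      intro i hi
      unfold vv
      simp only [if_pos hi]
      have e : ∀ c : ZMod 2, ∑ s : ZMod 2, (if s = c then (1 : ℝ) else 1 / 2) = 3 / 2 := by
        intro c
        have h4 : ∀ s : ZMod 2, (if s = c then (1 : ℝ) else 1 / 2) = 1 / 2 + if s = c then 1 / 2 else 0 := by
          intro s
          split_ifs <;> norm_num
        rw [Finset.sum_congr rfl fun s _ => h4 s, Finset.sum_add_distrib, Finset.sum_ite_eq' univ c,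
          if_pos (mem_univ _), Finset.sum_const, Finset.card_univ, ZMod.card]
        norm_num
      exact e c
    have h4 : ∀ i ∈ Kᶜ, ∑ s : ZMod 2, vv K c i s = 1 := by
      intro i hi
      unfold vv
      simp only [if_neg (Finset.mem_compl.1 hi)]
      rw [Finset.sum_ite_eq' univ c, if_pos (mem_univ _)]
    rw [Finset.prod_congr rfl h3, Finset.prod_congr rfl h4, Finset.prod_const, Finset.prod_const_one,
      mul_one, card_K1 hk]
  rw [Fintype.sum_prod_type]
  have h2 : ∀ x : n → ZMod 2, ∑ y : Fin l → ZMod 2, ∑ c : ZMod 2,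
      ∏ i, vv K c i (((x, y) : VV n l).2 i) = 2 * (3 / 2) ^ k := by
    intro x
    rw [Finset.sum_comm]
    show ∑ c : ZMod 2, ∑ y : Fin l → ZMod 2, ∏ i, vv K c i (y i) = _
    rw [Finset.sum_congr rfl fun c _ => h1 c, Finset.sum_const, Finset.card_univ, ZMod.card,
      nsmul_eq_mul]
    norm_num
  rw [Finset.sum_congr rfl fun x _ => h2 x, Finset.sum_const, Finset.card_univ, Fintype.card_fun,
    ZMod.card, nsmul_eq_mul]
  push_cast
  rfl

/-- **the first moment** -/
theorem avg_cnt {k : ℕ} (hk : k < l) : (avg fun ω : Om n l => cnt (K1 k l) ω) ≤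
    4 ^ Fintype.card n * (2 ^ (l - k) + 2 + 4 * (3 / 2) ^ k / 2 ^ (l - k)) := by
  classical
  set K := K1 k l with hK
  set N := Fintype.card n with hN
  unfold cnt
  rw [avg_sum]
  have h1 : ∀ z : (n → ZMod 2) × VV n l,
      (avg fun ω : Om n l => if phJ K z.1 z.2 ω = 0 then (1 : ℝ) else 0) ≤
      (if z.2 ∈ WK n K then 1 else 0) +
        2 / 2 ^ (l - k) * (1 / 2 ^ k + ∑ c : ZMod 2, ∏ i, vv K c i (z.2.2 i)) := by
    intro z
    have hpos : (0 : ℝ) ≤ 1 / 2 ^ k + ∑ c : ZMod 2, ∏ i, vv K c i (z.2.2 i) :=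
      add_nonneg (by positivity)
        (Finset.sum_nonneg fun c _ => Finset.prod_nonneg fun i _ => vv_nonneg _ _ _ _)
    by_cases hz : z.2 ∈ WK n K
    · rw [if_pos hz]
      have h2 : (avg fun ω : Om n l => if phJ K z.1 z.2 ω = 0 then (1 : ℝ) else 0) ≤ 1 := by
        calc _ ≤ avg (fun _ : Om n l => (1 : ℝ)) := avg_mono fun ω => by split_ifs <;> norm_num
          _ = 1 := avg_const 1
      have h3 : (0 : ℝ) ≤ 2 / 2 ^ (l - k) * (1 / 2 ^ k + ∑ c : ZMod 2, ∏ i, vv K c i (z.2.2 i)) :=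
        mul_nonneg (by positivity) hpos
      linarith
    · rw [if_neg hz, zero_add]
      refine (avg_phJ hk.le z.1 z.2 hz).trans ?_
      exact mul_le_mul_of_nonneg_left (prod_ww_le hk z.2) (by positivity)
  refine (Finset.sum_le_sum fun z _ => h1 z).trans (le_of_eq ?_)
  rw [Finset.sum_add_distrib, ← Finset.mul_sum, Finset.sum_add_distrib]
  have e1 : ∑ z : (n → ZMod 2) × VV n l, (if z.2 ∈ WK n K then (1 : ℝ) else 0) =
      2 ^ N * 2 ^ (N + (l - k)) := by
    rw [Fintype.sum_prod_type]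
    have h2 : ∀ x : n → ZMod 2, ∑ q : VV n l, (if ((x, q) : (n → ZMod 2) × VV n l).2 ∈ WK n K
        then (1 : ℝ) else 0) = 2 ^ (N + (l - k)) := by
      intro x
      have h3 := card_WK (n := n) K
      rw [card_K1 hk.le] at h3
      have h4 : ∑ q : VV n l, (if q ∈ WK n K then (1 : ℝ) else 0) = 2 ^ (N + (l - k)) := by
        rw [Finset.sum_boole]
        have h5 : ((univ.filter fun q : VV n l => q ∈ WK n K).card : ℝ) =
            ((2 ^ (Fintype.card n + (l - k)) : ℕ) : ℝ) := by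
          rw [← h3]
        rw [h5]
        push_cast
        rfl
      exact h4
    rw [Finset.sum_congr rfl fun x _ => h2 x, Finset.sum_const, Finset.card_univ, Fintype.card_fun,
      ZMod.card, nsmul_eq_mul]
    push_cast
    rfl
  have e2 : ∑ z : (n → ZMod 2) × VV n l, (1 : ℝ) / 2 ^ k = 4 ^ N * 2 ^ (l - k) := by
    rw [Finset.sum_const, Finset.card_univ, Fintype.card_prod, Fintype.card_prod, Fintype.card_fun,
      Fintype.card_fun, ZMod.card, Fintype.card_fin, nsmul_eq_mul]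
    push_cast
    have h3 : (2 : ℝ) ^ l = 2 ^ (l - k) * 2 ^ k := by
      rw [← pow_add]
      congr 1
      omega
    have h4 : (4 : ℝ) ^ N = 2 ^ N * 2 ^ N := by
      rw [← mul_pow]
      norm_num
    rw [h3, h4, ← hN]
    field_simp
  have e3 : ∑ z : (n → ZMod 2) × VV n l, ∑ c : ZMod 2, ∏ i, vv K c i (z.2.2 i) =
      4 ^ N * (2 * (3 / 2) ^ k) := by
    rw [Fintype.sum_prod_type]
    have h2 : ∀ x : n → ZMod 2, ∑ q : VV n l, ∑ c : ZMod 2, ∏ i, vv K c i
        (((x, q) : (n → ZMod 2) × VV n l).2.2 i) = 2 ^ N * (2 * (3 / 2) ^ k) := fun x =>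
      sum_vv hk.le
    rw [Finset.sum_congr rfl fun x _ => h2 x, Finset.sum_const, Finset.card_univ, Fintype.card_fun,
      ZMod.card, nsmul_eq_mul]
    push_cast
    have h4 : (4 : ℝ) ^ N = 2 ^ N * 2 ^ N := by
      rw [← mul_pow]
      norm_num
    rw [h4]
    ring
  rw [e1, e2, e3, pow_add]
  have h4 : (4 : ℝ) ^ N = 2 ^ N * 2 ^ N := by
    rw [← mul_pow]
    norm_num
  rw [h4]
  field_simp
  ring

end

end Pool.Agent.Q1.PT
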