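import Pool.Agent.Q1.PT.JTV

/-!
# The pattern process and independent coins: total variation
-/

set_option autoImplicit false

namespace Pool.Agent.Q1.PT

open Finset Module Q283.TW
open Pool.Agent.Y703.CQ (c2)

theorem exists_rate (b : ℕ) : ∃ ρ : ℝ, 0 < ρ ∧ ρ < 1 ∧ 1 / 2 ≤ (ρ ^ 2) ^ (b + 1) := by
  refine ⟨1 - 1 / (4 * (b + 1)), ?_, ?_, ?_⟩
  · have : (1 : ℝ) / (4 * (b + 1)) ≤ 1 / 4 := by
      apply div_le_div_of_nonneg_left (by norm_num) (by norm_num)
      have : (0 : ℝ) ≤ b := Nat.cast_nonneg b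
      linarith
    linarith
  · have : (0 : ℝ) < 1 / (4 * (b + 1)) := by positivity
    linarith
  · rw [← pow_mul]
    have h1 : (-2 : ℝ) ≤ -(1 / (4 * (b + 1))) := by
      have : (1 : ℝ) / (4 * (b + 1)) ≤ 1 / 4 := by
        apply div_le_div_of_nonneg_left (by norm_num) (by norm_num)
        have : (0 : ℝ) ≤ b := Nat.cast_nonneg b
        linarith
      linarith
    have h2 := one_add_mul_le_pow h1 (2 * (b + 1))
    refine le_trans (le_of_eq ?_) h2
    push_cast
    field_simp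
    ring

section
variable {I : Type} [Fintype I] [DecidableEq I]

theorem ptn_nonneg (A : Finset I) {b : I → ℝ} (h0 : ∀ i, 0 ≤ b i) (h1 : ∀ i, b i ≤ 1) :
    0 ≤ ptn A b :=
  mul_nonneg (Finset.prod_nonneg fun i _ => h0 i) (Finset.prod_nonneg fun i _ => by linarith [h1 i])

theorem ptn_le_one (A : Finset I) {b : I → ℝ} (h0 : ∀ i, 0 ≤ b i) (h1 : ∀ i, b i ≤ 1) :
    ptn A b ≤ 1 :=
  mul_le_one₀ (Finset.prod_le_one (fun i _ => h0 i) fun i _ => h1 i)
    (Finset.prod_nonneg fun i _ => by linarith [h1 i])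
    (Finset.prod_le_one (fun i _ => by linarith [h1 i]) fun i _ => by linarith [h0 i])

theorem bM_nonneg' {a : Type} [Fintype a] [DecidableEq a] (M : Matrix a a (ZMod 2)) : 0 ≤ bM M := by
  unfold bM
  split_ifs <;> norm_num

theorem bM_le_one' {a : Type} [Fintype a] [DecidableEq a] (M : Matrix a a (ZMod 2)) : bM M ≤ 1 := by
  unfold bM
  split_ifs <;> norm_num

theorem es_triv (k : ℕ) : ∀ {n : Type} [Fintype n] [DecidableEq n] {ni : I → Type}
    [∀ i, Fintype (ni i)] [∀ i, DecidableEq (ni i)] (ι : ∀ i, ni i → n) (t : I → Finset n)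
    (M : ∀ i, Matrix (ni i) (ni i) (ZMod 2)), es k ι t M ≤ 2 ^ Fintype.card I := by
  induction k with
  | zero =>
    intro n _ _ ni _ _ ι t M
    have h : ∀ A ∈ (univ : Finset (Finset I)), (qA ι t M A - wt A) ^ 2 ≤ (1 : ℝ) := by
      intro A _
      have h1 : 0 ≤ qA ι t M A := avg_nn fun y => ptn_nonneg A (fun i => bM_nonneg' _) fun i => bM_le_one' _
      have h2 : qA ι t M A ≤ 1 := avg_le_one fun y => ptn_le_one A (fun i => bM_nonneg' _) fun i => bM_le_one' _
      have h3 := wt_nonneg A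
      have h4 := wt_le_one A
      have h5 := abs_sub_le_one h1 h2 h3 h4
      rw [← sq_abs]
      exact pow_le_one₀ (abs_nonneg _) h5
    refine (Finset.sum_le_sum h).trans (le_of_eq ?_)
    rw [Finset.sum_const, Finset.card_univ, Fintype.card_finset, nsmul_eq_mul, mul_one]
    push_cast
    rfl
  | succ k ih =>
    intro n _ _ ni _ _ ι t M
    rw [es_succ]
    exact (avg_mono fun y => ih _ _ _).trans (le_of_eq (avg_const _))

/-- the exponential rate -/
theorem ed_rate (I : Type) [Fintype I] [DecidableEq I] : ∃ C ρ : ℝ, 0 < C ∧ 0 < ρ ∧ ρ < 1 ∧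
    ∀ (k : ℕ) {n : Type} [Fintype n] [DecidableEq n] {ni : I → Type} [∀ i, Fintype (ni i)]
    [∀ i, DecidableEq (ni i)] {ι : ∀ i, ni i → n}, (∀ i, Function.Injective (ι i)) →
    ∀ {t : I → Finset n}, Function.Injective t →
    ∀ {M : ∀ i, Matrix (ni i) (ni i) (ZMod 2)}, (∀ i, (M i).IsSymm) →
    ed k ι t M ≤ C * 2 ^ Fintype.card n * ρ ^ k := by
  obtain ⟨b, hb⟩ := es_eff I
  obtain ⟨ρ, h0, h1, hρ⟩ := exists_rate b
  set K : ℝ := 2 ^ Fintype.card I * (K1c (I × Bool) * 16 + 2 * K1c I) with hK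
  have hK0 : 0 ≤ K := mul_nonneg (by positivity) (add_nonneg (mul_nonneg K1c_nonneg (by norm_num))
    (mul_nonneg (by norm_num) K1c_nonneg))
  set C0 : ℝ := 2 * 2 ^ Fintype.card I + 4 * K with hC0
  have hC00 : 0 < C0 := by positivity
  refine ⟨Real.sqrt (2 ^ Fintype.card I * C0), ρ, Real.sqrt_pos.2 (by positivity), h0, h1, ?_⟩
  intro k n _ _ ni _ _ ι hι t ht M hM
  set N := Fintype.card n
  have hN1 : (1 : ℝ) ≤ 4 ^ N := one_le_pow₀ (by norm_num)
  have hρ2 : ρ ^ 2 ≤ 1 := pow_le_one₀ h0.le h1.le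
  have hρ20 : (0 : ℝ) < ρ ^ 2 := by positivity
  have hes : es k ι t M ≤ C0 * 4 ^ N * (ρ ^ 2) ^ k := by
    have hk := Nat.div_add_mod k (b + 1)
    have hk2 : k % (b + 1) < b + 1 := Nat.mod_lt k (Nat.succ_pos b)
    rcases Nat.eq_zero_or_pos (k / (b + 1)) with hq | hq
    · have h2 : k ≤ b + 1 := by
        rw [hq, mul_zero, zero_add] at hk
        omega
      have h3 : (ρ ^ 2) ^ (b + 1) ≤ (ρ ^ 2) ^ k := pow_le_pow_of_le_one hρ20.le hρ2 h2
      have h4 : (1 : ℝ) / 2 ≤ (ρ ^ 2) ^ k := hρ.trans h3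
      have h5 := es_triv k ι t M
      have h6 : (2 : ℝ) ^ Fintype.card I ≤ 2 * 2 ^ Fintype.card I * 1 * (ρ ^ 2) ^ k := by
        have : (0 : ℝ) < 2 ^ Fintype.card I := by positivity
        nlinarith
      have h7 : 2 * 2 ^ Fintype.card I * 1 * (ρ ^ 2) ^ k ≤ C0 * 4 ^ N * (ρ ^ 2) ^ k := by
        apply mul_le_mul_of_nonneg_right _ (by positivity)
        apply mul_le_mul _ hN1 zero_le_one hC00.le
        rw [hC0]
        linarith
      linarith
    · obtain ⟨q, hqq⟩ : ∃ q, k / (b + 1) = q + 1 := ⟨k / (b + 1) - 1, by omega⟩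
      have h2 : b * (q + 1) ≤ k := by
        rw [hqq] at hk
        have : (b + 1) * (q + 1) = b * (q + 1) + (q + 1) := by ring
        omega
      have h3 := hb q k h2 hι ht hM
      have h4 : (1 / 2 : ℝ) ^ q ≤ 4 * (ρ ^ 2) ^ k := by
        have h5 : (1 / 2 : ℝ) ^ (q + 2) ≤ ((ρ ^ 2) ^ (b + 1)) ^ (q + 2) :=
          pow_le_pow_left₀ (by norm_num) hρ _
        have h6 : ((ρ ^ 2) ^ (b + 1)) ^ (q + 2) ≤ (ρ ^ 2) ^ k := by
          rw [← pow_mul]
          refine pow_le_pow_of_le_one hρ20.le hρ2 ?_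
          rw [hqq] at hk
          have : (b + 1) * (q + 2) = (b + 1) * (q + 1) + (b + 1) := by ring
          omega
        have h7 : (1 / 2 : ℝ) ^ (q + 2) = (1 / 2) ^ q / 4 := by
          rw [pow_add]
          norm_num
          ring
        rw [h7] at h5
        linarith
      refine h3.trans ?_
      have h5 : 2 ^ Fintype.card I * (K1c (I × Bool) * (1 / 2) ^ q * 4 ^ (N + 2) +
          2 * (K1c I * (1 / 2) ^ q * 4 ^ N)) = K * 4 ^ N * (1 / 2) ^ q := by
        rw [hK, pow_add]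
        ring
      rw [h5]
      have h6 : K * 4 ^ N * (1 / 2) ^ q ≤ K * 4 ^ N * (4 * (ρ ^ 2) ^ k) :=
        mul_le_mul_of_nonneg_left h4 (mul_nonneg hK0 (by positivity))
      refine h6.trans ?_
      have h7 : K * 4 ^ N * (4 * (ρ ^ 2) ^ k) = 4 * K * (4 ^ N * (ρ ^ 2) ^ k) := by ring
      have h8 : C0 * 4 ^ N * (ρ ^ 2) ^ k = C0 * (4 ^ N * (ρ ^ 2) ^ k) := by ring
      rw [h7, h8]
      apply mul_le_mul_of_nonneg_right _ (by positivity)
      rw [hC0]
      have : (0 : ℝ) < 2 ^ Fintype.card I := by positivity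
      linarith
  have h2 := ed_sq k ι t M
  have h3 : ed k ι t M ^ 2 ≤ (Real.sqrt (2 ^ Fintype.card I * C0) * 2 ^ N * ρ ^ k) ^ 2 := by
    rw [mul_pow, mul_pow, Real.sq_sqrt (by positivity)]
    refine h2.trans ?_
    have h4 : ((2 : ℝ) ^ N) ^ 2 = 4 ^ N := by
      rw [← pow_mul, mul_comm, pow_mul]
      norm_num
    have h5 : (ρ ^ k) ^ 2 = (ρ ^ 2) ^ k := by rw [← pow_mul, ← pow_mul, mul_comm]
    rw [h4, h5]
    calc 2 ^ Fintype.card I * es k ι t M ≤ 2 ^ Fintype.card I * (C0 * 4 ^ N * (ρ ^ 2) ^ k) :=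
          mul_le_mul_of_nonneg_left hes (by positivity)
      _ = _ := by ring
  exact (pow_le_pow_iff_left₀ (ed_nonneg k ι t M) (by positivity) two_ne_zero).1 h3

/-! ### the pattern process -/

/-- the set of the nonsingular matrices -/
def gs {ni : I → Type} [∀ i, Fintype (ni i)] [∀ i, DecidableEq (ni i)]
    (M : ∀ i, Matrix (ni i) (ni i) (ZMod 2)) : Finset I := univ.filter fun i => (M i).det ≠ 0

theorem ptn_gs {ni : I → Type} [∀ i, Fintype (ni i)] [∀ i, DecidableEq (ni i)]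
    (M : ∀ i, Matrix (ni i) (ni i) (ZMod 2)) (A : Finset I) :
    ptn A (fun i => bM (M i)) = if gs M = A then 1 else 0 := by
  unfold ptn
  by_cases h : gs M = A
  · rw [if_pos h]
    have h1 : ∀ i ∈ A, bM (M i) = 1 := by
      intro i hi
      rw [← h] at hi
      exact if_pos (Finset.mem_filter.1 hi).2
    have h2 : ∀ i ∈ Aᶜ, (1 - bM (M i)) = 1 := by
      intro i hi
      have h3 : bM (M i) = 0 := by
        refine if_neg fun h4 => Finset.mem_compl.1 hi ?_
        rw [← h]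
        exact Finset.mem_filter.2 ⟨mem_univ _, h4⟩
      rw [h3, sub_zero]
    rw [Finset.prod_eq_one h1, Finset.prod_eq_one h2, mul_one]
  · rw [if_neg h]
    have h1 : ∃ i, ¬ (i ∈ gs M ↔ i ∈ A) := by
      by_contra h2
      exact h (Finset.ext fun i => by
        by_contra h3
        exact h2 ⟨i, h3⟩)
    obtain ⟨i, hi⟩ := h1
    by_cases hA : i ∈ A
    · refine mul_eq_zero_of_left (Finset.prod_eq_zero hA ?_) _
      refine if_neg fun h4 => hi ⟨fun _ => hA, fun _ => Finset.mem_filter.2 ⟨mem_univ _, h4⟩⟩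
    · refine mul_eq_zero_of_right _ (Finset.prod_eq_zero (Finset.mem_compl.2 hA) ?_)
      have h4 : bM (M i) = 1 := by
        by_contra h5
        refine hi ⟨fun h6 => absurd ?_ h5, fun h6 => absurd h6 hA⟩
        exact if_pos (Finset.mem_filter.1 h6).2
      exact sub_eq_zero.2 h4.symm

end

/-- the mean of a function of the patterns along a branch of length `k` -/
noncomputable def jp {I : Type} [Fintype I] [DecidableEq I] : (k : ℕ) → {n : Type} → [Fintype n] →
    [DecidableEq n] → {ni : I → Type} → [∀ i, Fintype (ni i)] → [∀ i, DecidableEq (ni i)] →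
    (∀ i, ni i → n) → (I → Finset n) → (∀ i, Matrix (ni i) (ni i) (ZMod 2)) →
    (List (Finset I) → ℝ) → ℝ
  | 0, _, _, _, _, _, _, _, _, M, f => f [gs M]
  | k + 1, n, _, _, ni, _, _, ι, t, M, f => avg fun y : (n → ZMod 2) × ZMod 2 =>
      jp k (n := n ⊕ Unit) (ni := fun i => ni i ⊕ Unit) (fun i => Sum.map (ι i) id)
        (fun i => exT (t i)) (fun i => bord (M i) (y.1 ∘ ι i) (∑ u ∈ t i, y.1 u + y.2))
        fun l => f (gs M :: l)

/-- the mean of a function of `L` independent random sets of coins -/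
noncomputable def iE {I : Type} [Fintype I] [DecidableEq I] : ℕ → (List (Finset I) → ℝ) → ℝ
  | 0, f => f []
  | L + 1, f => ∑ A : Finset I, wt A * iE L fun l => f (A :: l)

section
variable {I : Type} [Fintype I] [DecidableEq I]

theorem jp_zero {n : Type} [Fintype n] [DecidableEq n]
    {ni : I → Type} [∀ i, Fintype (ni i)] [∀ i, DecidableEq (ni i)] (ι : ∀ i, ni i → n)
    (t : I → Finset n) (M : ∀ i, Matrix (ni i) (ni i) (ZMod 2)) (f : List (Finset I) → ℝ) :
    jp 0 ι t M f = f [gs M] := rfl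

theorem jp_succ (k : ℕ) {n : Type} [Fintype n] [DecidableEq n]
    {ni : I → Type} [∀ i, Fintype (ni i)] [∀ i, DecidableEq (ni i)] (ι : ∀ i, ni i → n)
    (t : I → Finset n) (M : ∀ i, Matrix (ni i) (ni i) (ZMod 2)) (f : List (Finset I) → ℝ) :
    jp (k + 1) ι t M f = avg fun y : (n → ZMod 2) × ZMod 2 =>
      jp k (n := n ⊕ Unit) (ni := fun i => ni i ⊕ Unit) (fun i => Sum.map (ι i) id)
        (fun i => exT (t i)) (fun i => bord (M i) (y.1 ∘ ι i) (∑ u ∈ t i, y.1 u + y.2))
        fun l => f (gs M :: l) := rfl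

theorem iE_zero (f : List (Finset I) → ℝ) : iE 0 f = f [] := rfl

theorem iE_succ (L : ℕ) (f : List (Finset I) → ℝ) :
    iE (L + 1) f = ∑ A : Finset I, wt A * iE L fun l => f (A :: l) := rfl

theorem sum_wt : ∑ A : Finset I, wt A = 1 := by
  have h := Finset.sum_pow_mul_eq_add_pow c2 (1 - c2) (univ : Finset I)
  rw [add_sub_cancel, one_pow, Finset.card_univ, Finset.powerset_univ] at h
  exact h

theorem iE_abs (L : ℕ) : ∀ {f : List (Finset I) → ℝ}, (∀ l, |f l| ≤ 1) → |iE L f| ≤ 1 := by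
  induction L with
  | zero =>
    intro f hf
    exact hf []
  | succ L ih =>
    intro f hf
    rw [iE_succ]
    refine (Finset.abs_sum_le_sum_abs _ _).trans ?_
    rw [← sum_wt (I := I)]
    refine Finset.sum_le_sum fun A _ => ?_
    rw [abs_mul, abs_of_nonneg (wt_nonneg A)]
    exact mul_le_of_le_one_right (wt_nonneg A) (ih fun l => hf _)

/-- **Total variation, from the start.** -/
theorem tv_zero (L : ℕ) : ∀ {n : Type} [Fintype n] [DecidableEq n] {ni : I → Type}
    [∀ i, Fintype (ni i)] [∀ i, DecidableEq (ni i)] (ι : ∀ i, ni i → n) (t : I → Finset n)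
    (M : ∀ i, Matrix (ni i) (ni i) (ZMod 2)) (f : List (Finset I) → ℝ), (∀ l, |f l| ≤ 1) →
    |jp L ι t M f - iE L fun l => f (gs M :: l)| ≤ ∑ j ∈ range L, ed j ι t M := by
  induction L with
  | zero =>
    intro n _ _ ni _ _ ι t M f hf
    rw [jp_zero, iE_zero, sub_self, abs_zero, Finset.range_zero, Finset.sum_empty]
  | succ L ih =>
    intro n _ _ ni _ _ ι t M f hf
    set ch : (n → ZMod 2) × ZMod 2 → (∀ i, Matrix (ni i ⊕ Unit) (ni i ⊕ Unit) (ZMod 2)) :=
      fun y i => bord (M i) (y.1 ∘ ι i) (∑ u ∈ t i, y.1 u + y.2) with hch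
    set g : Finset I → ℝ := fun A => iE L fun l => f (gs M :: A :: l) with hg
    have h1 : |jp (L + 1) ι t M f - avg fun y => g (gs (ch y))| ≤
        ∑ j ∈ range L, ed (j + 1) ι t M := by
      rw [jp_succ, ← avg_sub]
      have h2 : ∑ j ∈ range L, ed (j + 1) ι t M = avg fun y : (n → ZMod 2) × ZMod 2 =>
          ∑ j ∈ range L, ed j (n := n ⊕ Unit) (ni := fun i => ni i ⊕ Unit)
            (fun i => Sum.map (ι i) id) (fun i => exT (t i)) (ch y) := by
        rw [avg_sum]
        exact Finset.sum_congr rfl fun j _ => ed_succ _ _ _ _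
      rw [h2]
      exact (abs_avg _).trans (avg_mono fun y => ih _ _ _ _ fun l => hf _)
    have h2 : (avg fun y => g (gs (ch y))) = ∑ A : Finset I, qA ι t M A * g A := by
      have h3 : ∀ y, g (gs (ch y)) = ∑ A : Finset I, g A * ptn A fun i => bM (ch y i) := by
        intro y
        rw [Finset.sum_eq_single (gs (ch y))]
        · rw [ptn_gs, if_pos rfl, mul_one]
        · intro A _ hA
          rw [ptn_gs, if_neg (Ne.symm hA), mul_zero]
        · intro h
          exact absurd (mem_univ _) h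
      simp_rw [h3]
      rw [avg_sum]
      refine Finset.sum_congr rfl fun A _ => ?_
      rw [avg_mul, mul_comm]
      rfl
    have h3 : |(avg fun y => g (gs (ch y))) - iE (L + 1) fun l => f (gs M :: l)| ≤ ed 0 ι t M := by
      rw [h2, iE_succ, ← Finset.sum_sub_distrib]
      refine (Finset.abs_sum_le_sum_abs _ _).trans (Finset.sum_le_sum fun A _ => ?_)
      have h4 : qA ι t M A * g A - wt A * (iE L fun l => f (gs M :: A :: l)) =
          (qA ι t M A - wt A) * g A := by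
        rw [hg]
        ring
      rw [h4, abs_mul]
      exact mul_le_of_le_one_right (abs_nonneg _) (iE_abs L fun l => hf _)
    have h4 := abs_sub_le (jp (L + 1) ι t M f) (avg fun y => g (gs (ch y)))
      (iE (L + 1) fun l => f (gs M :: l))
    rw [Finset.sum_range_succ']
    linarith

/-- **Total variation, from the step `k`.** -/
theorem tv (L k : ℕ) : ∀ {n : Type} [Fintype n] [DecidableEq n] {ni : I → Type}
    [∀ i, Fintype (ni i)] [∀ i, DecidableEq (ni i)] (ι : ∀ i, ni i → n) (t : I → Finset n)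
    (M : ∀ i, Matrix (ni i) (ni i) (ZMod 2)) (f : List (Finset I) → ℝ), (∀ l, |f l| ≤ 1) →
    |(jp (k + L) ι t M fun l => f (l.drop (k + 1))) - iE L f| ≤
      ∑ j ∈ range L, ed (k + j) ι t M := by
  induction k with
  | zero =>
    intro n _ _ ni _ _ ι t M f hf
    have h := tv_zero L ι t M (fun l => f (l.drop 1)) fun l => hf _
    simp only [Nat.zero_add]
    exact h
  | succ k ih =>
    intro n _ _ ni _ _ ι t M f hf
    have e : k + 1 + L = (k + L) + 1 := by ring
    rw [e, jp_succ]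
    have h2 : ∑ j ∈ range L, ed (k + 1 + j) ι t M = avg fun y : (n → ZMod 2) × ZMod 2 =>
        ∑ j ∈ range L, ed (k + j) (n := n ⊕ Unit) (ni := fun i => ni i ⊕ Unit)
          (fun i => Sum.map (ι i) id) (fun i => exT (t i))
          (fun i => bord (M i) (y.1 ∘ ι i) (∑ u ∈ t i, y.1 u + y.2)) := by
      rw [avg_sum]
      refine Finset.sum_congr rfl fun j _ => ?_
      rw [← ed_succ, show k + 1 + j = k + j + 1 by ring]
    have h3 : iE L f = avg fun _ : (n → ZMod 2) × ZMod 2 => iE L f := (avg_const _).symm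
    rw [h2, h3, ← avg_sub]
    refine (abs_avg _).trans (avg_mono fun y => ?_)
    exact ih _ _ _ f hf

/-- **The pattern process is near to independent coins.** -/
theorem coin (I : Type) [Fintype I] [DecidableEq I] : ∃ C ρ : ℝ, 0 < C ∧ 0 < ρ ∧ ρ < 1 ∧
    ∀ (k L : ℕ) {n : Type} [Fintype n] [DecidableEq n] {ni : I → Type} [∀ i, Fintype (ni i)]
    [∀ i, DecidableEq (ni i)] {ι : ∀ i, ni i → n}, (∀ i, Function.Injective (ι i)) →
    ∀ {t : I → Finset n}, Function.Injective t →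
    ∀ {M : ∀ i, Matrix (ni i) (ni i) (ZMod 2)}, (∀ i, (M i).IsSymm) →
    ∀ f : List (Finset I) → ℝ, (∀ l, |f l| ≤ 1) →
    |(jp (k + L) ι t M fun l => f (l.drop (k + 1))) - iE L f| ≤ C * 2 ^ Fintype.card n * ρ ^ k := by
  obtain ⟨C, ρ, hC, h0, h1, h⟩ := ed_rate I
  refine ⟨C * (1 - ρ)⁻¹, ρ, mul_pos hC (inv_pos.2 (by linarith)), h0, h1, ?_⟩
  intro k L n _ _ ni _ _ ι hι t ht M hM f hf
  refine (tv L k ι t M f hf).trans ?_
  have h2 : ∀ j ∈ range L, ed (k + j) ι t M ≤ C * 2 ^ Fintype.card n * ρ ^ k * ρ ^ j := by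
    intro j _
    refine (h (k + j) hι ht hM).trans (le_of_eq ?_)
    rw [pow_add]
    ring
  refine (Finset.sum_le_sum h2).trans ?_
  rw [← Finset.mul_sum]
  have h3 : ∑ j ∈ range L, ρ ^ j ≤ (1 - ρ)⁻¹ := by
    rw [← tsum_geometric_of_lt_one h0.le h1]
    exact (summable_geometric_of_lt_one h0.le h1).sum_le_tsum _ fun j _ => by positivity
  calc C * 2 ^ Fintype.card n * ρ ^ k * ∑ j ∈ range L, ρ ^ j ≤
      C * 2 ^ Fintype.card n * ρ ^ k * (1 - ρ)⁻¹ := mul_le_mul_of_nonneg_left h3 (by positivity)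
    _ = _ := by ring

end

end Pool.Agent.Q1.PT
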