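import Pool.Agent.Q283.TW.Bord

/-!
# Iterated borderings of matrices over the field with two elements
-/

set_option autoImplicit false

namespace Pool.Agent.Q1.PT

open Finset Matrix Q283.TW

/-! ### averages -/

/-- the average of a function on a finite type -/
noncomputable def avg {α : Type} [Fintype α] (f : α → ℝ) : ℝ := (∑ a, f a) / (Fintype.card α : ℝ)

theorem avg_equiv {α β : Type} [Fintype α] [Fintype β] (e : α ≃ β) (f : β → ℝ) :
    avg (fun a => f (e a)) = avg f := by
  unfold avg
  rw [Equiv.sum_comp e f, Fintype.card_congr e]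

theorem avg_prod {α β : Type} [Fintype α] [Fintype β] (f : α × β → ℝ) :
    avg f = avg fun a => avg fun b => f (a, b) := by
  unfold avg
  rw [Fintype.sum_prod_type, Fintype.card_prod, Nat.cast_mul, ← Finset.sum_div, div_div,
    mul_comm (Fintype.card β : ℝ)]

theorem avg_mono {α : Type} [Fintype α] {f g : α → ℝ} (h : ∀ a, f a ≤ g a) : avg f ≤ avg g := by
  unfold avg
  exact div_le_div_of_nonneg_right (Finset.sum_le_sum fun a _ => h a) (Nat.cast_nonneg _)

theorem avg_const {α : Type} [Fintype α] [Nonempty α] (c : ℝ) : avg (fun _ : α => c) = c := by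
  unfold avg
  rw [Finset.sum_const, nsmul_eq_mul, Finset.card_univ]
  have : (Fintype.card α : ℝ) ≠ 0 := by
    have := Fintype.card_pos (α := α)
    positivity
  field_simp

theorem avg_add {α : Type} [Fintype α] (f g : α → ℝ) :
    avg (fun a => f a + g a) = avg f + avg g := by
  unfold avg
  rw [Finset.sum_add_distrib, add_div]

theorem avg_sub {α : Type} [Fintype α] (f g : α → ℝ) :
    avg (fun a => f a - g a) = avg f - avg g := by
  unfold avg
  rw [Finset.sum_sub_distrib, sub_div]

theorem abs_avg {α : Type} [Fintype α] (f : α → ℝ) : |avg f| ≤ avg fun a => |f a| := by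
  unfold avg
  rw [abs_div, Nat.abs_cast]
  exact div_le_div_of_nonneg_right (Finset.abs_sum_le_sum_abs _ _) (Nat.cast_nonneg _)

/-- averages and surjective homomorphisms -/
theorem avg_hom {X Y : Type} [AddGroup X] [AddGroup Y] [Fintype X] [Fintype Y] (φ : X →+ Y)
    (hφ : Function.Surjective φ) (ψ : Y → ℝ) : avg (fun x => ψ (φ x)) = avg ψ := by
  classical
  have hc : ∀ y : Y, ((univ : Finset X).filter fun x => φ x = y).card =
      ((univ : Finset X).filter fun x => φ x = 0).card := by
    intro y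
    exact AddMonoidHom.card_fiber_eq_of_mem_range φ (hφ y) (hφ 0)
  set c : ℕ := ((univ : Finset X).filter fun x => φ x = 0).card with hcd
  have hc0 : 0 < c := Finset.card_pos.2 ⟨0, by simp⟩
  have h1 : ∑ x, ψ (φ x) = c * ∑ y, ψ y := by
    rw [← Finset.sum_fiberwise_of_maps_to (s := (univ : Finset X)) (t := (univ : Finset Y))
      (g := φ) (fun x _ => Finset.mem_univ _), Finset.mul_sum]
    refine Finset.sum_congr rfl fun y _ => ?_
    rw [Finset.sum_congr rfl (g := fun _ => ψ y)]
    · rw [Finset.sum_const, nsmul_eq_mul, hc y]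
    · intro x hx
      rw [(Finset.mem_filter.1 hx).2]
  have h2 : Fintype.card X = c * Fintype.card Y := by
    rw [← Finset.card_univ, Finset.card_eq_sum_card_fiberwise (s := (univ : Finset X))
      (t := (univ : Finset Y)) (f := φ) (fun x _ => Finset.mem_coe.2 (Finset.mem_univ _)),
      Finset.sum_congr rfl fun y _ => hc y, Finset.sum_const, smul_eq_mul, Finset.card_univ,
      mul_comm]
  unfold avg
  rw [h1, h2]
  push_cast
  have : (c : ℝ) ≠ 0 := by positivity
  rw [mul_div_mul_left _ _ this]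

/-! ### iterated borderings -/

/-- the proportion of the nonsingular matrices among the `k`-fold borderings of `M` -/
noncomputable def prp : (k : ℕ) → {n : Type} → [Fintype n] → [DecidableEq n] →
    Matrix n n (ZMod 2) → ℝ
  | 0, _, _, _, M => if M.det ≠ 0 then 1 else 0
  | k + 1, n, _, _, M => avg fun x : (n → ZMod 2) × ZMod 2 => prp k (bord M x.1 x.2)

theorem prp_zero {n : Type} [Fintype n] [DecidableEq n] (M : Matrix n n (ZMod 2)) :
    prp 0 M = if M.det ≠ 0 then 1 else 0 := rfl

theorem prp_succ (k : ℕ) {n : Type} [Fintype n] [DecidableEq n] (M : Matrix n n (ZMod 2)) :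
    prp (k + 1) M = avg fun x : (n → ZMod 2) × ZMod 2 => prp k (bord M x.1 x.2) := rfl

theorem prp_submatrix (k : ℕ) : ∀ {m n : Type} [Fintype m] [DecidableEq m] [Fintype n]
    [DecidableEq n] (e : m ≃ n) (M : Matrix n n (ZMod 2)),
    prp k (M.submatrix e e) = prp k M := by
  induction k with
  | zero =>
    intro m n _ _ _ _ e M
    rw [prp_zero, prp_zero, Matrix.det_submatrix_equiv_self]
  | succ k ih =>
    intro m n _ _ _ _ e M
    rw [prp_succ, prp_succ]
    have h1 : ∀ x : (m → ZMod 2) × ZMod 2, prp k (bord (M.submatrix e e) x.1 x.2) =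
        prp k (bord M (x.1 ∘ e.symm) x.2) := by
      intro x
      rw [← ih (e.sumCongr (Equiv.refl Unit)) (bord M (x.1 ∘ e.symm) x.2)]
      congr 1
      ext i j
      rcases i with i | i <;> rcases j with j | j
      · simp only [bord, Matrix.submatrix_apply, Equiv.sumCongr_apply, Sum.map_inl,
          Matrix.fromBlocks_apply₁₁, Matrix.add_apply, Matrix.diagonal_apply,
          Function.comp_apply, Equiv.symm_apply_apply, e.injective.eq_iff]
      · simp [bord]
      · simp [bord]
      · simp [bord]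
    simp_rw [h1]
    exact avg_equiv ((e.arrowCongr (Equiv.refl (ZMod 2))).prodCongr (Equiv.refl (ZMod 2)))
      (fun x => prp k (bord M x.1 x.2))

/-- the symmetric entries -/
def sy {k : ℕ} (a : Fin k → Fin k → ZMod 2) (j l : Fin k) : ZMod 2 := if j < l then a j l else a l j

/-- the kernel of the `k`-fold bordering is zero -/
def Nf {n : Type} [Fintype n] {k : ℕ} (M : Matrix n n (ZMod 2)) (C : Fin k → n → ZMod 2)
    (e : Fin k → ZMod 2) (a : Fin k → Fin k → ZMod 2) : Prop :=
  ∀ (x : n → ZMod 2) (y : Fin k → ZMod 2),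
    (∀ u, ∑ v, M u v * x v + ∑ l, C l u * (y l + x u) = 0) →
    (∀ j, ∑ u, C j u * (x u + y j) + ∑ l, sy a j l * (y l + y j) + e j * y j = 0) →
    x = 0 ∧ y = 0

theorem two_zero (x : ZMod 2) : x + x = 0 := CharTwo.add_self_eq_zero x

theorem nf_zero {n : Type} [Fintype n] [DecidableEq n] (M : Matrix n n (ZMod 2))
    (C : Fin 0 → n → ZMod 2) (e : Fin 0 → ZMod 2) (a : Fin 0 → Fin 0 → ZMod 2) :
    Nf M C e a ↔ M.det ≠ 0 := by
  constructor
  · intro h hd
    obtain ⟨x, hx, hMx⟩ := Matrix.exists_mulVec_eq_zero_iff.2 hd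
    apply hx
    refine (h x 0 (fun u => ?_) fun j => j.elim0).1
    have := congrFun hMx u
    simpa [Matrix.mulVec, dotProduct] using this
  · intro hd x y h1 _
    refine ⟨?_, funext fun j => j.elim0⟩
    by_contra hx
    apply hd
    apply Matrix.exists_mulVec_eq_zero_iff.1
    refine ⟨x, hx, funext fun u => ?_⟩
    have := h1 u
    simpa [Matrix.mulVec, dotProduct] using this

theorem nf_succ {n : Type} [Fintype n] [DecidableEq n] {k : ℕ} (M : Matrix n n (ZMod 2))
    (C : Fin (k + 1) → n → ZMod 2) (e : Fin (k + 1) → ZMod 2)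
    (a : Fin (k + 1) → Fin (k + 1) → ZMod 2) :
    Nf (bord M (C 0) (e 0 + ∑ u, C 0 u)) (fun (l : Fin k) => Sum.elim (C l.succ) fun _ : Unit => a 0 l.succ)
      (fun l => e l.succ) (fun i j => a i.succ j.succ) ↔ Nf M C e a := by
  have row1 : ∀ (x : n → ZMod 2) (x0 : ZMod 2) (y : Fin k → ZMod 2) (u : n),
      ∑ w : n ⊕ Unit, bord M (C 0) (e 0 + ∑ u, C 0 u) (Sum.inl u) w * Sum.elim x (fun _ : Unit => x0) w +
        ∑ l, Sum.elim (C l.succ) (fun _ : Unit => a 0 l.succ) (Sum.inl u) *
          (y l + Sum.elim x (fun _ : Unit => x0) (Sum.inl u)) =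
      ∑ v, M u v * x v + ∑ l : Fin (k + 1), C l u * ((Fin.cons x0 y : Fin (k + 1) → ZMod 2) l + x u) := by
    intro x x0 y u
    rw [Fintype.sum_sum_type, Fin.sum_univ_succ]
    simp only [bord, Matrix.fromBlocks_apply₁₁, Matrix.fromBlocks_apply₁₂, Matrix.add_apply,
      Matrix.diagonal_apply, Matrix.of_apply, Sum.elim_inl, Sum.elim_inr, Fin.cons_zero,
      Fin.cons_succ, Finset.univ_unique, Finset.sum_singleton, add_mul, Finset.sum_add_distrib,
      ite_mul, zero_mul, Finset.sum_ite_eq, Finset.mem_univ, if_true]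
    ring
  have row2 : ∀ (x : n → ZMod 2) (x0 : ZMod 2) (y : Fin k → ZMod 2),
      ∑ w : n ⊕ Unit, bord M (C 0) (e 0 + ∑ u, C 0 u) (Sum.inr ()) w * Sum.elim x (fun _ : Unit => x0) w +
        ∑ l, Sum.elim (C l.succ) (fun _ : Unit => a 0 l.succ) (Sum.inr ()) *
          (y l + Sum.elim x (fun _ : Unit => x0) (Sum.inr ())) =
      ∑ u, C 0 u * (x u + (Fin.cons x0 y : Fin (k + 1) → ZMod 2) 0) +
        ∑ l, sy a 0 l * ((Fin.cons x0 y : Fin (k + 1) → ZMod 2) l +
          (Fin.cons x0 y : Fin (k + 1) → ZMod 2) 0) +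
        e 0 * (Fin.cons x0 y : Fin (k + 1) → ZMod 2) 0 := by
    intro x x0 y
    rw [Fintype.sum_sum_type, Fin.sum_univ_succ (n := k)]
    simp only [bord, Matrix.fromBlocks_apply₂₁, Matrix.fromBlocks_apply₂₂,
      Matrix.of_apply, Sum.elim_inl, Sum.elim_inr, Fin.cons_zero,
      Fin.cons_succ, Finset.univ_unique, Finset.sum_singleton, mul_add, Finset.sum_add_distrib,
      two_zero, sy, Fin.succ_pos, if_true, ← Finset.sum_mul, mul_zero, zero_add, add_mul]
    ring
  have row3 : ∀ (x : n → ZMod 2) (x0 : ZMod 2) (y : Fin k → ZMod 2) (j : Fin k),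
      ∑ w : n ⊕ Unit, Sum.elim (C j.succ) (fun _ : Unit => a 0 j.succ) w *
        (Sum.elim x (fun _ : Unit => x0) w + y j) +
        ∑ l, sy (fun i j => a i.succ j.succ) j l * (y l + y j) + e j.succ * y j =
      ∑ u, C j.succ u * (x u + (Fin.cons x0 y : Fin (k + 1) → ZMod 2) j.succ) +
        ∑ l, sy a j.succ l * ((Fin.cons x0 y : Fin (k + 1) → ZMod 2) l +
          (Fin.cons x0 y : Fin (k + 1) → ZMod 2) j.succ) +
        e j.succ * (Fin.cons x0 y : Fin (k + 1) → ZMod 2) j.succ := by
    intro x x0 y j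
    rw [Fintype.sum_sum_type, Fin.sum_univ_succ (n := k)]
    have h1 : sy a j.succ 0 = a 0 j.succ := by
      unfold sy
      rw [if_neg (by simp)]
    have h2 : ∀ l : Fin k, sy a j.succ l.succ = sy (fun i j => a i.succ j.succ) j l := by
      intro l
      unfold sy
      simp only [Fin.succ_lt_succ_iff]
    simp only [Sum.elim_inl, Sum.elim_inr, Fin.cons_zero, Fin.cons_succ, Finset.univ_unique,
      Finset.sum_singleton, h1, h2]
    ring
  constructor
  · intro h x y h1 h2
    have hy : y = Fin.cons (y 0) fun l => y l.succ := (Fin.cons_self_tail y).symm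
    have h3 := h (Sum.elim x fun _ : Unit => y 0) (fun l => y l.succ) (fun w => ?_) (fun j => ?_)
    · refine ⟨funext fun u => congrFun h3.1 (Sum.inl u), ?_⟩
      rw [hy]
      refine funext fun l => Fin.cases ?_ (fun l => ?_) l
      · rw [Fin.cons_zero]
        exact congrFun h3.1 (Sum.inr ())
      · rw [Fin.cons_succ]
        exact congrFun h3.2 l
    · rcases w with u | w
      · rw [row1 x (y 0) (fun l => y l.succ) u, ← hy]
        exact h1 u
      · rw [show w = () from rfl, row2 x (y 0) fun l => y l.succ, ← hy]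
        exact h2 0
    · rw [row3 x (y 0) (fun l => y l.succ) j, ← hy]
      exact h2 j.succ
  · intro h x y h1 h2
    have hx : x = Sum.elim (fun u => x (Sum.inl u)) fun _ : Unit => x (Sum.inr ()) := by
      funext w
      rcases w with u | w <;> rfl
    have h3 := h (fun u => x (Sum.inl u)) (Fin.cons (x (Sum.inr ())) y) (fun u => ?_) (fun j => ?_)
    · refine ⟨?_, funext fun l => ?_⟩
      · rw [hx]
        funext w
        rcases w with u | w
        · exact congrFun h3.1 u
        · have := congrFun h3.2 0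
          rw [Fin.cons_zero] at this
          exact this
      · have := congrFun h3.2 l.succ
        rw [Fin.cons_succ] at this
        exact this
    · rw [← row1 (fun u => x (Sum.inl u)) (x (Sum.inr ())) y u, ← hx]
      exact h1 (Sum.inl u)
    · refine Fin.cases ?_ (fun j => ?_) j
      · rw [← row2 (fun u => x (Sum.inl u)) (x (Sum.inr ())) y, ← hx]
        exact h1 (Sum.inr ())
      · rw [← row3 (fun u => x (Sum.inl u)) (x (Sum.inr ())) y j, ← hx]
        exact h2 j

/-- the parameters of the `k`-fold borderings -/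
abbrev Om (n : Type) (k : ℕ) : Type := (Fin k → n → ZMod 2) × (Fin k → ZMod 2) × (Fin k → Fin k → ZMod 2)

/-- the decomposition of the parameters -/
def dec (n : Type) [Fintype n] (k : ℕ) : Om n (k + 1) →+ ((n → ZMod 2) × ZMod 2) × Om (n ⊕ Unit) k where
  toFun ω := ((ω.1 0, ω.2.1 0 + ∑ u, ω.1 0 u),
    (fun l => Sum.elim (ω.1 l.succ) fun _ : Unit => ω.2.2 0 l.succ), (fun l => ω.2.1 l.succ),
    fun i j => ω.2.2 i.succ j.succ)
  map_zero' := by
    refine Prod.ext (Prod.ext rfl ?_) (Prod.ext ?_ rfl)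
    · simp
    · funext l w
      rcases w with u | w <;> rfl
  map_add' ω ω' := by
    refine Prod.ext (Prod.ext rfl ?_) (Prod.ext ?_ rfl)
    · simp only [Prod.fst_add, Prod.snd_add, Pi.add_apply, Finset.sum_add_distrib]
      ring
    · funext l w
      rcases w with u | w <;> rfl

theorem dec_surj (n : Type) [Fintype n] (k : ℕ) : Function.Surjective (dec n k) := by
  rintro ⟨⟨v, d⟩, C, e, a⟩
  refine ⟨(Fin.cons v fun l u => C l (Sum.inl u), Fin.cons (d + ∑ u, v u) e,
    Fin.cons (Fin.cons 0 fun l => C l (Sum.inr ())) fun i => Fin.cons 0 (a i)), ?_⟩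
  refine Prod.ext (Prod.ext ?_ ?_) (Prod.ext ?_ (Prod.ext ?_ ?_))
  · rfl
  · show d + ∑ u, v u + ∑ u, v u = d
    rw [add_assoc, two_zero, add_zero]
  · funext l w
    rcases w with u | w <;> rfl
  · rfl
  · rfl

open Classical in
theorem prp_eq (k : ℕ) : ∀ {n : Type} [Fintype n] [DecidableEq n] (M : Matrix n n (ZMod 2)),
    prp k M = avg fun ω : Om n k => if Nf M ω.1 ω.2.1 ω.2.2 then (1 : ℝ) else 0 := by
  induction k with
  | zero =>
    intro n _ _ M
    rw [prp_zero]
    simp_rw [nf_zero]
    rw [avg_const]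
  | succ k ih =>
    intro n _ _ M
    rw [prp_succ]
    simp_rw [ih]
    rw [← avg_prod (fun z : ((n → ZMod 2) × ZMod 2) × Om (n ⊕ Unit) k =>
      if Nf (bord M z.1.1 z.1.2) z.2.1 z.2.2.1 z.2.2.2 then (1 : ℝ) else 0)]
    rw [← avg_hom (dec n k) (dec_surj n k)]
    congr 1
    funext ω
    refine if_congr ?_ rfl rfl
    exact nf_succ M ω.1 ω.2.1 ω.2.2

end Pool.Agent.Q1.PT
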