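import Pool.Agent.Q283.TW.Fin
import Pool.Agent.Q1.PT.Mat

/-!
# The distribution of the symbols of a prime, and averages over the primes

The proof of `gen_density` is that of `Q283.TW.main_density` (helper283), which treats one condition.
-/

set_option autoImplicit false

namespace Pool.Agent.Q1.PT

open Finset Filter Topology Q283.TW NumberField Pool.Agent.W401.Cheb
open Pool.Agent.Y687.MQ (matD SP IP AdmD)

open scoped Classical in
/-- **The symbols of the split primes are equidistributed.** -/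
theorem gen_density (R S : Finset ℕ) (hS : S ⊆ R) (hR : ∀ r ∈ R, r.Prime ∧ r ≠ 2 ∧ r ≠ 7)
    (P : (S → ZMod 2) × ZMod 2 → Prop) (T : ℕ → Prop)
    (hT : ∀ p, Spl p → p ∉ R → (T p ↔ P (fun q : S => nrp p q, ∑ r ∈ R, nrp p r + xp1 p))) :
    Tendsto (fun X : ℕ => (((range (X + 1)).filter fun p => Spl p ∧ T p).card : ℝ) /
      (((range (X + 1)).filter fun p => Spl p).card : ℝ)) atTop
      (𝓝 ((Nat.card {x : (S → ZMod 2) × ZMod 2 // P x} : ℝ) / 2 ^ (Fintype.card S + 1))) := by
  obtain ⟨L, hL, hN, hG, s, θ, hθ, hs⟩ := exists_field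
    (({-1, 2, -7} : Finset ℤ) ∪ R.image (fun r : ℕ => (r : ℤ)))
  let E : Dat L R :=
    { s := s
      θ := θ
      hθ := hθ
      h1 := hs _ (by simp)
      h2 := hs _ (by simp)
      h7 := hs _ (by simp)
      hr := fun r hr => hs _ (by simp [hr]) }
  set C : Set Gal(L/ℚ) := {g | ∃ h : g ∈ E.G0, P (Multiplicative.toAdd (E.Ψ hR hS ⟨g, h⟩))} with hC
  have hD0 : 0 < 14 * ∏ r ∈ R, r := by
    have : 0 < ∏ r ∈ R, r := Finset.prod_pos fun r hr => (hR r hr).1.pos
    omega
  have hgood : ∀ p : ℕ, p.Prime → ¬ p ∣ 14 * ∏ r ∈ R, r → p ≠ 2 ∧ p ≠ 7 ∧ p ∉ R := by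
    intro p hp hpd
    refine ⟨?_, ?_, ?_⟩
    · rintro rfl; exact hpd (Dvd.dvd.mul_right (by norm_num) _)
    · rintro rfl; exact hpd (Dvd.dvd.mul_right (by norm_num) _)
    · intro h; exact hpd ((Finset.dvd_prod_of_mem (fun r => r) h).mul_left _)
  have d0 := dens_of L (E.G0 : Set Gal(L/ℚ)) Spl (14 * ∏ r ∈ R, r) hD0 (by
    intro p hp hpd φ g hφ
    obtain ⟨h2, h7, hpR⟩ := hgood p hp.out hpd
    exact (E.frob_facts hR h2 h7 hpR hφ).1)
  have d1 := dens_of L C (fun p => Spl p ∧ T p) (14 * ∏ r ∈ R, r) hD0 (by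
    intro p hp hpd φ g hφ
    obtain ⟨h2, h7, hpR⟩ := hgood p hp.out hpd
    obtain ⟨f1, f2, f3⟩ := E.frob_facts hR h2 h7 hpR hφ
    have key : ∀ hsp : Spl p, (T p ↔ P (Multiplicative.toAdd (E.Ψ hR hS ⟨g, f1.1 hsp⟩))) := by
      intro hsp
      rw [hT p hsp hpR]
      have e1 : (fun q : S => nrp p q) = fun q : S => ng g (E.s ((q : ℕ) : ℤ)) := by
        funext q
        exact f2 q (hS q.2)
      have e2 : ∑ r ∈ R, nrp p r + xp1 p = E.dg g := by
        unfold Dat.dg
        rw [f3 hsp, Finset.sum_congr rfl f2]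
      rw [e1, e2]
      exact Iff.rfl
    constructor
    · rintro ⟨hsp, hTp⟩
      exact ⟨f1.1 hsp, (key hsp).1 hTp⟩
    · rintro ⟨hg, hPg⟩
      exact ⟨f1.2 hg, (key (f1.2 hg)).2 hPg⟩)
  have hCcard : Nat.card C = Nat.card {g : E.G0 // P (Multiplicative.toAdd (E.Ψ hR hS g))} := by
    refine Nat.card_congr
      { toFun := fun x => ⟨⟨x.1, x.2.1⟩, x.2.2⟩
        invFun := fun x => ⟨x.1.1, x.1.2, x.2⟩
        left_inv := fun x => rfl
        right_inv := fun x => rfl }
  have hGpos : (0 : ℝ) < Nat.card Gal(L/ℚ) := by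
    have := Nat.card_pos (α := Gal(L/ℚ))
    exact_mod_cast this
  have hG0pos : (0 : ℝ) < Nat.card E.G0 := by
    have := Nat.card_pos (α := E.G0)
    exact_mod_cast this
  have hlim := d1.div d0 (by
    have : (0 : ℝ) < (Nat.card (E.G0 : Set Gal(L/ℚ)) : ℝ) / Nat.card Gal(L/ℚ) :=
      div_pos hG0pos hGpos
    exact this.ne')
  have hval : (Nat.card C : ℝ) / (Nat.card Gal(L/ℚ) : ℝ) /
      ((Nat.card (E.G0 : Set Gal(L/ℚ)) : ℝ) / (Nat.card Gal(L/ℚ) : ℝ)) =
      (Nat.card {x : (S → ZMod 2) × ZMod 2 // P x} : ℝ) / 2 ^ (Fintype.card S + 1) := by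
    have h1 := E.ratio hR hS P
    have h2 : (Nat.card (E.G0 : Set Gal(L/ℚ)) : ℝ) = Nat.card E.G0 := rfl
    rw [div_div_div_cancel_right₀ hGpos.ne', hCcard, h2, h1]
  rw [hval] at hlim
  refine hlim.congr' ?_
  filter_upwards [eventually_ge_atTop 2] with X hX
  have hpc : (Nat.primeCounting X : ℝ) ≠ 0 := by
    have : Nat.primeCounting X ≠ 0 := by
      rw [Ne, Nat.primeCounting_eq_zero_iff]
      omega
    exact_mod_cast this
  have hcount : ∀ Q : ℕ → Prop, (∀ p, Q p → p.Prime) →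
      (∑ p ∈ pr X, if Q p then (1 : ℝ) else 0) = (((range (X + 1)).filter fun p => Q p).card : ℝ) := by
    intro Q hQ
    rw [Finset.sum_boole]
    congr 2
    ext p
    unfold pr
    rw [mem_filter, mem_filter, mem_filter]
    constructor
    · rintro ⟨⟨h1, -⟩, h2⟩; exact ⟨h1, h2⟩
    · rintro ⟨h1, h2⟩; exact ⟨⟨h1, hQ p h2⟩, h2⟩
  show M _ X / M _ X = _
  unfold M
  rw [hcount _ (fun p h => h.1.1), hcount _ (fun p h => h.1), div_div_div_cancel_right₀ hpc]
  congr

theorem card_filter_inst {s : Finset ℕ} {P : ℕ → Prop} (i j : DecidablePred P) :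
    (@Finset.filter _ P i s).card = (@Finset.filter _ P j s).card := by
  have h : i = j := Subsingleton.elim _ _
  rw [h]

/-- the symbols of `p` relative to `D` -/
noncomputable def sym (D : ℤ) (p : ℕ) : (SP D → ZMod 2) × ZMod 2 :=
  (fun q : SP D => nrp p q, ∑ r ∈ D.natAbs.primeFactors, nrp p r + xp1 p)

theorem adm_primes {D : ℤ} (hD : AdmD D) : ∀ r ∈ D.natAbs.primeFactors, r.Prime ∧ r ≠ 2 ∧ r ≠ 7 := by
  intro r hr
  have h1 := hD.2.2.2 r (Nat.prime_of_mem_primeFactors hr)
    (Int.natCast_dvd.2 (Nat.dvd_of_mem_primeFactors hr))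
  refine ⟨Nat.prime_of_mem_primeFactors hr, ?_, ?_⟩
  · rintro rfl
    rcases h1.2 with h | h
    · have := h.2.1; omega
    · have := h.2.1; omega
  · rintro rfl
    rcases h1.2 with h | h
    · have := h.2.2; omega
    · have := h.2.2; omega

open scoped Classical in
/-- averages over the split primes not dividing `D` -/
theorem avg_primes {D : ℤ} (hD : AdmD D) (f : (SP D → ZMod 2) × ZMod 2 → ℝ) (g : ℕ → ℝ)
    (hg : ∀ p, Spl p → p ∉ D.natAbs.primeFactors → g p = f (sym D p)) :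
    Tendsto (fun X : ℕ => (∑ p ∈ (range (X + 1)).filter fun p => Spl p ∧ p ∉ D.natAbs.primeFactors,
      g p) / (((range (X + 1)).filter fun p => Spl p).card : ℝ)) atTop (𝓝 (avg f)) := by
  have h1 : ∀ x : (SP D → ZMod 2) × ZMod 2,
      Tendsto (fun X : ℕ => (((range (X + 1)).filter fun p => Spl p ∧
        (p ∉ D.natAbs.primeFactors ∧ sym D p = x)).card : ℝ) /
        (((range (X + 1)).filter fun p => Spl p).card : ℝ)) atTop
        (𝓝 ((Fintype.card ((SP D → ZMod 2) × ZMod 2) : ℝ)⁻¹)) := by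
    intro x
    have h2 := gen_density D.natAbs.primeFactors (SP D) (Finset.filter_subset _ _) (adm_primes hD)
      (fun y => y = x) (fun p => p ∉ D.natAbs.primeFactors ∧ sym D p = x) (fun p _ hp =>
        ⟨fun h => h.2, fun h => ⟨hp, h⟩⟩)
    have h3 : Nat.card {y : (SP D → ZMod 2) × ZMod 2 // y = x} = 1 := by
      rw [Nat.card_eq_one_iff_unique]
      exact ⟨⟨fun a b => Subtype.ext (a.2.trans b.2.symm)⟩, ⟨⟨x, rfl⟩⟩⟩
    rw [h3, Nat.cast_one, one_div] at h2
    have h4 : Fintype.card ((SP D → ZMod 2) × ZMod 2) = 2 ^ (Fintype.card (SP D) + 1) := by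
      rw [← Nat.card_eq_fintype_card, card_pairs]
    rw [h4]
    push_cast
    exact h2.congr fun X => congrArg₂ (fun a b : ℕ => (a : ℝ) / (b : ℝ)) (card_filter_inst _ _) rfl
  have h2 := tendsto_finsetSum (univ : Finset ((SP D → ZMod 2) × ZMod 2)) fun x _ =>
    (h1 x).const_mul (f x)
  have h3 : ∑ x : (SP D → ZMod 2) × ZMod 2, f x *
      (Fintype.card ((SP D → ZMod 2) × ZMod 2) : ℝ)⁻¹ = avg f := by
    unfold avg
    rw [← Finset.sum_mul, div_eq_mul_inv]
  rw [h3] at h2
  refine h2.congr fun X => ?_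
  have h4 : ∀ x : (SP D → ZMod 2) × ZMod 2, f x * ((((range (X + 1)).filter fun p => Spl p ∧
        (p ∉ D.natAbs.primeFactors ∧ sym D p = x)).card : ℝ) /
        (((range (X + 1)).filter fun p => Spl p).card : ℝ)) =
      (∑ p ∈ ((range (X + 1)).filter fun p => Spl p ∧ p ∉ D.natAbs.primeFactors).filter
        (fun p => sym D p = x), g p) / (((range (X + 1)).filter fun p => Spl p).card : ℝ) := by
    intro x
    rw [← mul_div_assoc]
    congr 1
    rw [Finset.sum_congr rfl (g := fun _ => f x)]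
    · rw [Finset.sum_const, nsmul_eq_mul, mul_comm, Finset.filter_filter]
      congr 2
      refine congrArg Finset.card (Finset.ext fun p => ?_)
      rw [Finset.mem_filter, Finset.mem_filter, and_assoc]
    · intro p hp
      have h5 := Finset.mem_filter.1 hp
      have h6 := (Finset.mem_filter.1 h5.1).2
      rw [hg p h6.1 h6.2, h5.2]
  rw [Finset.sum_congr rfl fun x _ => h4 x, ← Finset.sum_div]
  congr 1
  exact Finset.sum_fiberwise_of_maps_to (fun p _ => Finset.mem_univ _) _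

section
variable {D : ℤ} {p : ℕ}

open Classical in
/-- the matrix of `D p` is the matrix of `D`, bordered -/
theorem matD_sub (h : AdmD D) (hp : Spl p) (hpD : p ∉ D.natAbs.primeFactors) :
    (matD (D * (p : ℤ))).submatrix (eqv h.1.ne_zero hp hpD) (eqv h.1.ne_zero hp hpD) =
      bord (matD D) (sym D p).1 (sym D p).2 := by
  have hD : D ≠ 0 := h.1.ne_zero
  haveI : Fact p.Prime := ⟨hp.1⟩
  have hrec : ∀ q : SP D, (IsSquare (p : ZMod (q : ℕ)) ↔ IsSquare ((q : ℕ) : ZMod p)) := by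
    intro q
    have hq := Finset.mem_filter.1 q.2
    haveI : Fact (q : ℕ).Prime := ⟨Nat.prime_of_mem_primeFactors hq.1⟩
    have h8 := hp.2.1
    have hq8 := hq.2
    exact (ZMod.exists_sq_eq_prime_iff_of_mod_four_eq_one (p := p) (q := (q : ℕ)) (by omega)
      (by omega)).symm
  have hpq : ∀ q : SP D, p ≠ (q : ℕ) := by
    intro q hq
    exact hpD (hq ▸ (Finset.mem_filter.1 q.2).1)
  ext i j
  rw [Matrix.submatrix_apply]
  unfold matD bord sym
  rw [Matrix.of_apply, pf_mul hD hp]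
  rcases i with i | i <;> rcases j with j | j
  · rw [Matrix.fromBlocks_apply₁₁, Matrix.add_apply, Matrix.of_apply, Matrix.diagonal_apply,
      eqv_inl, eqv_inl]
    by_cases hij : i = j
    · subst hij
      rw [if_pos rfl, if_pos rfl, if_pos rfl, Finset.card_filter, Finset.card_filter,
        Finset.sum_insert hpD]
      unfold nrp
      dsimp only
      by_cases hc : IsSquare ((i : ℕ) : ZMod p)
      · have hn : ¬ (p ≠ (i : ℕ) ∧ ¬ IsSquare (p : ZMod (i : ℕ))) := by
          rintro ⟨-, h2⟩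
          exact h2 ((hrec i).2 hc)
        rw [if_neg hn, if_pos hc, zero_add, add_zero]
      · have hn : p ≠ (i : ℕ) ∧ ¬ IsSquare (p : ZMod (i : ℕ)) :=
          ⟨hpq i, fun h2 => hc ((hrec i).1 h2)⟩
        rw [if_pos hn, if_neg hc]
        push_cast
        ring
    · rw [if_neg (fun h => hij (Sum.inl_injective ((eqv hD hp hpD).injective h))), if_neg hij,
        if_neg hij, add_zero]
  · rw [Matrix.fromBlocks_apply₁₂, Matrix.of_apply, eqv_inl, eqv_inr, if_neg]
    · show _ = nrp p i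
      unfold nrp
      by_cases hc : IsSquare ((i : ℕ) : ZMod p)
      · rw [if_pos hc, if_pos ((hrec i).2 hc)]
      · rw [if_neg hc, if_neg (fun h2 => hc ((hrec i).1 h2))]
    · intro h
      exact absurd ((eqv hD hp hpD).injective h) (by simp)
  · rw [Matrix.fromBlocks_apply₂₁, Matrix.of_apply, eqv_inl, eqv_inr, if_neg]
    · rfl
    · intro h
      exact absurd ((eqv hD hp hpD).injective h) (by simp)
  · rw [Matrix.fromBlocks_apply₂₂, Matrix.of_apply, eqv_inr, if_pos (by rfl), Finset.card_filter,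
      Finset.sum_insert hpD, if_neg (fun h => h.1 rfl), zero_add, ← xp1_eq hp]
    congr 1
    push_cast
    refine Finset.sum_congr rfl fun r hr => ?_
    have hrp : r ≠ p := by rintro rfl; exact hpD hr
    unfold nrp
    by_cases hc : IsSquare (r : ZMod p)
    · rw [if_pos hc, if_neg (fun h => h.2 hc)]
    · rw [if_neg hc, if_pos ⟨hrp, hc⟩]

end

open scoped Classical in
theorem prp_mul {D : ℤ} {p : ℕ} (h : AdmD D) (hp : Spl p) (hpD : p ∉ D.natAbs.primeFactors) (k : ℕ) :
    prp k (matD (D * (p : ℤ))) = prp k (bord (matD D) (sym D p).1 (sym D p).2) := by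
  rw [← matD_sub h hp hpD, prp_submatrix]

open scoped Classical in
/-- the average of the proportions over the primes -/
theorem prp_step {D : ℤ} (hD : AdmD D) (k : ℕ) :
    Tendsto (fun X : ℕ => (∑ p ∈ (range (X + 1)).filter fun p => Spl p ∧ p ∉ D.natAbs.primeFactors,
      prp k (matD (D * (p : ℤ)))) / (((range (X + 1)).filter fun p => Spl p).card : ℝ)) atTop
      (𝓝 (prp (k + 1) (matD D))) := by
  rw [prp_succ]
  exact avg_primes hD (fun x => prp k (bord (matD D) x.1 x.2)) _ fun p hp hpD => prp_mul hD hp hpD k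

/-- the matrix is symmetric -/
theorem matD_symm {D : ℤ} (hD : AdmD D) : (matD D).IsSymm := by
  classical
  ext i j
  rw [Matrix.transpose_apply]
  by_cases hij : i = j
  · rw [hij]
  unfold matD
  rw [Matrix.of_apply, Matrix.of_apply, if_neg hij, if_neg (Ne.symm hij)]
  have hi := Finset.mem_filter.1 i.2
  have hj := Finset.mem_filter.1 j.2
  haveI : Fact (i : ℕ).Prime := ⟨Nat.prime_of_mem_primeFactors hi.1⟩
  haveI : Fact (j : ℕ).Prime := ⟨Nat.prime_of_mem_primeFactors hj.1⟩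
  have h := ZMod.exists_sq_eq_prime_iff_of_mod_four_eq_one (p := (i : ℕ)) (q := (j : ℕ))
    (by have := hi.2; omega) (by have := hj.2; omega)
  by_cases hc : IsSquare (((j : ℕ)) : ZMod (i : ℕ))
  · rw [if_pos hc, if_pos (h.1 hc)]
  · rw [if_neg hc, if_neg (fun h2 => hc (h.2 h2))]

end Pool.Agent.Q1.PT
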