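import Pool.Agent.Q1.PT.Cmp

/-!
# Theorem J with a rate
-/

set_option autoImplicit false

namespace Pool.Agent.Q1.PT

open Finset Module Filter Topology
open Pool.Agent.Y697.PP (Sy Nd YY mem_YY)
open Pool.Agent.Y697.PQ
open Pool.Agent.Y703.CQ (c2)

open Classical in
/-- the statement of Theorem J -/
def HJ (M R : ℕ) (ε : ℝ) : Prop := ∀ (V : Type) [AddCommGroup V]
    [Module (ZMod 2) V] [Fintype V] (W : Submodule (ZMod 2) V)
    (B : Fin M → LinearMap.BilinForm (ZMod 2) V) (d t : ℕ),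
    (∀ k, Sy (B k)) → (∀ k, Nd (B k) W) →
    (∀ k l, k ≠ l → finrank (ZMod 2) (JJ (B k) (B l) W) ≤ d) → finrank (ZMod 2) W ≤ d →
    finrank (ZMod 2) W + t = finrank (ZMod 2) V → d + R ≤ t →
    |(((YY W).filter fun Y => ∀ k, Nd (B k + Y) ⊤).card : ℝ) - gi ^ M * (YY W).card| ≤
      ε * (YY W).card

open Classical in
/-- the induction step of Theorem J -/
theorem HJ_succ {M R₁ R₂ n₀ J : ℕ} {ε η : ℝ} (hε : 0 < ε) (hJ : J = 2 * n₀ + 1)
    (hη : η = ε / (3 * (J + 2))) (hR₁ : HJ M R₁ η)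
    (hn₀ : ∀ n, n₀ ≤ n → |∑ i ∈ range n, (-1) ^ i * ff i - gi| ≤ ε / 3)
    (hR₂ : ((M : ℝ) + 1) * 2 ^ (J + 1) * (J + 2) * 3 / ε < 2 ^ R₂) :
    HJ (M + 1) (R₁ + R₂ + 2 * (J + 1)) ε := by
  have hη0 : 0 < η := by rw [hη]; positivity
  intro V _ _ _ W B d t hSy hNd hJJ hWd ht hR
  have hfin : Module.Finite (ZMod 2) V := Module.Finite.of_finite
  obtain ⟨G, hG⟩ : ∃ G : LinearMap.BilinForm (ZMod 2) V → Prop,
      ∀ Y, G Y ↔ ∀ k : Fin M, Nd (B k.succ + Y) ⊤ := ⟨_, fun _ => Iff.rfl⟩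
  set N : ℝ := ((YY W).card : ℝ) with hNdef
  have hN0 : 0 ≤ N := Nat.cast_nonneg _
  -- the exceptional set
  set Z : Finset V := (univ.filter fun x => x ∈ W) ∪
    (univ : Finset (Fin M)).biUnion fun k =>
      (univ.filter fun p : V × V => p ∈ JJ (B 0) (B k.succ) W).image Prod.fst with hZ
  have hcard : ∀ (E : Type) [AddCommGroup E] [Module (ZMod 2) E] [Fintype E]
      (S : Submodule (ZMod 2) E), (univ.filter fun x => x ∈ S).card = 2 ^ finrank (ZMod 2) S := by
    intro E _ _ _ S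
    have hfinE : Module.Finite (ZMod 2) E := Module.Finite.of_finite
    have h1 : (univ.filter fun x => x ∈ S).card = Nat.card S := by
      rw [Nat.card_eq_fintype_card, ← Fintype.card_coe]
      exact Fintype.card_congr (Equiv.subtypeEquivRight fun x => by simp)
    rw [h1, Module.natCard_eq_pow_finrank (K := ZMod 2), Nat.card_zmod]
  have hZc : Z.card ≤ (M + 1) * 2 ^ d := by
    have h1 : (univ.filter fun x => x ∈ W).card ≤ 2 ^ d := by
      rw [hcard V W]
      exact Nat.pow_le_pow_right (by norm_num) hWd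
    have h2 : ((univ : Finset (Fin M)).biUnion fun k =>
        (univ.filter fun p : V × V => p ∈ JJ (B 0) (B k.succ) W).image Prod.fst).card ≤
        M * 2 ^ d := by
      refine Finset.card_biUnion_le.trans ?_
      have h3 : ∀ k ∈ (univ : Finset (Fin M)), ((univ.filter fun p : V × V =>
          p ∈ JJ (B 0) (B k.succ) W).image Prod.fst).card ≤ 2 ^ d := by
        intro k _
        refine Finset.card_image_le.trans ?_
        rw [hcard (V × V) (JJ (B 0) (B k.succ) W)]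
        exact Nat.pow_le_pow_right (by norm_num) (hJJ 0 k.succ (Fin.succ_ne_zero k).symm)
      refine (Finset.sum_le_sum h3).trans (le_of_eq ?_)
      rw [Finset.sum_const, Finset.card_univ, Fintype.card_fin, smul_eq_mul]
    refine (Finset.card_union_le _ _).trans ?_
    rw [add_mul, one_mul]
    omega
  set δ : ℝ := η + Z.card * 2 ^ (J + 1) / 2 ^ t with hδ
  have hδ0 : 0 ≤ δ := by positivity
  -- the estimate
  have hest : ∀ j ≤ J + 1, |∑ Y ∈ (YY W).filter G,
      ij j (2 ^ finrank (ZMod 2) (LinearMap.ker (B 0 + Y))) -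
      gi ^ M * 2 ^ (j * (j - 1) / 2) * N| ≤ 2 ^ (j * (j - 1) / 2) * N * δ := by
    intro j hj
    have hgi0 : 0 ≤ gi := le_trans (by norm_num) gi_ge
    have h1 := est (hSy 0) (hNd 0) ht G (γ := gi ^ M) (ε := η) (pow_nonneg hgi0 M)
      (pow_le_one₀ hgi0 gi_le) hη0.le (j := j) (by omega) Z
      (fun w hw => Finset.mem_union_left _ (Finset.mem_filter.2 ⟨Finset.mem_univ _, hw⟩)) ?_
    · refine h1.trans ?_
      apply mul_le_mul_of_nonneg_left _ (by positivity)
      rw [hδ]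
      have h2 : (2 : ℝ) ^ j ≤ 2 ^ (J + 1) := pow_le_pow_right₀ (by norm_num) hj
      gcongr
    · intro v hvN hLI hvZ hd Y₀ hY₀ hY₀U
      have hY' := mem_YY.1 hY₀
      have hUW : ∀ u ∈ Submodule.span (ZMod 2) (Set.range v), ∀ w ∈ W, B 0 u w = 0 := by
        intro u hu
        have : Submodule.span (ZMod 2) (Set.range v) ≤ Nn (B 0) W := by
          rw [Submodule.span_le]
          rintro x ⟨i, rfl⟩
          exact hvN i
        exact mem_Nn.1 (this hu)
      have hfr := finrank_sup_span hLI hd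
      have h2 := hR₁ V (W ⊔ Submodule.span (ZMod 2) (Set.range v))
        (fun k => B k.succ + Y₀) (d + j) (t - j)
        (fun k => (hSy k.succ).add hY'.1) (fun k => ?_) (fun k l hkl => ?_) (by omega) (by omega)
        (by omega)
      · have h3 : ((YY (W ⊔ Submodule.span (ZMod 2) (Set.range v))).filter
            fun Y => G (Y₀ + Y)) =
            (YY (W ⊔ Submodule.span (ZMod 2) (Set.range v))).filter
            fun Y => ∀ k : Fin M, Nd (B k.succ + Y₀ + Y) ⊤ := by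
          ext Y
          simp only [Finset.mem_filter, hG, add_assoc]
        rw [h3]
        exact h2
      · refine nd_JJ (hNd k.succ) hY₀ hY₀U hUW ?_
        intro u hu hu0 b hb
        obtain ⟨c, rfl⟩ := (Submodule.mem_span_range_iff_exists_fun (ZMod 2)).1 hu
        refine hvZ c (fun hc => hu0 (by rw [hc]; simp)) ?_
        rw [hZ]
        refine Finset.mem_union_right _ (Finset.mem_biUnion.2 ⟨k, Finset.mem_univ _, ?_⟩)
        exact Finset.mem_image.2 ⟨_, Finset.mem_filter.2 ⟨Finset.mem_univ _, hb⟩, rfl⟩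
      · have h3 := finrank_JJ (B := B k.succ) (B' := B l.succ) hY₀ v
        have h4 := hJJ k.succ l.succ (fun h => hkl (Fin.succ_injective _ h))
        omega
  have hδ' : (J + 2) * δ ≤ 2 * ε / 3 := by
    have h1 : ((J : ℝ) + 2) * η = ε / 3 := by
      rw [hη]
      field_simp
    have h2 : (Z.card : ℝ) * 2 ^ (J + 1) / 2 ^ t ≤ (M + 1) * 2 ^ (J + 1) / 2 ^ R₂ := by
      rw [div_le_div_iff₀ (by positivity) (by positivity)]
      have h3 : (Z.card : ℝ) ≤ (M + 1) * 2 ^ d := by exact_mod_cast hZc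
      have h4 : (2 : ℝ) ^ d * 2 ^ R₂ ≤ 2 ^ t := by
        rw [← pow_add]
        exact pow_le_pow_right₀ (by norm_num) (by omega)
      calc (Z.card : ℝ) * 2 ^ (J + 1) * 2 ^ R₂ ≤ (M + 1) * 2 ^ d * 2 ^ (J + 1) * 2 ^ R₂ := by
            gcongr
        _ = (M + 1) * 2 ^ (J + 1) * (2 ^ d * 2 ^ R₂) := by ring
        _ ≤ _ := by gcongr
    have h3 : ((J : ℝ) + 2) * ((M + 1) * 2 ^ (J + 1) / 2 ^ R₂) ≤ ε / 3 := by
      rw [← mul_div_assoc, div_le_div_iff₀ (by positivity) (by norm_num)]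
      rw [div_lt_iff₀ hε] at hR₂
      nlinarith
    have h4 : ((J : ℝ) + 2) * δ = (J + 2) * η + (J + 2) * (Z.card * 2 ^ (J + 1) / 2 ^ t) := by
      rw [hδ]
      ring
    have h5 : ((J : ℝ) + 2) * (Z.card * 2 ^ (J + 1) / 2 ^ t) ≤ ε / 3 :=
      (mul_le_mul_of_nonneg_left h2 (by positivity)).trans h3
    rw [h4, h1]
    linarith
  -- the count
  have hcnt : (((YY W).filter fun Y => ∀ k, Nd (B k + Y) ⊤).card : ℝ) =
      ∑ Y ∈ (YY W).filter G,
        (if finrank (ZMod 2) (LinearMap.ker (B 0 + Y)) = 0 then (1 : ℝ) else 0) := by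
    rw [← Finset.sum_filter, Finset.sum_const, nsmul_eq_mul, mul_one, Finset.filter_filter]
    congr 2
    ext Y
    simp only [Finset.mem_filter, hG]
    rw [Fin.forall_fin_succ, Pool.Agent.Y697.PQ.nd_top, and_comm (a := finrank (ZMod 2) _ = 0)]
  have hsum := hn₀
  have hgi0 : 0 ≤ gi := le_trans (by norm_num) gi_ge
  have hgM : gi ^ M ≤ 1 := pow_le_one₀ hgi0 gi_le
  have hgM0 : 0 ≤ gi ^ M := pow_nonneg hgi0 M
  have hmain : ∀ I, I ≤ J + 1 → n₀ ≤ I + 1 →
      |∑ Y ∈ (YY W).filter G, pp I (2 ^ finrank (ZMod 2) (LinearMap.ker (B 0 + Y))) -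
        gi ^ (M + 1) * N| ≤ ε * N := by
    intro I hI hI'
    have h1 := sum_pp (γ := gi ^ M) (N := N) (δ := δ) hN0 (J := I)
      (fun j hj => hest j (by omega)) hδ0
    have h2 := hsum (I + 1) hI'
    have h3 : |gi ^ M * (∑ j ∈ range (I + 1), (-1) ^ j * ff j) * N - gi ^ (M + 1) * N| ≤
        ε / 3 * N := by
      have h4 : gi ^ M * (∑ j ∈ range (I + 1), (-1) ^ j * ff j) * N - gi ^ (M + 1) * N =
          gi ^ M * ((∑ j ∈ range (I + 1), (-1) ^ j * ff j) - gi) * N := by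
        rw [pow_succ]
        ring
      rw [h4, abs_mul, abs_mul, abs_of_nonneg hN0, abs_of_nonneg hgM0]
      apply mul_le_mul_of_nonneg_right _ hN0
      calc gi ^ M * |(∑ j ∈ range (I + 1), (-1) ^ j * ff j) - gi| ≤ 1 * (ε / 3) :=
            mul_le_mul hgM h2 (abs_nonneg _) zero_le_one
        _ = _ := one_mul _
    have h5 : N * (((I : ℝ) + 1) * δ) ≤ N * (2 * ε / 3) := by
      apply mul_le_mul_of_nonneg_left _ hN0
      refine le_trans ?_ hδ'
      apply mul_le_mul_of_nonneg_right _ hδ0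
      have : (I : ℝ) ≤ J + 1 := by exact_mod_cast hI
      linarith
    have h6 := abs_sub_le
      (∑ Y ∈ (YY W).filter G, pp I (2 ^ finrank (ZMod 2) (LinearMap.ker (B 0 + Y))))
      (gi ^ M * (∑ j ∈ range (I + 1), (-1) ^ j * ff j) * N) (gi ^ (M + 1) * N)
    have h7 := h1.trans h5
    linarith
  have hlo := hmain J (by omega) (by omega)
  have hhi := hmain (J + 1) le_rfl (by omega)
  have hJo : Odd J := ⟨n₀, hJ⟩
  have hJe : Even (J + 1) := hJo.add_one
  have h1 : ∑ Y ∈ (YY W).filter G, pp J (2 ^ finrank (ZMod 2) (LinearMap.ker (B 0 + Y))) ≤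
      ∑ Y ∈ (YY W).filter G,
        (if finrank (ZMod 2) (LinearMap.ker (B 0 + Y)) = 0 then (1 : ℝ) else 0) :=
    Finset.sum_le_sum fun Y _ => pp_odd hJo _
  have h2 : ∑ Y ∈ (YY W).filter G,
        (if finrank (ZMod 2) (LinearMap.ker (B 0 + Y)) = 0 then (1 : ℝ) else 0) ≤
      ∑ Y ∈ (YY W).filter G, pp (J + 1) (2 ^ finrank (ZMod 2) (LinearMap.ker (B 0 + Y))) :=
    Finset.sum_le_sum fun Y _ => pp_even hJe _
  rw [hcnt]
  rw [abs_le] at hlo hhi ⊢
  constructor <;> linarith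


theorem HJ_mono {M R R' : ℕ} {ε ε' : ℝ} (h : HJ M R ε) (hR : R ≤ R') (hε : ε ≤ ε') : HJ M R' ε' := by
  intro V _ _ _ W B d t h1 h2 h3 h4 h5 h6
  exact (h V W B d t h1 h2 h3 h4 h5 (by omega)).trans
    (mul_le_mul_of_nonneg_right hε (Nat.cast_nonneg _))

theorem gi_tail (n : ℕ) : |∑ i ∈ range n, (-1) ^ i * ff i - gi| ≤ ff n := by
  rcases Nat.even_or_odd' n with ⟨k, rfl | rfl⟩
  · have h1 := ff_anti.alternating_series_le_tendsto gi_tendsto k
    have h2 := ff_anti.tendsto_le_alternating_series gi_tendsto k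
    rw [Finset.sum_range_succ, pow_mul, neg_one_sq, one_pow, one_mul] at h2
    rw [abs_le]
    constructor
    · linarith
    · have := ff_pos (2 * k)
      linarith
  · have h1 := ff_anti.tendsto_le_alternating_series gi_tendsto k
    have h2 := ff_anti.alternating_series_le_tendsto gi_tendsto (k + 1)
    rw [show 2 * (k + 1) = 2 * k + 1 + 1 by ring, Finset.sum_range_succ _ (2 * k + 1), pow_succ (-1 : ℝ) (2 * k),
      pow_mul, neg_one_sq, one_pow, one_mul] at h2
    rw [abs_le]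
    constructor
    · have := ff_pos (2 * k + 1)
      linarith
    · linarith

open Classical in
/-- **Theorem J with a rate** -/
theorem effJ (M : ℕ) : ∃ a : ℕ, ∀ s : ℕ, HJ M (a * (s + 1)) ((1 / 2) ^ s) := by
  induction M with
  | zero =>
    refine ⟨0, fun s => ?_⟩
    intro V _ _ _ W B d t _ _ _ _ _ _
    have h1 : ((YY W).filter fun Y => ∀ k : Fin 0, Nd (B k + Y) ⊤) = YY W :=
      Finset.filter_true_of_mem fun Y _ k => k.elim0
    rw [h1, pow_zero, one_mul, sub_self, abs_zero]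
    positivity
  | succ M ih =>
    obtain ⟨a, ha⟩ := ih
    refine ⟨7 * a + M + 43, fun s => ?_⟩
    have hs : ∀ s : ℕ, 12 * s + 39 ≤ 2 ^ (s + 6) := by
      intro s
      induction s with
      | zero => norm_num
      | succ s ih =>
        have : 2 ^ (s + 1 + 6) = 2 * 2 ^ (s + 6) := by ring
        omega
    have hM : ∀ M : ℕ, M + 1 ≤ 2 ^ M := by
      intro M
      exact Nat.lt_two_pow_self
    have e1 : ((3 * (((4 * s + 11 : ℕ) : ℝ) + 2))) ≤ 2 ^ (s + 6) := by
      have h1 := hs s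
      have h2 : ((12 * s + 39 : ℕ) : ℝ) ≤ ((2 ^ (s + 6) : ℕ) : ℝ) := by exact_mod_cast h1
      push_cast at h2 ⊢
      linarith
    have h := HJ_succ (M := M) (R₁ := a * (2 * s + 6 + 1)) (R₂ := M + 6 * s + 19) (n₀ := 2 * s + 5)
      (J := 4 * s + 11) (ε := (1 / 2) ^ s) (by positivity) (by ring) rfl
      (HJ_mono (ha (2 * s + 6)) le_rfl ?_) ?_ ?_
    · refine HJ_mono h ?_ le_rfl
      have e2 : a * (2 * s + 6 + 1) ≤ 7 * a * (s + 1) := by nlinarith
      nlinarith
    · rw [le_div_iff₀ (by positivity)]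
      have e2 : (1 / 2 : ℝ) ^ (2 * s + 6) * 2 ^ (s + 6) = (1 / 2) ^ s := by
        rw [show 2 * s + 6 = s + (s + 6) by ring, pow_add, mul_assoc, ← mul_pow]
        norm_num
      rw [← e2]
      exact mul_le_mul_of_nonneg_left e1 (by positivity)
    · intro n hn
      refine (gi_tail n).trans ?_
      have h1 : ff n ≤ ff (2 * (s + 2) + 1) := ff_anti (by omega)
      have h2 := ff_le (2 * (s + 2))
      have h3 : (2 / 3 : ℝ) ^ (2 * (s + 2)) ≤ (1 / 2) ^ (s + 2) := by
        rw [pow_mul]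
        exact pow_le_pow_left₀ (by norm_num) (by norm_num) _
      have h4 : (1 / 2 : ℝ) ^ (s + 2) = (1 / 2) ^ s / 4 := by
        rw [pow_add]
        ring
      have h5 : (0 : ℝ) < (1 / 2) ^ s := by positivity
      linarith
    · rw [div_lt_iff₀ (by positivity)]
      have h1 : ((M : ℝ) + 1) ≤ 2 ^ M := by exact_mod_cast hM M
      have h3 : (2 : ℝ) ^ (M + 6 * s + 19) * (1 / 2) ^ s = 2 * (2 ^ M * 2 ^ (4 * s + 11 + 1) * 2 ^ (s + 6)) := by
        rw [show M + 6 * s + 19 = 1 + M + (4 * s + 11 + 1) + (s + 6) + s by ring, pow_add _ _ s, mul_assoc,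
          ← mul_pow]
        norm_num
        ring
      rw [h3]
      have h4 : ((M : ℝ) + 1) * 2 ^ (4 * s + 11 + 1) * (((4 * s + 11 : ℕ) : ℝ) + 2) * 3 ≤
          2 ^ M * 2 ^ (4 * s + 11 + 1) * 2 ^ (s + 6) := by
        calc ((M : ℝ) + 1) * 2 ^ (4 * s + 11 + 1) * (((4 * s + 11 : ℕ) : ℝ) + 2) * 3 =
            ((M : ℝ) + 1) * 2 ^ (4 * s + 11 + 1) * (3 * (((4 * s + 11 : ℕ) : ℝ) + 2)) := by ring
          _ ≤ _ := by gcongr
      have h5 : (0 : ℝ) < 2 ^ M * 2 ^ (4 * s + 11 + 1) * 2 ^ (s + 6) := by positivity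
      linarith

open Classical in
/-- **the law of the completions with a rate** -/
theorem law_eff (m : ℕ) : ∃ a : ℕ, ∀ s : ℕ, ∀ (n : Type) [Fintype n] [DecidableEq n] (l : ℕ)
    (K : Finset (Fin l)) (B : Fin m → LinearMap.BilinForm (ZMod 2) (VV n l)) (d : ℕ),
    (∀ k, Sy (B k)) → (∀ k, Nd (B k) (WK n K)) →
    (∀ k k', k ≠ k' → finrank (ZMod 2) (JJ (B k) (B k') (WK n K)) ≤ d) →
    Fintype.card n + l ≤ d + K.card → d + a * (s + 1) ≤ K.card →
    |(avg fun h : Om n l => if (∀ k, Nd (B k + BF 0 (rho n K h)) ⊤) then (1 : ℝ) else 0) - c2 ^ m| ≤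
      (1 / 2) ^ s := by
  obtain ⟨a, ha⟩ := effJ m
  refine ⟨a, fun s => ?_⟩
  have hR := ha s
  intro n _ _ l K B d hS hN hJ hd hdR
  have e1 := finrank_WK (n := n) K
  have e2 : finrank (ZMod 2) (VV n l) = Fintype.card n + l := finrank_VV
  have key := hR (VV n l) (WK n K) B d K.card hS hN hJ (by omega) e1 hdR
  have hpos : 0 < ((YY (WK n K)).card : ℝ) := by
    rw [Nat.cast_pos, Finset.card_pos]
    exact ⟨0, mem_YY.2 ⟨fun _ _ => rfl, fun _ _ => rfl⟩⟩
  have h9 : (avg fun h : Om n l => if (∀ k, Nd (B k + BF 0 (rho n K h)) ⊤) then (1 : ℝ) else 0) =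
      (((YY (WK n K)).filter fun Y => ∀ k, Nd (B k + Y) ⊤).card : ℝ) /
      ((YY (WK n K)).card : ℝ) := by
    have h8 := avg_YK (n := n) K fun Y => ∀ k, Nd (B k + Y) ⊤
    refine Eq.trans ?_ (h8.trans ?_)
    · congr 1
      funext h
      exact ite_inst _ _ _ _
    · rw [card_filter_inst']
  rw [h9, ← Pool.Agent.Y697.CJ.gi_eq, div_sub' hpos.ne', abs_div,
    abs_of_pos hpos, div_le_iff₀ hpos, mul_comm _ (gi ^ m)]
  exact key

end Pool.Agent.Q1.PT
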