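import Pool.Agent.Q1.PT.Tree
import Pool.Agent.Y697.PQ.Jt

/-!
# The bilinear forms of the chain of borderings, and their completions
-/

set_option autoImplicit false

namespace Pool.Agent.Q1.PT

open Finset Module
open Pool.Agent.Y697.PP (Sy Nd YY mem_YY)
open Pool.Agent.Y697.PQ (JJ mem_JJ thmJ gi)

/-- the space -/
abbrev VV (n : Type) (l : ℕ) : Type := (n → ZMod 2) × (Fin l → ZMod 2)

section
variable {n : Type} [Fintype n] {l : ℕ}

/-- the first rows -/
def r1 (M : Matrix n n (ZMod 2)) (ω : Om n l) (z : VV n l) (u : n) : ZMod 2 :=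
  ∑ v, M u v * z.1 v + ∑ i, ω.1 i u * (z.2 i + z.1 u)

/-- the second rows -/
def r2 (ω : Om n l) (z : VV n l) (i : Fin l) : ZMod 2 :=
  ∑ u, ω.1 i u * (z.1 u + z.2 i) + ∑ i', sy ω.2.2 i i' * (z.2 i' + z.2 i) + ω.2.1 i * z.2 i

theorem r1_add (M : Matrix n n (ZMod 2)) (ω : Om n l) (z w : VV n l) (u : n) :
    r1 M ω (z + w) u = r1 M ω z u + r1 M ω w u := by
  unfold r1
  simp only [Prod.fst_add, Prod.snd_add, Pi.add_apply, mul_add, Finset.sum_add_distrib]
  ring

theorem r1_smul (M : Matrix n n (ZMod 2)) (ω : Om n l) (c : ZMod 2) (z : VV n l) (u : n) :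
    r1 M ω (c • z) u = c * r1 M ω z u := by
  unfold r1
  simp only [Prod.smul_fst, Prod.smul_snd, Pi.smul_apply, smul_eq_mul, Finset.mul_sum, mul_add]
  congr 1
  · exact Finset.sum_congr rfl fun v _ => by ring
  · exact Finset.sum_congr rfl fun v _ => by ring

theorem r2_add (ω : Om n l) (z w : VV n l) (i : Fin l) :
    r2 ω (z + w) i = r2 ω z i + r2 ω w i := by
  unfold r2
  simp only [Prod.fst_add, Prod.snd_add, Pi.add_apply, mul_add, Finset.sum_add_distrib]
  ring

theorem r2_smul (ω : Om n l) (c : ZMod 2) (z : VV n l) (i : Fin l) :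
    r2 ω (c • z) i = c * r2 ω z i := by
  unfold r2
  simp only [Prod.smul_fst, Prod.smul_snd, Pi.smul_apply, smul_eq_mul, Finset.mul_sum, mul_add]
  congr 1
  · congr 1
    · exact Finset.sum_congr rfl fun v _ => by ring
    · exact Finset.sum_congr rfl fun v _ => by ring
  · ring

/-- the form -/
def BF (M : Matrix n n (ZMod 2)) (ω : Om n l) : LinearMap.BilinForm (ZMod 2) (VV n l) :=
  LinearMap.mk₂ (ZMod 2) (fun z z' => ∑ u, r1 M ω z u * z'.1 u + ∑ i, r2 ω z i * z'.2 i)
    (fun z w z' => by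
      simp only [r1_add, r2_add, add_mul, Finset.sum_add_distrib]
      ring)
    (fun c z z' => by
      simp only [r1_smul, r2_smul, smul_eq_mul, mul_add, Finset.mul_sum, mul_assoc])
    (fun z w z' => by
      simp only [Prod.fst_add, Prod.snd_add, Pi.add_apply, mul_add, Finset.sum_add_distrib]
      ring)
    (fun c z z' => by
      simp only [Prod.smul_fst, Prod.smul_snd, Pi.smul_apply, smul_eq_mul, mul_add, Finset.mul_sum]
      congr 1
      · exact Finset.sum_congr rfl fun v _ => by ring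
      · exact Finset.sum_congr rfl fun v _ => by ring)

theorem BF_apply (M : Matrix n n (ZMod 2)) (ω : Om n l) (z z' : VV n l) :
    BF M ω z z' = ∑ u, r1 M ω z u * z'.1 u + ∑ i, r2 ω z i * z'.2 i := rfl

theorem sy_symm (a : Fin l → Fin l → ZMod 2) (i i' : Fin l) (h : i ≠ i') : sy a i i' = sy a i' i := by
  unfold sy
  rcases lt_or_gt_of_ne h with h1 | h1
  · rw [if_pos h1, if_neg h1.not_gt]
  · rw [if_neg h1.not_gt, if_pos h1]

theorem sy_symm' (a : Fin l → Fin l → ZMod 2) (i i' : Fin l) : sy a i i' = sy a i' i := by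
  by_cases h : i = i'
  · rw [h]
  · exact sy_symm a i i' h

theorem BF_symm {M : Matrix n n (ZMod 2)} (hM : M.IsSymm) (ω : Om n l) : Sy (BF M ω) := by
  intro z z'
  rw [BF_apply, BF_apply]
  have key : ∀ z z' : VV n l, ∑ u, r1 M ω z u * z'.1 u + ∑ i, r2 ω z i * z'.2 i =
      ∑ u, ∑ v, M u v * (z.1 v * z'.1 u) +
      ∑ i, ∑ u, ω.1 i u * ((z.2 i + z.1 u) * (z'.2 i + z'.1 u)) +
      ∑ i, ∑ i', sy ω.2.2 i i' * (z.2 i' * z'.2 i) + ∑ i, ∑ i', sy ω.2.2 i i' * (z.2 i * z'.2 i) +
      ∑ i, ω.2.1 i * (z.2 i * z'.2 i) := by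
    intro z z'
    have e1 : ∑ u, r1 M ω z u * z'.1 u = ∑ u, ∑ v, M u v * (z.1 v * z'.1 u) +
        ∑ i, ∑ u, ω.1 i u * ((z.2 i + z.1 u) * z'.1 u) := by
      rw [Finset.sum_comm (s := (univ : Finset (Fin l)))]
      rw [← Finset.sum_add_distrib]
      refine Finset.sum_congr rfl fun u _ => ?_
      unfold r1
      rw [add_mul, Finset.sum_mul, Finset.sum_mul]
      congr 1
      · exact Finset.sum_congr rfl fun v _ => by ring
      · exact Finset.sum_congr rfl fun v _ => by ring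
    have e2 : ∑ i, r2 ω z i * z'.2 i = ∑ i, ∑ u, ω.1 i u * ((z.2 i + z.1 u) * z'.2 i) +
        ∑ i, ∑ i', sy ω.2.2 i i' * (z.2 i' * z'.2 i) + ∑ i, ∑ i', sy ω.2.2 i i' * (z.2 i * z'.2 i) +
        ∑ i, ω.2.1 i * (z.2 i * z'.2 i) := by
      rw [← Finset.sum_add_distrib, ← Finset.sum_add_distrib, ← Finset.sum_add_distrib]
      refine Finset.sum_congr rfl fun i _ => ?_
      unfold r2
      rw [add_mul, add_mul, Finset.sum_mul, Finset.sum_mul, add_assoc
        (∑ u, ω.1 i u * ((z.2 i + z.1 u) * z'.2 i)), ← Finset.sum_add_distrib]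
      congr 1
      · congr 1
        · exact Finset.sum_congr rfl fun v _ => by ring
        · exact Finset.sum_congr rfl fun v _ => by ring
      · ring
    rw [e1, e2]
    have e3 : ∑ i, ∑ u, ω.1 i u * ((z.2 i + z.1 u) * (z'.2 i + z'.1 u)) =
        ∑ i, ∑ u, ω.1 i u * ((z.2 i + z.1 u) * z'.1 u) +
        ∑ i, ∑ u, ω.1 i u * ((z.2 i + z.1 u) * z'.2 i) := by
      rw [← Finset.sum_add_distrib]
      refine Finset.sum_congr rfl fun i _ => ?_
      rw [← Finset.sum_add_distrib]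
      exact Finset.sum_congr rfl fun v _ => by ring
    rw [e3]
    ring
  rw [key z z', key z' z]
  have f1 : ∑ u, ∑ v, M u v * (z.1 v * z'.1 u) = ∑ u, ∑ v, M u v * (z'.1 v * z.1 u) := by
    rw [Finset.sum_comm]
    refine Finset.sum_congr rfl fun u _ => Finset.sum_congr rfl fun v _ => ?_
    have := hM.apply u v
    rw [this]
    ring
  have f2 : ∑ i, ∑ i', sy ω.2.2 i i' * (z.2 i' * z'.2 i) =
      ∑ i, ∑ i', sy ω.2.2 i i' * (z'.2 i' * z.2 i) := by
    rw [Finset.sum_comm]
    refine Finset.sum_congr rfl fun u _ => Finset.sum_congr rfl fun v _ => ?_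
    rw [sy_symm']
    ring
  rw [f1, f2]
  congr 1
  · congr 1
    · congr 1
      congr 1
      exact Finset.sum_congr rfl fun i _ => Finset.sum_congr rfl fun u _ => by ring
    · exact Finset.sum_congr rfl fun i _ => Finset.sum_congr rfl fun u _ => by ring
  · exact Finset.sum_congr rfl fun i _ => by ring

theorem BF_row1 [DecidableEq n] (M : Matrix n n (ZMod 2)) (ω : Om n l) (z : VV n l) (u : n) :
    BF M ω z (Pi.single u 1, 0) = r1 M ω z u := by
  rw [BF_apply]
  simp [Pi.single_apply]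

theorem BF_row2 (M : Matrix n n (ZMod 2)) (ω : Om n l) (z : VV n l) (i : Fin l) :
    BF M ω z (0, Pi.single i 1) = r2 ω z i := by
  rw [BF_apply]
  simp [Pi.single_apply]

theorem BF_zero_iff [DecidableEq n] (M : Matrix n n (ZMod 2)) (ω : Om n l) (z : VV n l) :
    BF M ω z = 0 ↔ (∀ u, r1 M ω z u = 0) ∧ ∀ i, r2 ω z i = 0 := by
  constructor
  · intro h
    refine ⟨fun u => ?_, fun i => ?_⟩
    · rw [← BF_row1, h, LinearMap.zero_apply]
    · rw [← BF_row2 M, h, LinearMap.zero_apply]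
  · rintro ⟨h1, h2⟩
    refine LinearMap.ext fun z' => ?_
    rw [BF_apply, LinearMap.zero_apply]
    simp only [h1, h2, zero_mul, Finset.sum_const_zero, add_zero]

theorem nd_top [DecidableEq n] (M : Matrix n n (ZMod 2)) (ω : Om n l) :
    Nd (BF M ω) ⊤ ↔ Nf M ω.1 ω.2.1 ω.2.2 := by
  constructor
  · intro h x y h1 h2
    have h3 := h (x, y) trivial ((BF_zero_iff M ω (x, y)).2 ⟨h1, h2⟩)
    exact ⟨congrArg Prod.fst h3, congrArg Prod.snd h3⟩
  · rintro h ⟨x, y⟩ - h1
    obtain ⟨h2, h3⟩ := (BF_zero_iff M ω (x, y)).1 h1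
    obtain ⟨h4, h5⟩ := h x y h2 h3
    exact Prod.ext h4 h5

theorem sy_add (a b : Fin l → Fin l → ZMod 2) (i i' : Fin l) : sy (a + b) i i' = sy a i i' + sy b i i' := by
  unfold sy
  split_ifs <;> rfl

theorem BF_add (M : Matrix n n (ZMod 2)) (ω h : Om n l) : BF M (ω + h) = BF M ω + BF 0 h := by
  refine LinearMap.ext fun z => LinearMap.ext fun z' => ?_
  rw [LinearMap.add_apply, LinearMap.add_apply, BF_apply, BF_apply, BF_apply]
  have e1 : ∀ u, r1 M (ω + h) z u = r1 M ω z u + r1 0 h z u := by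
    intro u
    unfold r1
    simp only [Prod.fst_add, Pi.add_apply, add_mul, Finset.sum_add_distrib, Matrix.zero_apply,
      zero_mul, Finset.sum_const_zero]
    ring
  have e2 : ∀ i, r2 (ω + h) z i = r2 ω z i + r2 h z i := by
    intro i
    unfold r2
    simp only [Prod.fst_add, Prod.snd_add, Pi.add_apply, add_mul, Finset.sum_add_distrib, sy_add]
    ring
  simp only [e1, e2, add_mul, Finset.sum_add_distrib]
  ring

/-- the vectors which vanish on `K` -/
def WK (n : Type) {l : ℕ} (K : Finset (Fin l)) : Submodule (ZMod 2) (VV n l) where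
  carrier := {z | ∀ i ∈ K, z.2 i = 0}
  add_mem' := by
    intro z w hz hw i hi
    rw [Prod.snd_add, Pi.add_apply, hz i hi, hw i hi, add_zero]
  zero_mem' := fun _ _ => rfl
  smul_mem' := by
    intro c z hz i hi
    rw [Prod.smul_snd, Pi.smul_apply, hz i hi, smul_zero]

theorem mem_WK {K : Finset (Fin l)} {z : VV n l} : z ∈ WK n K ↔ ∀ i ∈ K, z.2 i = 0 := Iff.rfl

theorem finrank_VV : finrank (ZMod 2) (VV n l) = Fintype.card n + l := by
  rw [Module.finrank_prod, finrank_fintype_fun_eq_card, finrank_fintype_fun_eq_card, Fintype.card_fin]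

theorem finrank_WK (K : Finset (Fin l)) :
    finrank (ZMod 2) (WK n K) + K.card = finrank (ZMod 2) (VV n l) := by
  let φ : VV n l →ₗ[ZMod 2] (K → ZMod 2) :=
    { toFun := fun z i => z.2 i
      map_add' := fun _ _ => rfl
      map_smul' := fun _ _ => rfl }
  have h1 : LinearMap.range φ = ⊤ := by
    rw [LinearMap.range_eq_top]
    intro f
    refine ⟨(0, fun i => if h : i ∈ K then f ⟨i, h⟩ else 0), ?_⟩
    funext i
    show (if h : (i : Fin l) ∈ K then f ⟨i, h⟩ else 0) = f i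
    rw [dif_pos i.2]
  have h2 : LinearMap.ker φ = WK n K := by
    ext z
    rw [LinearMap.mem_ker, mem_WK]
    constructor
    · intro h i hi
      exact congrFun h ⟨i, hi⟩
    · intro h
      funext i
      exact h i i.2
  have h3 := LinearMap.finrank_range_add_finrank_ker φ
  rw [h1, finrank_top, h2, finrank_fintype_fun_eq_card, Fintype.card_coe] at h3
  omega

/-- the parameters of the block `K` -/
def rho (n : Type) {l : ℕ} (K : Finset (Fin l)) : Om n l →+ Om n l where
  toFun ω := (0, fun i => if i ∈ K then ω.2.1 i else 0,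
    fun i i' => if i ∈ K ∧ i' ∈ K then ω.2.2 i i' else 0)
  map_zero' := by
    refine Prod.ext rfl (Prod.ext ?_ ?_)
    · funext i
      show (if i ∈ K then (0 : ZMod 2) else 0) = 0
      rw [ite_self]
    · funext i i'
      show (if i ∈ K ∧ i' ∈ K then (0 : ZMod 2) else 0) = 0
      rw [ite_self]
  map_add' := by
    intro ω ω'
    refine Prod.ext (add_zero _).symm (Prod.ext ?_ ?_)
    · funext i
      show (if i ∈ K then (ω + ω').2.1 i else 0) = (if i ∈ K then ω.2.1 i else 0) +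
        if i ∈ K then ω'.2.1 i else 0
      split_ifs
      · rfl
      · rw [add_zero]
    · funext i i'
      show (if i ∈ K ∧ i' ∈ K then (ω + ω').2.2 i i' else 0) =
        (if i ∈ K ∧ i' ∈ K then ω.2.2 i i' else 0) + if i ∈ K ∧ i' ∈ K then ω'.2.2 i i' else 0
      split_ifs
      · rfl
      · rw [add_zero]

theorem sy_rho {K : Finset (Fin l)} (ω : Om n l) (i i' : Fin l) :
    sy (rho n K ω).2.2 i i' = if i ∈ K ∧ i' ∈ K then sy ω.2.2 i i' else 0 := by
  unfold sy
  show (if i < i' then (if i ∈ K ∧ i' ∈ K then ω.2.2 i i' else 0) else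
    if i' ∈ K ∧ i ∈ K then ω.2.2 i' i else 0) = _
  by_cases h1 : i ∈ K <;> by_cases h2 : i' ∈ K <;> simp [h1, h2]

theorem r1_rho {K : Finset (Fin l)} (ω : Om n l) (z : VV n l) (u : n) : r1 0 (rho n K ω) z u = 0 := by
  unfold r1
  show ∑ v, (0 : Matrix n n (ZMod 2)) u v * z.1 v + ∑ i, (0 : ZMod 2) * (z.2 i + z.1 u) = 0
  simp

theorem YK_mem (K : Finset (Fin l)) (ω : Om n l) : BF 0 (rho n K ω) ∈ YY (WK n K) := by
  rw [mem_YY]
  refine ⟨BF_symm (by exact Matrix.transpose_zero) _, fun w hw => ?_⟩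
  refine LinearMap.ext fun z => ?_
  rw [BF_apply, LinearMap.zero_apply]
  have e2 : ∀ i, r2 (rho n K ω) w i = 0 := by
    intro i
    unfold r2
    have h1 : ∑ u, (rho n K ω).1 i u * (w.1 u + w.2 i) = 0 := by
      show ∑ u, (0 : ZMod 2) * (w.1 u + w.2 i) = 0
      simp
    have h2 : ∑ i', sy (rho n K ω).2.2 i i' * (w.2 i' + w.2 i) = 0 := by
      refine Finset.sum_eq_zero fun i' _ => ?_
      rw [sy_rho]
      by_cases h : i ∈ K ∧ i' ∈ K
      · rw [hw i h.1, hw i' h.2, add_zero, mul_zero]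
      · rw [if_neg h, zero_mul]
    have h3 : (rho n K ω).2.1 i * w.2 i = 0 := by
      show (if i ∈ K then ω.2.1 i else 0) * w.2 i = 0
      by_cases h : i ∈ K
      · rw [hw i h, mul_zero]
      · rw [if_neg h, zero_mul]
    rw [h1, h2, h3, add_zero, add_zero]
  simp only [r1_rho, e2, zero_mul, Finset.sum_const_zero, add_zero]

/-- the basis vectors -/
def ee (n : Type) {l : ℕ} (i : Fin l) : VV n l := (0, Pi.single i 1)

theorem ext_WK {K : Finset (Fin l)} {B B' : LinearMap.BilinForm (ZMod 2) (VV n l)}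
    (hB : B ∈ YY (WK n K)) (hB' : B' ∈ YY (WK n K))
    (h : ∀ i ∈ K, ∀ i' ∈ K, B (ee n i) (ee n i') = B' (ee n i) (ee n i')) : B = B' := by
  rw [mem_YY] at hB hB'
  have hdec : ∀ z : VV n l, ∃ w ∈ WK n K, z = w + ∑ i ∈ K, z.2 i • ee n i := by
    intro z
    refine ⟨z - ∑ i ∈ K, z.2 i • ee n i, ?_, by abel⟩
    intro i hi
    have h1 : (∑ i ∈ K, z.2 i • ee n i).2 i = z.2 i := by
      rw [Prod.snd_sum, Finset.sum_apply]
      rw [Finset.sum_eq_single i]
      · show (z.2 i • (Pi.single i (1 : ZMod 2) : Fin l → ZMod 2)) i = z.2 i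
        rw [Pi.smul_apply, Pi.single_eq_same, smul_eq_mul, mul_one]
      · intro i' _ hne
        show (z.2 i' • (Pi.single i' (1 : ZMod 2) : Fin l → ZMod 2)) i = 0
        rw [Pi.smul_apply, Pi.single_eq_of_ne (Ne.symm hne), smul_zero]
      · intro h
        exact absurd hi h
    rw [Prod.snd_sub, Pi.sub_apply, h1, sub_self]
  have hexp : ∀ (B : LinearMap.BilinForm (ZMod 2) (VV n l)), Sy B → (∀ w ∈ WK n K, B w = 0) →
      ∀ z z' : VV n l, B z z' = ∑ i ∈ K, ∑ i' ∈ K, z.2 i * (z'.2 i' * B (ee n i) (ee n i')) := by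
    intro B hS hW z z'
    obtain ⟨w, hw, hz⟩ := hdec z
    obtain ⟨w', hw', hz'⟩ := hdec z'
    have e1 : B z = ∑ i ∈ K, z.2 i • B (ee n i) := by
      conv_lhs => rw [hz]
      rw [map_add B, hW w hw, zero_add, map_sum]
      exact Finset.sum_congr rfl fun i _ => map_smul B _ _
    rw [e1, LinearMap.sum_apply]
    conv_lhs => rw [hz']
    refine Finset.sum_congr rfl fun i _ => ?_
    rw [LinearMap.smul_apply, map_add, hS (ee n i) w', hW w' hw', LinearMap.zero_apply,
      zero_add, map_sum, smul_eq_mul, Finset.mul_sum]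
    refine Finset.sum_congr rfl fun i' _ => ?_
    rw [map_smul, smul_eq_mul]
  refine LinearMap.ext fun z => LinearMap.ext fun z' => ?_
  rw [hexp B hB.1 hB.2, hexp B' hB'.1 hB'.2]
  refine Finset.sum_congr rfl fun i hi => Finset.sum_congr rfl fun i' hi' => ?_
  rw [h i hi i' hi']

theorem YK_surj (K : Finset (Fin l)) (Y : LinearMap.BilinForm (ZMod 2) (VV n l))
    (hY : Y ∈ YY (WK n K)) : ∃ ω : Om n l, BF 0 (rho n K ω) = Y := by
  have hS := (mem_YY.1 hY).1
  set a : Fin l → Fin l → ZMod 2 := fun i i' => Y (ee n i) (ee n i') with ha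
  set e : Fin l → ZMod 2 := fun i => Y (ee n i) (ee n i) +
    ∑ i', (if i ∈ K ∧ i' ∈ K then sy a i i' else 0) * ((ee n i).2 i' + 1) with he
  refine ⟨(0, e, a), ext_WK (YK_mem K _) hY fun i hi i' hi' => ?_⟩
  have h1 : BF 0 (rho n K ((0, e, a) : Om n l)) (ee n i) (ee n i') =
      r2 (rho n K ((0, e, a) : Om n l)) (ee n i) i' := BF_row2 0 _ _ _
  rw [h1]
  unfold r2
  have h2 : ∑ u, (rho n K ((0, e, a) : Om n l)).1 i' u * ((ee n i).1 u + (ee n i).2 i') = 0 := by
    show ∑ u, (0 : ZMod 2) * _ = 0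
    simp
  rw [h2, zero_add]
  have h3 : (rho n K ((0, e, a) : Om n l)).2.1 i' = e i' := if_pos hi'
  rw [h3]
  simp_rw [sy_rho]
  by_cases hii : i = i'
  · subst hii
    have h4 : (ee n i).2 i = 1 := Pi.single_eq_same i 1
    rw [h4, mul_one, he]
    simp only
    rw [← add_assoc, add_comm (∑ _, _), add_assoc, two_zero, add_zero]
  · have h4 : (ee n i).2 i' = 0 := Pi.single_eq_of_ne (Ne.symm hii) 1
    rw [h4, mul_zero, add_zero]
    rw [Finset.sum_eq_single i]
    · have h5 : (ee n i).2 i = 1 := Pi.single_eq_same i 1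
      rw [h5, add_zero, mul_one, if_pos ⟨hi', hi⟩]
      unfold sy
      show (if i' < i then Y (ee n i') (ee n i) else Y (ee n i) (ee n i')) = _
      split_ifs
      · exact hS _ _
      · rfl
    · intro i'' _ hne
      have h5 : (ee n i).2 i'' = 0 := Pi.single_eq_of_ne hne 1
      rw [h5, add_zero, mul_zero]
    · intro h
      exact absurd (mem_univ _) h

end

end Pool.Agent.Q1.PT
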