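import Pool.Agent.Q1.PT.JPath
import Pool.Agent.Q155.KT.Cnt

/-!
# The pattern process of the prime twists: boxes
-/

set_option autoImplicit false

namespace Pool.Agent.Q1.PT

open Finset Filter Topology Q283.TW
open Pool.Agent.Y687.MQ (matD SP IP AdmD)

/-- the patterns for given parameters -/
def pm {I : Type} [Fintype I] [DecidableEq I] : (k : ℕ) → {n : Type} → [Fintype n] →
    [DecidableEq n] → {ni : I → Type} → [∀ i, Fintype (ni i)] → [∀ i, DecidableEq (ni i)] →
    (∀ i, ni i → n) → (I → Finset n) → (∀ i, Matrix (ni i) (ni i) (ZMod 2)) →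
    Om n k → List (Finset I)
  | 0, _, _, _, _, _, _, _, _, M, _ => [gs M]
  | k + 1, n, _, _, ni, _, _, ι, t, M, ω => gs M ::
      pm k (n := n ⊕ Unit) (ni := fun i => ni i ⊕ Unit) (fun i => Sum.map (ι i) id)
        (fun i => exT (t i)) (fun i => bord (M i) (ω.1 0 ∘ ι i) (∑ u ∈ t i, ω.1 0 u + ω.2.1 0))
        (dcJ n k ω).2

/-- the parameters with other names -/
def reO {n n' : Type} (e : n ≃ n') {k : ℕ} (ω : Om n k) : Om n' k :=
  (fun l => ω.1 l ∘ e.symm, ω.2.1, ω.2.2)

section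
variable {I : Type} [Fintype I] [DecidableEq I]

theorem pm_zero {n : Type} [Fintype n] [DecidableEq n]
    {ni : I → Type} [∀ i, Fintype (ni i)] [∀ i, DecidableEq (ni i)] (ι : ∀ i, ni i → n)
    (t : I → Finset n) (M : ∀ i, Matrix (ni i) (ni i) (ZMod 2)) (ω : Om n 0) :
    pm 0 ι t M ω = [gs M] := rfl

theorem pm_succ (k : ℕ) {n : Type} [Fintype n] [DecidableEq n]
    {ni : I → Type} [∀ i, Fintype (ni i)] [∀ i, DecidableEq (ni i)] (ι : ∀ i, ni i → n)
    (t : I → Finset n) (M : ∀ i, Matrix (ni i) (ni i) (ZMod 2)) (ω : Om n (k + 1)) :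
    pm (k + 1) ι t M ω = gs M ::
      pm k (n := n ⊕ Unit) (ni := fun i => ni i ⊕ Unit) (fun i => Sum.map (ι i) id)
        (fun i => exT (t i)) (fun i => bord (M i) (ω.1 0 ∘ ι i) (∑ u ∈ t i, ω.1 0 u + ω.2.1 0))
        (dcJ n k ω).2 := rfl

theorem jp_pm (k : ℕ) : ∀ {n : Type} [Fintype n] [DecidableEq n] {ni : I → Type}
    [∀ i, Fintype (ni i)] [∀ i, DecidableEq (ni i)] (ι : ∀ i, ni i → n) (t : I → Finset n)
    (M : ∀ i, Matrix (ni i) (ni i) (ZMod 2)) (f : List (Finset I) → ℝ),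
    jp k ι t M f = avg fun ω : Om n k => f (pm k ι t M ω) := by
  induction k with
  | zero =>
    intro n _ _ ni _ _ ι t M f
    simp_rw [pm_zero]
    rw [avg_const, jp_zero]
  | succ k ih =>
    intro n _ _ ni _ _ ι t M f
    rw [jp_succ]
    have h1 : ∀ y : (n → ZMod 2) × ZMod 2,
        (jp k (n := n ⊕ Unit) (ni := fun i => ni i ⊕ Unit) (fun i => Sum.map (ι i) id)
        (fun i => exT (t i)) (fun i => bord (M i) (y.1 ∘ ι i) (∑ u ∈ t i, y.1 u + y.2))
        fun l => f (gs M :: l)) = _ := fun y => ih _ _ _ _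
    simp_rw [h1]
    rw [avg_prod2 fun (y : (n → ZMod 2) × ZMod 2) (ω : Om (n ⊕ Unit) k) => f (gs M ::
      pm k (n := n ⊕ Unit) (ni := fun i => ni i ⊕ Unit) (fun i => Sum.map (ι i) id)
        (fun i => exT (t i)) (fun i => bord (M i) (y.1 ∘ ι i) (∑ u ∈ t i, y.1 u + y.2)) ω),
      ← avg_hom (dcJ n k) (dcJ_surj n k)]
    rfl

theorem pm_congr (k : ℕ) : ∀ {n : Type} [Fintype n] [DecidableEq n] {ni : I → Type}
    [∀ i, Fintype (ni i)] [∀ i, DecidableEq (ni i)] (ι : ∀ i, ni i → n) (t : I → Finset n)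
    (M : ∀ i, Matrix (ni i) (ni i) (ZMod 2)) (ω ω' : Om n k), ω.1 = ω'.1 → ω.2.1 = ω'.2.1 →
    (∀ i j, i < j → ω.2.2 i j = ω'.2.2 i j) → pm k ι t M ω = pm k ι t M ω' := by
  induction k with
  | zero =>
    intro n _ _ ni _ _ ι t M ω ω' _ _ _
    rfl
  | succ k ih =>
    intro n _ _ ni _ _ ι t M ω ω' h1 h2 h3
    rw [pm_succ, pm_succ, h1, h2]
    congr 1
    refine ih _ _ _ _ _ ?_ ?_ ?_
    · funext l w
      rcases w with u | w
      · show ω.1 l.succ u = ω'.1 l.succ u
        rw [h1]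
      · exact h3 0 l.succ (Fin.succ_pos l)
    · funext l
      show ω.2.1 l.succ = ω'.2.1 l.succ
      rw [h2]
    · intro i j hij
      exact h3 i.succ j.succ (Fin.succ_lt_succ_iff.2 hij)

theorem pm_equiv (k : ℕ) : ∀ {n : Type} [Fintype n] [DecidableEq n] {ni : I → Type}
    [∀ i, Fintype (ni i)] [∀ i, DecidableEq (ni i)] {n' : Type} [Fintype n'] [DecidableEq n']
    {ni' : I → Type} [∀ i, Fintype (ni' i)] [∀ i, DecidableEq (ni' i)]
    (e : n ≃ n') (ei : ∀ i, ni i ≃ ni' i) (ι : ∀ i, ni i → n) (ι' : ∀ i, ni' i → n')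
    (_ : ∀ i a, ι' i (ei i a) = e (ι i a)) (t : I → Finset n) (t' : I → Finset n')
    (_ : ∀ i, t' i = (t i).map e.toEmbedding)
    (M' : ∀ i, Matrix (ni' i) (ni' i) (ZMod 2)) (ω : Om n k),
    pm k ι t (fun i => (M' i).submatrix (ei i) (ei i)) ω = pm k ι' t' M' (reO e ω) := by
  induction k with
  | zero =>
    intro n _ _ ni _ _ n' _ _ ni' _ _ e ei ι ι' hι t t' ht M' ω
    rw [pm_zero, pm_zero, gs_submatrix]
  | succ k ih =>
    intro n _ _ ni _ _ n' _ _ ni' _ _ e ei ι ι' hι t t' ht M' ω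
    rw [pm_succ, pm_succ, gs_submatrix]
    congr 1
    have h1 := ih (n := n ⊕ Unit) (ni := fun i => ni i ⊕ Unit) (n' := n' ⊕ Unit)
      (ni' := fun i => ni' i ⊕ Unit) (e.sumCongr (Equiv.refl Unit))
      (fun i => (ei i).sumCongr (Equiv.refl Unit)) (fun i => Sum.map (ι i) id)
      (fun i => Sum.map (ι' i) id) (by
        intro i a
        rcases a with a | a
        · show Sum.inl (ι' i (ei i a)) = Sum.inl (e (ι i a))
          rw [hι]
        · rfl) (fun i => exT (t i)) (fun i => exT (t' i)) (fun i => by rw [ht, map_exT])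
      (fun i => bord (M' i) ((ω.1 0 ∘ e.symm) ∘ ι' i) (∑ u ∈ t' i, (ω.1 0 ∘ e.symm) u + ω.2.1 0))
      (dcJ n k ω).2
    have h2 : reO (e.sumCongr (Equiv.refl Unit)) (dcJ n k ω).2 = (dcJ n' k (reO e ω)).2 := by
      refine Prod.ext ?_ (Prod.ext rfl rfl)
      funext l w
      rcases w with u | w <;> rfl
    rw [h2] at h1
    refine Eq.trans ?_ h1
    congr 1
    exact child_equiv e ei ι ι' hι t t' ht M' (ω.1 0) (ω.2.1 0)

end

section
variable {m : ℕ}

/-- the parameters of a tuple of primes -/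
noncomputable def omp (R : Finset ℕ) {k : ℕ} (p : Fin k → ℕ) : Om R k :=
  (fun l r => nrp (p l) r, fun l => xp1 (p l), fun l l' => nrp (p l') (p l))

open Classical in
/-- **the patterns of the twists are the patterns of the parameters** -/
theorem pm_primes {G : ℤ → Prop} (hG : ∀ M : ℤ, AdmD M → (G M ↔ (matD M).det ≠ 0)) (k : ℕ) :
    ∀ (R : Finset ℕ) (D : Fin m → ℤ) (hD : ∀ i, (D i).natAbs.primeFactors ⊆ R)
      (_ : ∀ i, AdmD (D i)) (p : Fin k → ℕ), (∀ i, Spl (p i)) → Function.Injective p →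
      (∀ i, p i ∉ R) →
      pm k (iR D hD) (tR R D) (fun i => matD (D i)) (omp R p) = pth G D (List.ofFn p) := by
  induction k with
  | zero =>
    intro R D hD hA p _ _ _
    rw [pm_zero, List.ofFn_zero, pth, gset_gs hG hA]
  | succ k ih =>
    intro R D hD hA p hp hinj hR
    rw [pm_succ, List.ofFn_succ, pth_cons, gset_gs hG hA]
    congr 1
    have hpD : ∀ i, p 0 ∉ (D i).natAbs.primeFactors := fun i h => hR 0 (hD i h)
    have h0 : ∀ i, D i ≠ 0 := fun i => (hA i).1.ne_zero
    have h1 := pm_equiv (I := Fin m) k (n := R ⊕ Unit) (ni := fun i => SP (D i) ⊕ Unit)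
      (n' := (insert (p 0) R : Finset ℕ)) (ni' := fun i => SP (D i * (p 0 : ℤ))) (eR (hR 0))
      (fun i => eqv (h0 i) (hp 0) (hpD i)) (fun i => Sum.map (iR D hD i) id)
      (iR (fun i => D i * (p 0 : ℤ)) (sub_insert hD h0 (hp 0))) (by
        intro i a
        rcases a with a | a
        · exact Subtype.ext (eqv_inl (h0 i) (hp 0) (hpD i) a)
        · exact Subtype.ext (eqv_inr (h0 i) (hp 0) (hpD i) a))
      (fun i => exT (tR R D i)) (tR (insert (p 0) R) fun i => D i * (p 0 : ℤ)) (by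
        intro i
        ext u
        unfold tR exT
        rw [Finset.mem_filter, Finset.mem_map, pf_mul (h0 i) (hp 0)]
        constructor
        · rintro ⟨-, h⟩
          rcases Finset.mem_insert.1 h with h | h
          · exact ⟨Sum.inr (), Finset.inr_mem_disjSum.2 (mem_univ _), Subtype.ext h.symm⟩
          · exact ⟨Sum.inl ⟨u, hD i h⟩, Finset.inl_mem_disjSum.2
              (Finset.mem_filter.2 ⟨mem_univ _, h⟩), rfl⟩
        · rintro ⟨a, ha, rfl⟩
          refine ⟨mem_univ _, ?_⟩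
          rcases a with a | a
          · exact Finset.mem_insert_of_mem (Finset.mem_filter.1 (Finset.inl_mem_disjSum.1 ha)).2
          · exact Finset.mem_insert_self _ _)
      (fun i => matD (D i * (p 0 : ℤ))) (dcJ R k (omp R p)).2
    have h2 := ih (insert (p 0) R) (fun i => D i * (p 0 : ℤ)) (sub_insert hD h0 (hp 0))
      (fun i => admD_mul (hA i) (hp 0) (hpD i)) (fun i => p i.succ) (fun i => hp _)
      (fun i j h => Fin.succ_injective _ (hinj h)) (by
        intro i h
        rcases Finset.mem_insert.1 h with h | h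
        · exact Fin.succ_ne_zero i (hinj h)
        · exact hR _ h)
    rw [← h2]
    have h3 : reO (eR (hR 0)) (dcJ R k (omp R p)).2 = omp (insert (p 0) R) fun i => p i.succ := by
      refine Prod.ext ?_ (Prod.ext rfl rfl)
      funext l r
      obtain ⟨w, rfl⟩ := (eR (hR 0)).surjective r
      show (dcJ R k (omp R p)).2.1 l ((eR (hR 0)).symm (eR (hR 0) w)) = _
      rw [Equiv.symm_apply_apply]
      rcases w with u | w <;> rfl
    rw [h3] at h1
    rw [← h1]
    congr 1
    funext i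
    rw [matD_sub (hA i) (hp 0) (hpD i)]
    unfold sym
    have hs := sum_tR D hD i fun r => nrp (p 0) r
    show bord _ _ (∑ u ∈ tR R D i, nrp (p 0) u + xp1 (p 0)) =
      bord _ _ (∑ r ∈ (D i).natAbs.primeFactors, nrp (p 0) r + xp1 (p 0))
    rw [hs]
    rfl

open Classical in
/-- the parameters of the labels and of the symbols -/
noncomputable def omd {R : Finset ℕ} {k : ℕ} (x : (Fin k → Q155.KT.Lb R) × (Q155.KT.Pr k → ZMod 2)) :
    Om R k :=
  (fun l => (x.1 l).1, fun l => (x.1 l).2,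
    fun i j => if h : (i, j) ∈ Q155.KT.Pr k then x.2 ⟨(i, j), h⟩ else 0)

/-- the labels and the symbols -/
noncomputable def dmo (R : Finset ℕ) (k : ℕ) :
    Om R k →+ (Fin k → Q155.KT.Lb R) × (Q155.KT.Pr k → ZMod 2) where
  toFun ω := (fun l => (ω.1 l, ω.2.1 l), fun e => ω.2.2 e.1.1 e.1.2)
  map_zero' := rfl
  map_add' _ _ := rfl

theorem dmo_omd {R : Finset ℕ} {k : ℕ}
    (x : (Fin k → Q155.KT.Lb R) × (Q155.KT.Pr k → ZMod 2)) : dmo R k (omd x) = x := by
  refine Prod.ext rfl ?_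
  funext e
  show (if h : (e.1.1, e.1.2) ∈ Q155.KT.Pr k then x.2 ⟨(e.1.1, e.1.2), h⟩ else 0) = x.2 e
  rw [dif_pos e.2]

theorem mem_Pr' {k : ℕ} {e : Fin k × Fin k} : e ∈ Q155.KT.Pr k ↔ e.1 < e.2 := by
  show e ∈ Pool.Agent.Y703.CQ.prs (univ : Finset (Fin k)) ↔ _
  unfold Pool.Agent.Y703.CQ.prs
  simp only [Finset.mem_filter, Finset.mem_univ, true_and, forall_true_left]
  constructor
  · exact fun h => h.2
  · exact fun h => ⟨h.ne', h⟩

theorem pm_omd {I : Type} [Fintype I] [DecidableEq I] {R : Finset ℕ} {k : ℕ}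
    {ni : I → Type} [∀ i, Fintype (ni i)] [∀ i, DecidableEq (ni i)] (ι : ∀ i, ni i → R)
    (t : I → Finset R) (M : ∀ i, Matrix (ni i) (ni i) (ZMod 2)) (ω : Om R k) :
    pm k ι t M (omd (dmo R k ω)) = pm k ι t M ω := by
  refine pm_congr k ι t M _ _ rfl rfl fun i j hij => ?_
  show (if h : (i, j) ∈ Q155.KT.Pr k then (dmo R k ω).2 ⟨(i, j), h⟩ else 0) = ω.2.2 i j
  rw [dif_pos (mem_Pr'.2 hij)]
  rfl

theorem nrp_symm' {p q : ℕ} (hp : Spl p) (hq : Spl q) : nrp p q = nrp q p := by
  have : Fact p.Prime := ⟨hp.1⟩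
  have : Fact q.Prime := ⟨hq.1⟩
  have h1 := hp.2.1
  have h2 := hq.2.1
  have := ZMod.exists_sq_eq_prime_iff_of_mod_four_eq_one (p := p) (q := q) (by omega) (by omega)
  unfold nrp
  by_cases h : IsSquare (q : ZMod p)
  · rw [if_pos h, if_pos (this.1 h)]
  · rw [if_neg h, if_neg (fun h' => h (this.2 h'))]

open scoped Classical in
/-- **the mean over the boxes** -/
theorem box_jp {G : ℤ → Prop} (hG : ∀ M : ℤ, AdmD M → (G M ↔ (matD M).det ≠ 0)) (k : ℕ)
    (R : Finset ℕ) (hR : ∀ r ∈ R, r.Prime ∧ r ≠ 2 ∧ r ≠ 7) (D : Fin m → ℤ)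
    (hD : ∀ i, (D i).natAbs.primeFactors ⊆ R) (hA : ∀ i, AdmD (D i))
    (f : List (Finset (Fin m)) → ℝ) :
    Tendsto (fun X : ℕ => (∑ p ∈ (Q155.KT.tup k X).filter fun p => Function.Injective p ∧
        ∀ i, p i ∉ R, f (pth G D (List.ofFn p))) / ((Q155.KT.tup k X).card : ℝ)) atTop
      (𝓝 (jp k (iR D hD) (tR R D) (fun i => matD (D i)) f)) := by
  set P : Om R k → List (Finset (Fin m)) :=
    fun ω => pm k (iR D hD) (tR R D) (fun i => matD (D i)) ω with hP
  set W : Finset (List (Finset (Fin m))) := univ.image P with hW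
  have h1 : ∀ w : List (Finset (Fin m)), Tendsto (fun X : ℕ =>
      (((Q155.KT.tup k X).filter fun p => Function.Injective p ∧ (∀ i, p i ∉ R) ∧
        pth G D (List.ofFn p) = w).card : ℝ) / ((Q155.KT.tup k X).card : ℝ)) atTop
      (𝓝 (avg fun ω : Om R k => if P ω = w then (1 : ℝ) else 0)) := by
    intro w
    have h2 := Q155.KT.count_inj k R hR (fun l α => P (omd (l, α)) = w)
      (fun p => Function.Injective p ∧ (∀ i, p i ∉ R) ∧ pth G D (List.ofFn p) = w) (by
        intro p hp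
        refine and_congr_right fun hinj => and_congr_right fun hpR => ?_
        rw [← pm_primes hG k R D hD hA p hp hinj hpR]
        have h3 : pm k (iR D hD) (tR R D) (fun i => matD (D i)) (omp R p) =
            P (omd (fun i => Q155.KT.lab R (p i), fun e => nrp (p e.1.1) (p e.1.2))) := by
          refine pm_congr k _ _ _ _ _ rfl rfl fun i j hij => ?_
          show nrp (p j) (p i) = if h : (i, j) ∈ Q155.KT.Pr k then nrp (p i) (p j) else 0
          rw [dif_pos (mem_Pr'.2 hij)]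
          exact nrp_symm' (hp j) (hp i)
        rw [h3])
    have h4 : (avg fun ω : Om R k => if P ω = w then (1 : ℝ) else 0) =
        ((Nat.card {x : (Fin k → Q155.KT.Lb R) × (Q155.KT.Pr k → ZMod 2) //
          P (omd (x.1, x.2)) = w} : ℝ) / 2 ^ (k * (R.card + 1) + (Q155.KT.Pr k).card)) := by
      have h5 : (avg fun ω : Om R k => if P ω = w then (1 : ℝ) else 0) =
          avg fun ω : Om R k => if P (omd (dmo R k ω)) = w then (1 : ℝ) else 0 := by
        congr 1
        funext ω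
        have : P (omd (dmo R k ω)) = P ω := pm_omd _ _ _ ω
        rw [this]
      rw [h5, avg_hom (dmo R k) (fun x => ⟨omd x, dmo_omd x⟩)
        (fun x => if P (omd x) = w then (1 : ℝ) else 0)]
      unfold avg
      have h6 : (Fintype.card ((Fin k → Q155.KT.Lb R) × (Q155.KT.Pr k → ZMod 2)) : ℝ) =
          2 ^ (k * (R.card + 1) + (Q155.KT.Pr k).card) := by
        have h7 : Nat.card ((Fin k → Q155.KT.Lb R) × (Q155.KT.Pr k → ZMod 2)) =
            2 ^ (k * (R.card + 1) + (Q155.KT.Pr k).card) := by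
          rw [Nat.card_prod, Nat.card_fun, Q155.KT.card_lb, Nat.card_fun,
            Nat.card_zmod, Nat.card_eq_fintype_card, Nat.card_eq_fintype_card, Fintype.card_fin,
            Fintype.card_coe, ← pow_mul, pow_add, mul_comm (R.card + 1) k]
        rw [← Nat.card_eq_fintype_card, h7]
        push_cast
        rfl
      rw [h6, Finset.sum_boole, Nat.card_eq_fintype_card, Fintype.card_subtype]
    rw [h4]
    exact h2.congr fun X => congrArg₂ (fun a b : ℕ => (a : ℝ) / (b : ℝ)) (card_filter_inst' _ _) rfl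
  have h2 := tendsto_finsetSum W fun w _ => (h1 w).const_mul (f w)
  have h3 : ∑ w ∈ W, f w * (avg fun ω : Om R k => if P ω = w then (1 : ℝ) else 0) =
      jp k (iR D hD) (tR R D) (fun i => matD (D i)) f := by
    rw [jp_pm]
    have h4 : ∀ w, f w * (avg fun ω : Om R k => if P ω = w then (1 : ℝ) else 0) =
        avg fun ω : Om R k => f w * if P ω = w then (1 : ℝ) else 0 := fun w => (avg_mul _ _).symm
    simp_rw [h4]
    rw [← avg_sum]
    congr 1
    funext ω
    rw [Finset.sum_eq_single (P ω)]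
    · rw [if_pos rfl, mul_one]
    · intro w _ hw
      rw [if_neg (Ne.symm hw), mul_zero]
    · intro h
      exact absurd (Finset.mem_image_of_mem P (mem_univ ω)) h
  rw [h3] at h2
  refine h2.congr fun X => ?_
  have h4 : ∀ w, f w * ((((Q155.KT.tup k X).filter fun p => Function.Injective p ∧ (∀ i, p i ∉ R) ∧
        pth G D (List.ofFn p) = w).card : ℝ) / ((Q155.KT.tup k X).card : ℝ)) =
      (∑ p ∈ ((Q155.KT.tup k X).filter fun p => Function.Injective p ∧ ∀ i, p i ∉ R).filter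
        (fun p => pth G D (List.ofFn p) = w), f (pth G D (List.ofFn p))) /
        ((Q155.KT.tup k X).card : ℝ) := by
    intro w
    rw [← mul_div_assoc]
    congr 1
    rw [Finset.sum_congr rfl (g := fun _ => f w)]
    · rw [Finset.sum_const, nsmul_eq_mul, mul_comm, Finset.filter_filter]
      congr 2
      refine congrArg Finset.card (Finset.ext fun p => ?_)
      rw [Finset.mem_filter, Finset.mem_filter, and_assoc]
    · intro p hp
      rw [(Finset.mem_filter.1 hp).2]
  rw [Finset.sum_congr rfl fun w _ => h4 w, ← Finset.sum_div]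
  congr 1
  refine Finset.sum_fiberwise_of_maps_to (fun p hp => ?_) _
  obtain ⟨hp1, hp2, hp3⟩ := Finset.mem_filter.1 hp
  have hps : ∀ i, Spl (p i) := fun i => ((Q155.KT.mem_tup.1 hp1) i).2
  rw [← pm_primes hG k R D hD hA p hps hp2 hp3]
  exact Finset.mem_image_of_mem P (mem_univ _)

end

end Pool.Agent.Q1.PT
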