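import Pool.Agent.Q1.PT.JMain
import Pool.Agent.Q1.PT.EJ

/-!
# The joint limit law of several chains of borderings, with a rate
-/

set_option autoImplicit false

namespace Pool.Agent.Q1.PT

open Finset Module Q283.TW Filter Topology
open Pool.Agent.Y697.PP (Sy Nd YY mem_YY)
open Pool.Agent.Y697.PQ (JJ mem_JJ)
open Pool.Agent.Y703.CQ (c2)

open Classical in
/-- **the joint law, with a rate** -/
theorem jlaw_eff (m : ℕ) : ∃ b : ℕ, ∀ (s k : ℕ), b * (s + 1) ≤ k → ∀ {n : Type} [Fintype n]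
    [DecidableEq n] {ni : Fin m → Type} [∀ i, Fintype (ni i)] [∀ i, DecidableEq (ni i)]
    {ι : ∀ i, ni i → n}, (∀ i, Function.Injective (ι i)) → ∀ {t : Fin m → Finset n},
    Function.Injective t → ∀ {M : ∀ i, Matrix (ni i) (ni i) (ZMod 2)}, (∀ i, (M i).IsSymm) →
    |(avg fun ω : Om n k => ∏ i, iJ ι t M i ω) - c2 ^ m| ≤
      (m * m + 2) * 4 ^ Fintype.card n * (1 / 2) ^ s := by
  obtain ⟨a, ha⟩ := law_eff m
  refine ⟨3 * (a + 1), fun s k hk n _ _ ni _ _ ι hι t ht M hM => ?_⟩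
  set N := Fintype.card n with hN
  set R := a * (s + 1) with hRd
  obtain ⟨hc0', hc1'⟩ := c2_bounds
  have hRs : 3 * (R + (s + 1)) ≤ k := by
    have : 3 * (a + 1) * (s + 1) = 3 * (a * (s + 1) + (s + 1)) := by ring
    omega
  have hm0 : (0 : ℝ) ≤ m * m := by positivity
  have hN1 : (1 : ℝ) ≤ 4 ^ N := one_le_pow₀ (by norm_num)
  have hs0 : (0 : ℝ) < (1 / 2) ^ s := by positivity
  by_cases hNk : N + R ≤ k
  swap
  · -- the trivial bound
    have h1 : |(avg fun ω : Om n k => ∏ i, iJ ι t M i ω) - c2 ^ m| ≤ 1 :=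
      abs_sub_le_one (avg_nn fun ω => Finset.prod_nonneg fun i _ => iJ_nonneg ι t M i ω)
        (avg_le_one fun ω => Finset.prod_le_one (fun i _ => iJ_nonneg ι t M i ω)
          fun i _ => iJ_le_one ι t M i ω) (pow_nonneg hc0' m) (pow_le_one₀ hc0' hc1')
    refine h1.trans ?_
    have h2 : (1 : ℝ) ≤ 4 ^ N * (1 / 2) ^ s := by
      have h3 : (2 : ℝ) ^ s ≤ 4 ^ N := by
        calc (2 : ℝ) ^ s ≤ 4 ^ s := pow_le_pow_left₀ (by norm_num) (by norm_num) s
          _ ≤ 4 ^ N := pow_le_pow_right₀ (by norm_num) (by omega)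
      calc (1 : ℝ) = 2 ^ s * (1 / 2) ^ s := by rw [← mul_pow]; norm_num
        _ ≤ 4 ^ N * (1 / 2) ^ s := mul_le_mul_of_nonneg_right h3 hs0.le
    nlinarith
  rw [← avg_shift univ]
  have hshift : ∀ ω : Om n k, (avg fun h' : Om n k => ∏ i, iJ ι t M i (ω + rho n univ h')) =
      avg fun h' : Om n k => if (∀ i, Nd (BF (eM (ι i) (M i)) (prt ι t i ω) +
        BF 0 (rho n univ h')) ⊤) then (1 : ℝ) else 0 := by
    intro ω
    congr 1
    funext h'
    rw [prod_iJ hι]
    simp_rw [prt_shift, BF_add]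
  simp_rw [hshift]
  have hone : ∀ ω : Om n k, |(avg fun h' : Om n k => if (∀ i, Nd (BF (eM (ι i) (M i)) (prt ι t i ω) +
        BF 0 (rho n univ h')) ⊤) then (1 : ℝ) else 0) - c2 ^ m| ≤
      (1 / 2) ^ s + ((if Bad1 univ ω then (1 : ℝ) else 0) +
        (2 ^ (k - R))⁻¹ * ∑ i : Fin m, ∑ j : Fin m, if i = j then 0 else cJ ι t i j ω) := by
    intro ω
    have hcnt0 : ∀ i j, 0 ≤ cJ ι t i j ω := by
      intro i j
      unfold cJ
      exact Finset.sum_nonneg fun z _ => by split_ifs <;> norm_num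
    have hterm : ∀ i j : Fin m, 0 ≤ if i = j then 0 else cJ ι t i j ω := by
      intro i j
      split_ifs
      · exact le_rfl
      · exact hcnt0 i j
    have hsum0 : 0 ≤ ∑ i : Fin m, ∑ j : Fin m, if i = j then 0 else cJ ι t i j ω :=
      Finset.sum_nonneg fun i _ => Finset.sum_nonneg fun j _ => hterm i j
    have hbad0 : (0 : ℝ) ≤ if Bad1 univ ω then (1 : ℝ) else 0 := by split_ifs <;> norm_num
    have hp : (0 : ℝ) < (2 ^ (k - R))⁻¹ := by positivity
    by_cases hg : ¬ Bad1 univ ω ∧ ∀ i j, i ≠ j → cJ ι t i j ω ≤ 2 ^ (k - R)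
    · obtain ⟨g1, g2⟩ := hg
      have h1 := ha s n k univ (fun i => BF (eM (ι i) (M i)) (prt ι t i ω)) (k - R)
        (fun i => BF_symm (eM_symm (hι i) (hM i)) _) (fun i => prt_nd g1 i)
        (fun i j hij => pow_le_of ((jj_card' hι t M i j ω).trans (g2 i j hij)))
        (by rw [Finset.card_univ, Fintype.card_fin, ← hN]; omega)
        (by rw [Finset.card_univ, Fintype.card_fin]; omega)
      refine h1.trans ?_
      have h2 : 0 ≤ (2 ^ (k - R) : ℝ)⁻¹ * ∑ i : Fin m, ∑ j : Fin m, if i = j then 0 else cJ ι t i j ω :=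
        mul_nonneg hp.le hsum0
      linarith
    · have h1 : (1 : ℝ) ≤ (if Bad1 univ ω then (1 : ℝ) else 0) +
          (2 ^ (k - R))⁻¹ * ∑ i : Fin m, ∑ j : Fin m, if i = j then 0 else cJ ι t i j ω := by
        have h2 : 0 ≤ (2 ^ (k - R) : ℝ)⁻¹ *
            ∑ i : Fin m, ∑ j : Fin m, if i = j then 0 else cJ ι t i j ω := mul_nonneg hp.le hsum0
        by_cases hb : Bad1 univ ω
        · rw [if_pos hb]
          linarith
        · have h3 : ∃ i j, i ≠ j ∧ 2 ^ (k - R) < cJ ι t i j ω := by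
            by_contra h4
            push Not at h4
            exact hg ⟨hb, h4⟩
          obtain ⟨i, j, hij, h3⟩ := h3
          have h5 : cJ ι t i j ω ≤ ∑ i : Fin m, ∑ j : Fin m, if i = j then 0 else cJ ι t i j ω := by
            have h6 : cJ ι t i j ω = if i = j then 0 else cJ ι t i j ω := (if_neg hij).symm
            rw [h6]
            refine (Finset.single_le_sum (f := fun j => if i = j then 0 else cJ ι t i j ω)
              (fun j _ => hterm i j) (mem_univ j)).trans ?_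
            exact Finset.single_le_sum (f := fun i => ∑ j, if i = j then 0 else cJ ι t i j ω)
              (fun i _ => Finset.sum_nonneg fun j _ => hterm i j) (mem_univ i)
          have h4 : (1 : ℝ) ≤ (2 ^ (k - R))⁻¹ *
              ∑ i : Fin m, ∑ j : Fin m, if i = j then 0 else cJ ι t i j ω := by
            rw [inv_mul_eq_div, one_le_div (by positivity)]
            exact h3.le.trans h5
          linarith
      have h2 := abs_sub_le_one (avg_nn (α := Om n k) (f := fun h' => if (∀ i,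
        Nd (BF (eM (ι i) (M i)) (prt ι t i ω) + BF 0 (rho n univ h')) ⊤) then (1 : ℝ) else 0)
        fun h' => by split_ifs <;> norm_num)
        (avg_le_one fun h' => by split_ifs <;> norm_num) (pow_nonneg hc0' m)
        (pow_le_one₀ hc0' hc1')
      refine h2.trans ?_
      linarith
  have e0 : (avg fun ω : Om n k => avg fun h' : Om n k => if (∀ i, Nd (BF (eM (ι i) (M i))
        (prt ι t i ω) + BF 0 (rho n univ h')) ⊤) then (1 : ℝ) else 0) - c2 ^ m =
      avg fun ω : Om n k => ((avg fun h' : Om n k => if (∀ i, Nd (BF (eM (ι i) (M i))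
        (prt ι t i ω) + BF 0 (rho n univ h')) ⊤) then (1 : ℝ) else 0) - c2 ^ m) := by
    rw [avg_sub, avg_const]
  rw [e0]
  refine (abs_avg _).trans ((avg_mono hone).trans ?_)
  rw [avg_add, avg_const, avg_add, avg_mul, avg_sum]
  have b1 := avg_bad (n := n) (univ : Finset (Fin k))
  rw [Finset.card_univ, Fintype.card_fin, ← hN, Nat.sub_self, add_zero] at b1
  have b2 : ∑ i : Fin m, (avg fun ω : Om n k => ∑ j : Fin m, if i = j then 0 else cJ ι t i j ω) ≤
      m * m * (4 ^ N * (3 / 2) ^ k) := by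
    have h1 : ∀ i : Fin m, (avg fun ω : Om n k => ∑ j : Fin m, if i = j then 0 else cJ ι t i j ω) ≤
        m * (4 ^ N * (3 / 2) ^ k) := by
      intro i
      rw [avg_sum]
      have h2 : ∀ j : Fin m, (avg fun ω : Om n k => if i = j then 0 else cJ ι t i j ω) ≤
          4 ^ N * (3 / 2) ^ k := by
        intro j
        by_cases hij : i = j
        · have h3 : ∀ ω : Om n k, (if i = j then (0 : ℝ) else cJ ι t i j ω) = 0 := fun ω => if_pos hij
          simp_rw [h3]
          rw [avg_const]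
          positivity
        · have h3 : ∀ ω : Om n k, (if i = j then (0 : ℝ) else cJ ι t i j ω) = cJ ι t i j ω :=
            fun ω => if_neg hij
          simp_rw [h3]
          exact avg_cJ fun h => hij (ht h)
      refine (Finset.sum_le_sum fun j _ => h2 j).trans (le_of_eq ?_)
      rw [Finset.sum_const, Finset.card_univ, Fintype.card_fin, nsmul_eq_mul]
    refine (Finset.sum_le_sum fun i _ => h1 i).trans (le_of_eq ?_)
    rw [Finset.sum_const, Finset.card_univ, Fintype.card_fin, nsmul_eq_mul]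
    ring
  have hb1 : (2 : ℝ) ^ N / 2 ^ k ≤ 4 ^ N * (1 / 2) ^ s := by
    have h1 : (2 : ℝ) ^ N ≤ 4 ^ N := pow_le_pow_left₀ (by norm_num) (by norm_num) N
    have h2 : (1 : ℝ) / 2 ^ k ≤ (1 / 2) ^ s := by
      rw [← one_div_pow]
      exact pow_le_pow_of_le_one (by norm_num) (by norm_num) (by omega)
    rw [div_eq_mul_one_div]
    exact mul_le_mul h1 h2 (by positivity) (by positivity)
  have hb2 : (2 ^ (k - R) : ℝ)⁻¹ * (m * m * (4 ^ N * (3 / 2) ^ k)) ≤
      m * m * (4 ^ N * (1 / 2) ^ s) := by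
    have h1 : (2 : ℝ) ^ k = 2 ^ (k - R) * 2 ^ R := by
      rw [← pow_add]
      congr 1
      omega
    have h2 : (2 ^ (k - R) : ℝ)⁻¹ = 2 ^ R / 2 ^ k := by
      rw [h1]
      field_simp
    have h3 : (2 ^ (k - R) : ℝ)⁻¹ * (m * m * (4 ^ N * (3 / 2) ^ k)) =
        m * m * (4 ^ N * (2 ^ R * ((3 / 2) ^ k / 2 ^ k))) := by
      rw [h2]
      field_simp
    rw [h3]
    have h4 : (3 / 2 : ℝ) ^ k / 2 ^ k = (3 / 4) ^ k := by
      rw [← div_pow]
      norm_num
    rw [h4]
    have h5 : (2 : ℝ) ^ R * (3 / 4) ^ k ≤ (1 / 2) ^ s := by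
      have h6 : (3 / 4 : ℝ) ^ k ≤ (3 / 4) ^ (3 * (R + (s + 1))) :=
        pow_le_pow_of_le_one (by norm_num) (by norm_num) hRs
      have h7 : (3 / 4 : ℝ) ^ (3 * (R + (s + 1))) ≤ (1 / 2) ^ (R + (s + 1)) := by
        rw [pow_mul]
        exact pow_le_pow_left₀ (by norm_num) (by norm_num) _
      have h8 : (2 : ℝ) ^ R * (1 / 2) ^ (R + (s + 1)) = (1 / 2) ^ (s + 1) := by
        rw [pow_add, ← mul_assoc, ← mul_pow]
        norm_num
      have h9 : (1 / 2 : ℝ) ^ (s + 1) ≤ (1 / 2) ^ s :=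
        pow_le_pow_of_le_one (by norm_num) (by norm_num) (by omega)
      calc (2 : ℝ) ^ R * (3 / 4) ^ k ≤ 2 ^ R * (1 / 2) ^ (R + (s + 1)) :=
            mul_le_mul_of_nonneg_left (h6.trans h7) (by positivity)
        _ = (1 / 2) ^ (s + 1) := h8
        _ ≤ _ := h9
    exact mul_le_mul_of_nonneg_left (mul_le_mul_of_nonneg_left h5 (by positivity)) hm0
  have hb3 := (mul_le_mul_of_nonneg_left b2 (show (0 : ℝ) ≤ (2 ^ (k - R))⁻¹ by positivity)).trans hb2
  have hb1' := b1.trans hb1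
  have hfin : (1 / 2 : ℝ) ^ s ≤ 4 ^ N * (1 / 2) ^ s := le_mul_of_one_le_left hs0.le hN1
  have hCe : ((m : ℝ) * m + 2) * 4 ^ N * (1 / 2) ^ s = 4 ^ N * (1 / 2) ^ s + 4 ^ N * (1 / 2) ^ s +
      m * m * (4 ^ N * (1 / 2) ^ s) := by ring
  linarith

section
variable {m : ℕ}

open Classical in
/-- the joint law for a part of the chains, with a rate -/
theorem jlaw_sub_eff (T : Finset (Fin m)) : ∃ b : ℕ, ∀ (s k : ℕ), b * (s + 1) ≤ k →
    ∀ {n : Type} [Fintype n] [DecidableEq n] {ni : Fin m → Type} [∀ i, Fintype (ni i)]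
    [∀ i, DecidableEq (ni i)] {ι : ∀ i, ni i → n}, (∀ i, Function.Injective (ι i)) →
    ∀ {t : Fin m → Finset n}, Function.Injective t →
    ∀ {M : ∀ i, Matrix (ni i) (ni i) (ZMod 2)}, (∀ i, (M i).IsSymm) →
    |(avg fun ω : Om n k => ∏ i ∈ T, iJ ι t M i ω) - c2 ^ T.card| ≤
      (m * m + 2) * 4 ^ Fintype.card n * (1 / 2) ^ s := by
  obtain ⟨b, hb⟩ := jlaw_eff T.card
  refine ⟨b, fun s k hk n _ _ ni _ _ ι hι t ht M hM => ?_⟩
  set e : Fin T.card ≃ T := T.equivFin.symm with he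
  have h := hb s k hk (n := n) (ni := fun j => ni (e j)) (ι := fun j => ι (e j))
    (fun j => hι _) (t := fun j => t (e j)) (fun a b hab => by
      have h1 := ht hab
      exact e.injective (Subtype.ext h1)) (M := fun j => M (e j)) (fun j => hM _)
  have h2 : (avg fun ω : Om n k => ∏ i ∈ T, iJ ι t M i ω) =
      avg fun ω : Om n k => ∏ j, iJ (fun j => ι (e j)) (fun j => t (e j)) (fun j => M (e j)) j ω := by
    congr 1
    funext ω
    rw [← Finset.prod_coe_sort T, ← Equiv.prod_comp e]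
    rfl
  rw [h2]
  refine h.trans ?_
  have h3 : (T.card : ℝ) ≤ m := by
    have := Finset.card_le_univ T
    rw [Fintype.card_fin] at this
    exact_mod_cast this
  have h4 : (T.card : ℝ) * T.card ≤ m * m := mul_le_mul h3 h3 (Nat.cast_nonneg _) (Nat.cast_nonneg _)
  gcongr

/-- the weight of a pattern -/
noncomputable def wt {I : Type} [Fintype I] (A : Finset I) : ℝ :=
  c2 ^ A.card * (1 - c2) ^ (Fintype.card I - A.card)

/-- **the joint law of the patterns, with a rate** -/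
theorem jf_pat_eff (m : ℕ) : ∃ b : ℕ, ∀ (s k : ℕ), b * (s + 1) ≤ k →
    ∀ {n : Type} [Fintype n] [DecidableEq n] {ni : Fin m → Type} [∀ i, Fintype (ni i)]
    [∀ i, DecidableEq (ni i)] {ι : ∀ i, ni i → n}, (∀ i, Function.Injective (ι i)) →
    ∀ {t : Fin m → Finset n}, Function.Injective t →
    ∀ {M : ∀ i, Matrix (ni i) (ni i) (ZMod 2)}, (∀ i, (M i).IsSymm) → ∀ A : Finset (Fin m),
    |jf k ι t M (pat A) - wt A| ≤
      2 ^ m * ((m * m + 2) * 4 ^ Fintype.card n * (1 / 2) ^ s) := by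
  choose b hb using fun T : Finset (Fin m) => jlaw_sub_eff T
  refine ⟨∑ T, b T, fun s k hk n _ _ ni _ _ ι hι t ht M hM A => ?_⟩
  have hbT : ∀ T : Finset (Fin m), b T * (s + 1) ≤ k := by
    intro T
    have h1 : b T ≤ ∑ T, b T := Finset.single_le_sum (f := b) (fun _ _ => Nat.zero_le _) (mem_univ T)
    exact (Nat.mul_le_mul_right _ h1).trans hk
  have h1 : jf k ι t M (pat A) = ∑ B ∈ Aᶜ.powerset, (-1) ^ B.card *
      avg fun ω : Om n k => ∏ i ∈ A ∪ B, iJ ι t M i ω := by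
    rw [jf_eq]
    have h2 : ∀ ω : Om n k, pat A (fun i => iJ ι t M i ω) =
        ∑ B ∈ Aᶜ.powerset, (-1) ^ B.card * ∏ i ∈ A ∪ B, iJ ι t M i ω := fun ω => pat_eq A _
    refine Eq.trans (congrArg avg (funext fun ω => h2 ω)) ?_
    rw [avg_sum]
    exact Finset.sum_congr rfl fun B _ => avg_mul _ _
  have h2 : wt A = ∑ B ∈ Aᶜ.powerset, (-1) ^ B.card * c2 ^ (A ∪ B).card := by
    have h3 := pat_eq A fun _ => c2
    unfold pat at h3
    simp only [Finset.prod_const] at h3
    rw [Finset.card_compl, Fintype.card_fin] at h3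
    unfold wt
    rw [Fintype.card_fin]
    exact h3
  rw [h1, h2, ← Finset.sum_sub_distrib]
  refine (Finset.abs_sum_le_sum_abs _ _).trans ?_
  have h3 : ∀ B ∈ Aᶜ.powerset, |(-1) ^ B.card * (avg fun ω : Om n k => ∏ i ∈ A ∪ B, iJ ι t M i ω) -
      (-1) ^ B.card * c2 ^ (A ∪ B).card| ≤ (m * m + 2) * 4 ^ Fintype.card n * (1 / 2) ^ s := by
    intro B _
    rw [← mul_sub, abs_mul, abs_pow, abs_neg, abs_one, one_pow, one_mul]
    exact hb (A ∪ B) s k (hbT _) hι ht hM
  refine (Finset.sum_le_sum h3).trans ?_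
  rw [Finset.sum_const, nsmul_eq_mul]
  refine mul_le_mul_of_nonneg_right ?_ (by positivity)
  have h4 : Aᶜ.powerset.card ≤ 2 ^ m := by
    rw [Finset.card_powerset]
    refine Nat.pow_le_pow_right (by norm_num) ?_
    have := Finset.card_le_univ Aᶜ
    rwa [Fintype.card_fin] at this
  exact_mod_cast h4

end

end Pool.Agent.Q1.PT
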