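import Pool.Agent.Q1.PT.JMain

/-!
# Several chains, general index set; siblings
-/

set_option autoImplicit false

namespace Pool.Agent.Q1.PT

open Finset Module Q283.TW

/-- the mean of `f (b_i)`, where `b_i` is the indicator of the `i`-th matrix after `k` steps -/
noncomputable def jg {I : Type} : (k : ℕ) → {n : Type} → [Fintype n] → [DecidableEq n] →
    {ni : I → Type} → [∀ i, Fintype (ni i)] → [∀ i, DecidableEq (ni i)] →
    (∀ i, ni i → n) → (I → Finset n) → (∀ i, Matrix (ni i) (ni i) (ZMod 2)) →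
    ((I → ℝ) → ℝ) → ℝ
  | 0, _, _, _, _, _, _, _, _, M, f => f fun i => bM (M i)
  | k + 1, n, _, _, ni, _, _, ι, t, M, f => avg fun y : (n → ZMod 2) × ZMod 2 =>
      jg k (n := n ⊕ Unit) (ni := fun i => ni i ⊕ Unit) (fun i => Sum.map (ι i) id)
        (fun i => exT (t i)) (fun i => bord (M i) (y.1 ∘ ι i) (∑ u ∈ t i, y.1 u + y.2)) f

section
variable {I : Type} {n : Type} [Fintype n] [DecidableEq n] {ni : I → Type} [∀ i, Fintype (ni i)]
  [∀ i, DecidableEq (ni i)]

theorem jg_zero (ι : ∀ i, ni i → n) (t : I → Finset n) (M : ∀ i, Matrix (ni i) (ni i) (ZMod 2))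
    (f : (I → ℝ) → ℝ) : jg 0 ι t M f = f fun i => bM (M i) := rfl

theorem jg_succ (k : ℕ) (ι : ∀ i, ni i → n) (t : I → Finset n)
    (M : ∀ i, Matrix (ni i) (ni i) (ZMod 2)) (f : (I → ℝ) → ℝ) :
    jg (k + 1) ι t M f = avg fun y : (n → ZMod 2) × ZMod 2 =>
      jg k (n := n ⊕ Unit) (ni := fun i => ni i ⊕ Unit) (fun i => Sum.map (ι i) id)
        (fun i => exT (t i)) (fun i => bord (M i) (y.1 ∘ ι i) (∑ u ∈ t i, y.1 u + y.2)) f := rfl

end

/-- finite index sets -/
theorem jg_jf {I : Type} {m : ℕ} (e : Fin m ≃ I) (k : ℕ) : ∀ {n : Type} [Fintype n] [DecidableEq n]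
    {ni : I → Type} [∀ i, Fintype (ni i)] [∀ i, DecidableEq (ni i)] (ι : ∀ i, ni i → n)
    (t : I → Finset n) (M : ∀ i, Matrix (ni i) (ni i) (ZMod 2)) (f : (I → ℝ) → ℝ),
    jg k ι t M f = jf k (fun j => ι (e j)) (fun j => t (e j)) (fun j => M (e j))
      fun b => f fun i => b (e.symm i) := by
  induction k with
  | zero =>
    intro n _ _ ni _ _ ι t M f
    rw [jg_zero, jf_zero]
    congr 1
    funext i
    exact (congrArg (fun j => bM (M j)) (e.apply_symm_apply i)).symm
  | succ k ih =>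
    intro n _ _ ni _ _ ι t M f
    rw [jg_succ, jf_succ]
    congr 1
    funext y
    exact ih _ _ _ _

/-- the law does not depend on the names -/
theorem jg_equiv {I : Type} (k : ℕ) : ∀ {n : Type} [Fintype n] [DecidableEq n] {ni : I → Type}
    [∀ i, Fintype (ni i)] [∀ i, DecidableEq (ni i)] {n' : Type} [Fintype n'] [DecidableEq n']
    {ni' : I → Type} [∀ i, Fintype (ni' i)] [∀ i, DecidableEq (ni' i)]
    (e : n ≃ n') (ei : ∀ i, ni i ≃ ni' i) (ι : ∀ i, ni i → n) (ι' : ∀ i, ni' i → n')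
    (_ : ∀ i a, ι' i (ei i a) = e (ι i a)) (t : I → Finset n) (t' : I → Finset n')
    (_ : ∀ i, t' i = (t i).map e.toEmbedding)
    (M' : ∀ i, Matrix (ni' i) (ni' i) (ZMod 2)) (f : (I → ℝ) → ℝ),
    jg k ι t (fun i => (M' i).submatrix (ei i) (ei i)) f = jg k ι' t' M' f := by
  induction k with
  | zero =>
    intro n _ _ ni _ _ n' _ _ ni' _ _ e ei ι ι' hι t t' ht M' f
    rw [jg_zero, jg_zero]
    congr 1
    funext i
    rw [bM, bM, Matrix.det_submatrix_equiv_self]
  | succ k ih =>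
    intro n _ _ ni _ _ n' _ _ ni' _ _ e ei ι ι' hι t t' ht M' f
    rw [jg_succ, jg_succ]
    rw [← avg_equiv ((e.arrowCongr (Equiv.refl (ZMod 2))).prodCongr (Equiv.refl (ZMod 2)))]
    congr 1
    funext y
    have h1 := ih (n := n ⊕ Unit) (ni := fun i => ni i ⊕ Unit) (n' := n' ⊕ Unit)
      (ni' := fun i => ni' i ⊕ Unit) (e.sumCongr (Equiv.refl Unit))
      (fun i => (ei i).sumCongr (Equiv.refl Unit)) (fun i => Sum.map (ι i) id)
      (fun i => Sum.map (ι' i) id) (by
        intro i a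
        rcases a with a | a
        · show Sum.inl (ι' i (ei i a)) = Sum.inl (e (ι i a))
          rw [hι]
        · rfl) (fun i => exT (t i)) (fun i => exT (t' i)) (by
        intro i
        rw [ht]
        ext u
        unfold exT
        rcases u with u | u
        · simp only [Finset.inl_mem_disjSum, Finset.mem_map, Equiv.coe_toEmbedding]
          constructor
          · rintro ⟨a, ha, rfl⟩
            exact ⟨Sum.inl a, Finset.inl_mem_disjSum.2 ha, rfl⟩
          · rintro ⟨a, ha, h⟩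
            rcases a with a | a
            · exact ⟨a, Finset.inl_mem_disjSum.1 ha, Sum.inl_injective h⟩
            · exact absurd h (by simp)
        · simp only [Finset.inr_mem_disjSum, Finset.mem_map, Equiv.coe_toEmbedding]
          constructor
          · intro _
            exact ⟨Sum.inr u, Finset.inr_mem_disjSum.2 (mem_univ _), rfl⟩
          · intro _
            exact mem_univ _)
      (fun i => bord (M' i) (((e.arrowCongr (Equiv.refl (ZMod 2))) y.1) ∘ ι' i)
        (∑ u ∈ t' i, ((e.arrowCongr (Equiv.refl (ZMod 2))) y.1) u + y.2)) f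
    refine Eq.trans ?_ h1
    congr 1
    funext i
    rw [bord_submatrix]
    have e1 : (y.1 ∘ ι i) ∘ (ei i).symm = ((e.arrowCongr (Equiv.refl (ZMod 2))) y.1) ∘ ι' i := by
      funext a
      show y.1 (ι i ((ei i).symm a)) = y.1 (e.symm (ι' i a))
      have h2 := hι i ((ei i).symm a)
      rw [Equiv.apply_symm_apply] at h2
      rw [h2, Equiv.symm_apply_apply]
    have e2 : ∑ u ∈ t i, y.1 u = ∑ u ∈ t' i, ((e.arrowCongr (Equiv.refl (ZMod 2))) y.1) u := by
      rw [ht, Finset.sum_map]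
      refine Finset.sum_congr rfl fun u _ => ?_
      show y.1 u = y.1 (e.symm (e u))
      rw [Equiv.symm_apply_apply]
    rw [e1, e2]

/-! ### siblings -/

/-- the mean of `H` at the indicators of two independent successors of the matrices after `k` steps -/
noncomputable def sq {I : Type} : (k : ℕ) → {n : Type} → [Fintype n] → [DecidableEq n] →
    {ni : I → Type} → [∀ i, Fintype (ni i)] → [∀ i, DecidableEq (ni i)] →
    (∀ i, ni i → n) → (I → Finset n) → (∀ i, Matrix (ni i) (ni i) (ZMod 2)) →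
    ((I × Bool → ℝ) → ℝ) → ℝ
  | 0, n, _, _, _, _, _, ι, t, M, H => avg fun z : Bool → (n → ZMod 2) × ZMod 2 =>
      H fun p => bM (bord (M p.1) ((z p.2).1 ∘ ι p.1) (∑ u ∈ t p.1, (z p.2).1 u + (z p.2).2))
  | k + 1, n, _, _, ni, _, _, ι, t, M, H => avg fun y : (n → ZMod 2) × ZMod 2 =>
      sq k (n := n ⊕ Unit) (ni := fun i => ni i ⊕ Unit) (fun i => Sum.map (ι i) id)
        (fun i => exT (t i)) (fun i => bord (M i) (y.1 ∘ ι i) (∑ u ∈ t i, y.1 u + y.2)) H

section
variable {I : Type} {n : Type} [Fintype n] [DecidableEq n] {ni : I → Type} [∀ i, Fintype (ni i)]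
  [∀ i, DecidableEq (ni i)]

theorem sq_zero (ι : ∀ i, ni i → n) (t : I → Finset n) (M : ∀ i, Matrix (ni i) (ni i) (ZMod 2))
    (H : (I × Bool → ℝ) → ℝ) : sq 0 ι t M H = avg fun z : Bool → (n → ZMod 2) × ZMod 2 =>
      H fun p => bM (bord (M p.1) ((z p.2).1 ∘ ι p.1) (∑ u ∈ t p.1, (z p.2).1 u + (z p.2).2)) := rfl

theorem sq_succ (k : ℕ) (ι : ∀ i, ni i → n) (t : I → Finset n)
    (M : ∀ i, Matrix (ni i) (ni i) (ZMod 2)) (H : (I × Bool → ℝ) → ℝ) :
    sq (k + 1) ι t M H = avg fun y : (n → ZMod 2) × ZMod 2 =>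
      sq k (n := n ⊕ Unit) (ni := fun i => ni i ⊕ Unit) (fun i => Sum.map (ι i) id)
        (fun i => exT (t i)) (fun i => bord (M i) (y.1 ∘ ι i) (∑ u ∈ t i, y.1 u + y.2)) H := rfl

/-- exchange of the last two vertices -/
def sw2 (a b c : Type) : (a ⊕ b) ⊕ c ≃ (a ⊕ c) ⊕ b where
  toFun := Sum.elim (Sum.elim (fun x => Sum.inl (Sum.inl x)) fun y => Sum.inr y)
    fun z => Sum.inl (Sum.inr z)
  invFun := Sum.elim (Sum.elim (fun x => Sum.inl (Sum.inl x)) fun y => Sum.inr y)
    fun z => Sum.inl (Sum.inr z)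
  left_inv := by rintro ((x | y) | z) <;> rfl
  right_inv := by rintro ((x | y) | z) <;> rfl

/-- exchange of the order of the borderings -/
theorem bord_swap {a : Type} [Fintype a] [DecidableEq a] (M : Matrix a a (ZMod 2)) (w z : a → ZMod 2)
    (dw dz α : ZMod 2) :
    bord (bord M w dw) (Sum.elim z fun _ => α) (dz + α) =
      (bord (bord M z dz) (Sum.elim w fun _ => α) (dw + α)).submatrix (sw2 a Unit Unit)
        (sw2 a Unit Unit) := by
  ext p q
  rw [Matrix.submatrix_apply]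
  unfold bord
  rcases p with (p | p) | p <;> rcases q with (q | q) | q
  · show (M + Matrix.diagonal w) p q + Matrix.diagonal (Sum.elim z fun _ => α) (Sum.inl p) (Sum.inl q) =
      (M + Matrix.diagonal z) p q + Matrix.diagonal (Sum.elim w fun _ => α) (Sum.inl p) (Sum.inl q)
    rw [Matrix.add_apply, Matrix.add_apply, Matrix.diagonal_apply, Matrix.diagonal_apply,
      Matrix.diagonal_apply, Matrix.diagonal_apply]
    by_cases h : p = q
    · subst h
      rw [if_pos rfl, if_pos rfl, if_pos rfl, if_pos rfl, Sum.elim_inl, Sum.elim_inl]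
      ring
    · have h' : (Sum.inl p : a ⊕ Unit) ≠ Sum.inl q := fun h' => h (Sum.inl_injective h')
      rw [if_neg h, if_neg h, if_neg h', if_neg h']
  · show w p + Matrix.diagonal (Sum.elim z fun _ => α) (Sum.inl p) (Sum.inr q) = w p
    rw [Matrix.diagonal_apply, if_neg Sum.inl_ne_inr, add_zero]
  · show z p = z p + Matrix.diagonal (Sum.elim w fun _ => α) (Sum.inl p) (Sum.inr q)
    rw [Matrix.diagonal_apply, if_neg Sum.inl_ne_inr, add_zero]
  · show w q + Matrix.diagonal (Sum.elim z fun _ => α) (Sum.inr p) (Sum.inl q) = w q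
    rw [Matrix.diagonal_apply, if_neg Sum.inr_ne_inl, add_zero]
  · show dw + Matrix.diagonal (Sum.elim z fun _ => α) (Sum.inr p) (Sum.inr q) = dw + α
    rw [Matrix.diagonal_apply, if_pos rfl, Sum.elim_inr]
  · rfl
  · show z q = z q + Matrix.diagonal (Sum.elim w fun _ => α) (Sum.inr p) (Sum.inl q)
    rw [Matrix.diagonal_apply, if_neg Sum.inr_ne_inl, add_zero]
  · rfl
  · show dz + α = dz + Matrix.diagonal (Sum.elim w fun _ => α) (Sum.inr p) (Sum.inr q)
    rw [Matrix.diagonal_apply, if_pos rfl, Sum.elim_inr]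

end

/-- the change of the parameters -/
def exch (n : Type) : (((n → ZMod 2) × ZMod 2) × (Bool → (n ⊕ Unit → ZMod 2) × ZMod 2)) ≃
    ((Bool → (n → ZMod 2) × ZMod 2) × ((n ⊕ Bool → ZMod 2) × ZMod 2)) where
  toFun p := (fun b => ((p.2 b).1 ∘ Sum.inl, (p.2 b).2),
    (Sum.elim p.1.1 fun b => (p.2 b).1 (Sum.inr ()), p.1.2))
  invFun q := ((q.2.1 ∘ Sum.inl, q.2.2),
    fun b => (Sum.elim (q.1 b).1 fun _ => q.2.1 (Sum.inr b), (q.1 b).2))
  left_inv p := by
    refine Prod.ext rfl ?_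
    funext b
    refine Prod.ext ?_ rfl
    funext u
    rcases u with u | u <;> rfl
  right_inv q := by
    refine Prod.ext rfl (Prod.ext ?_ rfl)
    funext u
    rcases u with u | u <;> rfl

theorem avg_prod2 {α β : Type} [Fintype α] [Fintype β] (f : α → β → ℝ) :
    (avg fun a => avg fun b => f a b) = avg fun p : α × β => f p.1 p.2 :=
  (avg_prod fun p : α × β => f p.1 p.2).symm

/-- **siblings as chains with other start matrices** -/
theorem sq_eq {I : Type} (k : ℕ) : ∀ {n : Type} [Fintype n] [DecidableEq n] {ni : I → Type}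
    [∀ i, Fintype (ni i)] [∀ i, DecidableEq (ni i)] (ι : ∀ i, ni i → n) (t : I → Finset n)
    (M : ∀ i, Matrix (ni i) (ni i) (ZMod 2)) (H : (I × Bool → ℝ) → ℝ),
    sq k ι t M H = avg fun z : Bool → (n → ZMod 2) × ZMod 2 =>
      jg k (I := I × Bool) (n := n ⊕ Bool) (ni := fun p => ni p.1 ⊕ Unit)
        (fun p => Sum.map (ι p.1) fun _ => p.2) (fun p => (t p.1).disjSum {p.2})
        (fun p => bord (M p.1) ((z p.2).1 ∘ ι p.1) (∑ u ∈ t p.1, (z p.2).1 u + (z p.2).2)) H := by
  induction k with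
  | zero =>
    intro n _ _ ni _ _ ι t M H
    rfl
  | succ k ih =>
    intro n _ _ ni _ _ ι t M H
    rw [sq_succ]
    have h1 : ∀ y : (n → ZMod 2) × ZMod 2, sq k (n := n ⊕ Unit) (ni := fun i => ni i ⊕ Unit)
        (fun i => Sum.map (ι i) id) (fun i => exT (t i))
        (fun i => bord (M i) (y.1 ∘ ι i) (∑ u ∈ t i, y.1 u + y.2)) H = _ := fun y => ih _ _ _ _
    simp_rw [h1]
    simp_rw [jg_succ]
    rw [avg_prod2, avg_prod2, ← avg_equiv (exch n)]
    congr 1
    funext p
    obtain ⟨⟨w, w2⟩, z⟩ := p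
    have h2 := jg_equiv (I := I × Bool) k (n := (n ⊕ Unit) ⊕ Bool) (n' := (n ⊕ Bool) ⊕ Unit)
      (ni := fun p => (ni p.1 ⊕ Unit) ⊕ Unit) (ni' := fun p => (ni p.1 ⊕ Unit) ⊕ Unit)
      (sw2 n Unit Bool) (fun p => sw2 (ni p.1) Unit Unit)
      (fun p => Sum.map (Sum.map (ι p.1) id) fun _ => p.2)
      (fun p => Sum.map (Sum.map (ι p.1) fun _ => p.2) id) (by
        rintro i ((a | a) | a) <;> rfl)
      (fun p => (exT (t p.1)).disjSum {p.2}) (fun p => exT ((t p.1).disjSum {p.2})) (by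
        intro p
        ext u
        unfold exT
        simp only [Finset.mem_map, Equiv.coe_toEmbedding]
        constructor
        · intro hu
          rcases u with (u | u) | u
          · exact ⟨Sum.inl (Sum.inl u), Finset.inl_mem_disjSum.2 (Finset.inl_mem_disjSum.2
              (Finset.inl_mem_disjSum.1 (Finset.inl_mem_disjSum.1 hu))), rfl⟩
          · exact ⟨Sum.inr u, Finset.inr_mem_disjSum.2
              (Finset.inr_mem_disjSum.1 (Finset.inl_mem_disjSum.1 hu)), rfl⟩
          · exact ⟨Sum.inl (Sum.inr u), Finset.inl_mem_disjSum.2 (Finset.inr_mem_disjSum.2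
              (mem_univ _)), rfl⟩
        · rintro ⟨v, hv, rfl⟩
          rcases v with (v | v) | v
          · exact Finset.inl_mem_disjSum.2 (Finset.inl_mem_disjSum.2
              (Finset.inl_mem_disjSum.1 (Finset.inl_mem_disjSum.1 hv)))
          · exact Finset.inr_mem_disjSum.2 (mem_univ _)
          · exact Finset.inl_mem_disjSum.2 (Finset.inr_mem_disjSum.2
              (Finset.inr_mem_disjSum.1 hv)))
      (fun p => bord (bord (M p.1) (((z p.2).1 ∘ Sum.inl) ∘ ι p.1)
        (∑ u ∈ t p.1, ((z p.2).1 ∘ Sum.inl) u + (z p.2).2))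
        ((Sum.elim w fun b => (z b).1 (Sum.inr ())) ∘ Sum.map (ι p.1) fun _ => p.2)
        (∑ u ∈ (t p.1).disjSum {p.2}, (Sum.elim w fun b => (z b).1 (Sum.inr ())) u + w2)) H
    refine Eq.trans ?_ h2
    congr 1
    funext p
    have e1 : (((Sum.elim w fun b => (z b).1 (Sum.inr ())) ∘ Sum.map (ι p.1) fun _ => p.2) :
        ni p.1 ⊕ Unit → ZMod 2) = Sum.elim (w ∘ ι p.1) fun _ => (z p.2).1 (Sum.inr ()) := by
      funext u
      rcases u with u | u <;> rfl
    have e2 : ∑ u ∈ (t p.1).disjSum {p.2}, (Sum.elim w fun b => (z b).1 (Sum.inr ())) u + w2 =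
        (∑ u ∈ t p.1, w u + w2) + (z p.2).1 (Sum.inr ()) := by
      rw [Finset.sum_disjSum, Finset.sum_singleton]
      simp only [Sum.elim_inl, Sum.elim_inr]
      ring
    have e3 : ((z p.2).1 ∘ Sum.map (ι p.1) id : ni p.1 ⊕ Unit → ZMod 2) =
        Sum.elim (((z p.2).1 ∘ Sum.inl) ∘ ι p.1) fun _ => (z p.2).1 (Sum.inr ()) := by
      funext u
      rcases u with u | u <;> rfl
    have e4 : ∑ u ∈ exT (t p.1), (z p.2).1 u + (z p.2).2 =
        (∑ u ∈ t p.1, ((z p.2).1 ∘ Sum.inl) u + (z p.2).2) + (z p.2).1 (Sum.inr ()) := by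
      rw [sum_exT]
      simp only [Function.comp]
      ring
    rw [e1, e2, ← bord_swap, ← e3, ← e4]

end Pool.Agent.Q1.PT
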