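import Pool.Agent.Q1.PT.JPrime

/-!
# Iterated means and the joint law of several chains
-/

set_option autoImplicit false

namespace Pool.Agent.Q1.PT

open Finset Filter Topology Q283.TW
open Pool.Agent.Y687.MQ (matD SP IP AdmD)

section
variable {m : ℕ}

open Classical in
/-- the indicators -/
noncomputable def gd (G : ℤ → Prop) (D : Fin m → ℤ) (l : List ℕ) (i : Fin m) : ℝ :=
  if G (D i * (l.prod : ℕ)) then 1 else 0

theorem gd_cons (G : ℤ → Prop) (D : Fin m → ℤ) (p : ℕ) (l : List ℕ) :
    gd G (fun i => D i * (p : ℤ)) l = gd G D (p :: l) := by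
  funext i
  unfold gd
  rw [List.prod_cons]
  push_cast
  rw [mul_assoc]

open Classical in
/-- **iterated means of the functions of the indicators** -/
theorem iter_jf (IM : ℕ → ℕ → (List ℕ → ℝ) → ℝ → Prop)
    (h0 : ∀ (N : ℕ) (F : List ℕ → ℝ) (c : ℝ), c = F [] → IM 0 N F c)
    (hs : ∀ (k N : ℕ) (F : List ℕ → ℝ) (c : ℝ) (g : ℕ → ℝ),
      (∀ p : ℕ, Spl p → ¬ p ∣ N → IM k (N * p) (fun l => F (p :: l)) (g p)) →
      Tendsto (fun X : ℕ => (∑ p ∈ (range (X + 1)).filter fun p => Spl p ∧ ¬ p ∣ N, g p) /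
        (((range (X + 1)).filter fun p => Spl p).card : ℝ)) atTop (𝓝 c) → IM (k + 1) N F c)
    (G : ℤ → Prop) (hG : ∀ M : ℤ, AdmD M → M ≠ 1 → (G M ↔ (matD M).det ≠ 0))
    (f : (Fin m → ℝ) → ℝ) (k : ℕ) :
    ∀ (N : ℕ) (R : Finset ℕ), N ≠ 0 → R = N.primeFactors → (∀ r ∈ R, r.Prime ∧ r ≠ 2 ∧ r ≠ 7) →
      ∀ (D : Fin m → ℤ) (hD : ∀ i, (D i).natAbs.primeFactors ⊆ R), (∀ i, AdmD (D i)) →
      (k = 0 → ∀ i, D i ≠ 1) →
      IM k N (fun l => f (gd G D l)) (jf k (iR D hD) (tR R D) (fun i => matD (D i)) f) := by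
  induction k with
  | zero =>
    intro N R hN hNR hR D hD hA h1
    refine h0 _ _ _ ?_
    rw [jf_zero]
    congr 1
    funext i
    unfold gd bM
    rw [List.prod_nil, Nat.cast_one, mul_one]
    exact (if_congr (hG _ (hA i) (h1 rfl i)) rfl rfl).symm
  | succ k ih =>
    intro N R hN hNR hR D hD hA _
    have hsp : ∀ p : ℕ, Spl p → (¬ p ∣ N ↔ p ∉ R) := by
      intro p hp
      rw [hNR, Nat.mem_primeFactors]
      exact ⟨fun h h' => h h'.2.1, fun h h' => h ⟨hp.1, h', hN⟩⟩
    refine hs k N _ _ (fun p => if h : Spl p ∧ p ∉ R then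
      jf k (iR (fun i => D i * (p : ℤ)) (sub_insert hD (fun i => (hA i).1.ne_zero) h.1))
        (tR (insert p R) fun i => D i * (p : ℤ)) (fun i => matD (D i * (p : ℤ))) f else 0) ?_ ?_
    · intro p hp hpN
      have hpR : p ∉ R := (hsp p hp).1 hpN
      have h2 := ih (N * p) (insert p R) (mul_ne_zero hN hp.1.ne_zero)
        (by rw [Nat.primeFactors_mul hN hp.1.ne_zero, ← hNR, hp.1.primeFactors, Finset.union_comm]; rfl)
        (by
          intro r hr
          rcases Finset.mem_insert.1 hr with rfl | hr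
          · refine ⟨hp.1, ?_, ?_⟩
            · rintro rfl
              have := hp.2.1
              omega
            · rintro rfl
              have := hp.2.1
              omega
          · exact hR r hr)
        (fun i => D i * (p : ℤ)) (sub_insert hD (fun i => (hA i).1.ne_zero) hp)
        (fun i => admD_mul (hA i) hp fun h => hpR (hD i h)) (fun _ i h => by
          have h3 : (p : ℤ) ∣ 1 := ⟨D i, by rw [← h]; ring⟩
          have h4 : p ∣ 1 := by exact_mod_cast h3
          exact hp.1.one_lt.ne' (Nat.dvd_one.1 h4))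
      rw [dif_pos ⟨hp, hpR⟩]
      have h3 : (fun l => f (gd G (fun i => D i * (p : ℤ)) l)) = fun l => f (gd G D (p :: l)) := by
        funext l
        rw [gd_cons]
      rw [h3] at h2
      exact h2
    · have h2 := jf_mean hR hD hA k f (fun p => if h : Spl p ∧ p ∉ R then
        jf k (iR (fun i => D i * (p : ℤ)) (sub_insert hD (fun i => (hA i).1.ne_zero) h.1))
          (tR (insert p R) fun i => D i * (p : ℤ)) (fun i => matD (D i * (p : ℤ))) f else 0)
        (fun p hp hpR => dif_pos ⟨hp, hpR⟩)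
      refine h2.congr fun X => ?_
      congr 1
      refine Finset.sum_congr (Finset.ext fun p => ?_) fun _ _ => rfl
      rw [Finset.mem_filter, Finset.mem_filter]
      exact and_congr_right fun _ => and_congr_right fun hp => (hsp p hp).symm

/-- the discriminants are determined by the prime factors -/
theorem tR_inj {R : Finset ℕ} {D : Fin m → ℤ} (hD : ∀ i, (D i).natAbs.primeFactors ⊆ R)
    (hA : ∀ i, AdmD (D i)) (hinj : Function.Injective D) : Function.Injective (tR R D) := by
  intro i j h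
  have h1 : (D i).natAbs.primeFactors = (D j).natAbs.primeFactors := by
    ext r
    constructor
    · intro hr
      have h2 : (⟨r, hD i hr⟩ : R) ∈ tR R D i := Finset.mem_filter.2 ⟨mem_univ _, hr⟩
      rw [h] at h2
      exact (Finset.mem_filter.1 h2).2
    · intro hr
      have h2 : (⟨r, hD j hr⟩ : R) ∈ tR R D j := Finset.mem_filter.2 ⟨mem_univ _, hr⟩
      rw [← h] at h2
      exact (Finset.mem_filter.1 h2).2
  have h2 : (D i).natAbs = (D j).natAbs := by
    rw [← Nat.prod_primeFactors_of_squarefree (Int.squarefree_natAbs.2 (hA i).1),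
      ← Nat.prod_primeFactors_of_squarefree (Int.squarefree_natAbs.2 (hA j).1), h1]
  have h3 : D i = D j ∨ D i = -D j := Int.natAbs_eq_natAbs_iff.1 h2
  rcases h3 with h3 | h3
  · exact hinj h3
  · exfalso
    have h4 : D i % 4 = 1 := (hA i).2.1
    have h5 : D j % 4 = 1 := (hA j).2.1
    omega

open Classical in
/-- the pattern as a product of indicators -/
theorem pat_gd (G : ℤ → Prop) (D : Fin m → ℤ) (A : Finset (Fin m)) (l : List ℕ) :
    pat A (gd G D l) = if (∀ i, G (D i * (l.prod : ℕ)) ↔ i ∈ A) then 1 else 0 := by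
  unfold pat gd
  by_cases h : ∀ i, G (D i * (l.prod : ℕ)) ↔ i ∈ A
  · rw [if_pos h, Finset.prod_eq_one, Finset.prod_eq_one, mul_one]
    · intro i hi
      rw [if_neg fun h' => (Finset.mem_compl.1 hi) ((h i).1 h'), sub_zero]
    · intro i hi
      rw [if_pos ((h i).2 hi)]
  · rw [if_neg h]
    push Not at h
    obtain ⟨i, hi⟩ := h
    rcases hi with ⟨h1, h2⟩ | ⟨h1, h2⟩
    · refine mul_eq_zero_of_right _ (Finset.prod_eq_zero (Finset.mem_compl.2 h2) ?_)
      rw [if_pos h1, sub_self]
    · exact mul_eq_zero_of_left (Finset.prod_eq_zero h2 (if_neg h1)) _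

end

end Pool.Agent.Q1.PT
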