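import Pool.Agent.Q1.PT.Jnt

/-!
# The joint law of several chains of borderings
-/

set_option autoImplicit false

namespace Pool.Agent.Q1.PT

open Finset Module Q283.TW
open Pool.Agent.Y697.PP (Sy Nd YY mem_YY)
open Pool.Agent.Y697.PQ (JJ mem_JJ)
open Pool.Agent.Y703.CQ (c2)

section emb
variable {n a : Type} [Fintype n] [DecidableEq n] [Fintype a] [DecidableEq a]

open Classical in
/-- the matrix on the larger set, the identity outside -/
noncomputable def eM (ι : a → n) (M : Matrix a a (ZMod 2)) : Matrix n n (ZMod 2) := fun u v =>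
  if h : (∃ x, ι x = u) ∧ ∃ y, ι y = v then M h.1.choose h.2.choose
  else if u = v then 1 else 0

open Classical in
/-- the labels on the larger set, zero outside -/
noncomputable def eC (ι : a → n) {k : ℕ} (C : Fin k → n → ZMod 2) (l : Fin k) (u : n) : ZMod 2 :=
  if ∃ x, ι x = u then C l u else 0

theorem eM_apply {ι : a → n} (hι : Function.Injective ι) (M : Matrix a a (ZMod 2)) (x y : a) :
    eM ι M (ι x) (ι y) = M x y := by
  unfold eM
  have h : (∃ x', ι x' = ι x) ∧ ∃ y', ι y' = ι y := ⟨⟨x, rfl⟩, ⟨y, rfl⟩⟩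
  rw [dif_pos h]
  rw [hι h.1.choose_spec, hι h.2.choose_spec]

theorem eM_out {ι : a → n} (M : Matrix a a (ZMod 2)) {u : n} (hu : ¬ ∃ x, ι x = u) (v : n) :
    eM ι M u v = if u = v then 1 else 0 := by
  unfold eM
  rw [dif_neg fun h => hu h.1]

theorem eM_out' {ι : a → n} (M : Matrix a a (ZMod 2)) {v : n} (hv : ¬ ∃ x, ι x = v) (u : n) :
    eM ι M u v = if u = v then 1 else 0 := by
  unfold eM
  rw [dif_neg fun h => hv h.2]

theorem eM_symm {ι : a → n} (hι : Function.Injective ι) {M : Matrix a a (ZMod 2)} (hM : M.IsSymm) :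
    (eM ι M).IsSymm := by
  ext u v
  rw [Matrix.transpose_apply]
  by_cases hu : ∃ x, ι x = u
  · by_cases hv : ∃ y, ι y = v
    · obtain ⟨x, rfl⟩ := hu
      obtain ⟨y, rfl⟩ := hv
      rw [eM_apply hι, eM_apply hι]
      exact hM.apply _ _
    · rw [eM_out M hv, eM_out' M hv]
      by_cases h : v = u
      · rw [if_pos h, if_pos h.symm]
      · rw [if_neg h, if_neg (Ne.symm h)]
  · rw [eM_out M hu, eM_out' M hu]
    by_cases h : v = u
    · rw [if_pos h, if_pos h.symm]
    · rw [if_neg h, if_neg (Ne.symm h)]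

theorem eC_apply {ι : a → n} {k : ℕ} (C : Fin k → n → ZMod 2) (l : Fin k) (x : a) :
    eC ι C l (ι x) = C l (ι x) := if_pos ⟨x, rfl⟩

theorem eC_out {ι : a → n} {k : ℕ} (C : Fin k → n → ZMod 2) (l : Fin k) {u : n}
    (hu : ¬ ∃ x, ι x = u) : eC ι C l u = 0 := if_neg hu

theorem sum_emb {ι : a → n} (hι : Function.Injective ι) (g : n → ZMod 2)
    (hg : ∀ u, (¬ ∃ x, ι x = u) → g u = 0) : ∑ u, g u = ∑ x, g (ι x) := by
  have h := Finset.sum_map univ (⟨ι, hι⟩ : a ↪ n) g
  refine Eq.trans ?_ h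
  symm
  refine Finset.sum_subset (Finset.subset_univ _) fun u _ hu => hg u fun h => hu ?_
  obtain ⟨x, rfl⟩ := h
  exact Finset.mem_map.2 ⟨x, mem_univ _, rfl⟩

open Classical in
/-- the kernels are the same -/
theorem nf_emb {ι : a → n} (hι : Function.Injective ι) {k : ℕ} (M : Matrix a a (ZMod 2))
    (C : Fin k → n → ZMod 2) (e : Fin k → ZMod 2) (s : Fin k → Fin k → ZMod 2) :
    Nf (eM ι M) (eC ι C) e s ↔ Nf M (fun l x => C l (ι x)) e s := by
  have row1 : ∀ (x : n → ZMod 2) (y : Fin k → ZMod 2) (b : a), (∀ u, (¬ ∃ x, ι x = u) → x u = 0) →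
      ∑ v, eM ι M (ι b) v * x v + ∑ l, eC ι C l (ι b) * (y l + x (ι b)) =
      ∑ v, M b v * x (ι v) + ∑ l, C l (ι b) * (y l + x (ι b)) := by
    intro x y b hx
    rw [sum_emb hι (fun v => eM ι M (ι b) v * x v) fun u hu => by rw [hx u hu, mul_zero]]
    simp only [eM_apply hι, eC_apply]
  have row2 : ∀ (x : n → ZMod 2) (y : Fin k → ZMod 2) (j : Fin k), (∀ u, (¬ ∃ x, ι x = u) → x u = 0) →
      ∑ u, eC ι C j u * (x u + y j) = ∑ u, C j (ι u) * (x (ι u) + y j) := by
    intro x y j hx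
    rw [sum_emb hι (fun u => eC ι C j u * (x u + y j)) fun u hu => by rw [eC_out C j hu, zero_mul]]
    simp only [eC_apply]
  constructor
  · intro h x y h1 h2
    have hxa : ∀ b, (if h : ∃ c, ι c = ι b then x h.choose else 0) = x b := by
      intro b
      have h' : ∃ c, ι c = ι b := ⟨b, rfl⟩
      rw [dif_pos h', hι h'.choose_spec]
    have hx0 : ∀ u, (¬ ∃ x, ι x = u) → (if h : ∃ c, ι c = u then x h.choose else 0) = 0 := fun u hu =>
      dif_neg hu
    have h3 := h (fun u => if h : ∃ c, ι c = u then x h.choose else 0) y (fun u => ?_) (fun j => ?_)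
    · refine ⟨funext fun b => ?_, h3.2⟩
      rw [← hxa b]
      exact congrFun h3.1 (ι b)
    · by_cases hu : ∃ c, ι c = u
      · obtain ⟨b, rfl⟩ := hu
        rw [row1 _ y b hx0]
        simp only [hxa]
        exact h1 b
      · have e1 : ∑ v, eM ι M u v * (if h : ∃ c, ι c = v then x h.choose else 0) = 0 := by
          refine Finset.sum_eq_zero fun v _ => ?_
          rw [eM_out M hu]
          by_cases huv : u = v
          · subst huv
            rw [dif_neg hu, mul_zero]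
          · rw [if_neg huv, zero_mul]
        have e2 : ∑ l, eC ι C l u * (y l + (if h : ∃ c, ι c = u then x h.choose else 0)) = 0 :=
          Finset.sum_eq_zero fun l _ => by rw [eC_out C l hu, zero_mul]
        rw [e1, e2, add_zero]
    · rw [row2 _ y j hx0]
      simp only [hxa]
      exact h2 j
  · intro h x y h1 h2
    have hx0 : ∀ u, (¬ ∃ c, ι c = u) → x u = 0 := by
      intro u hu
      have h3 := h1 u
      have e1 : ∑ v, eM ι M u v * x v = x u := by
        rw [Finset.sum_eq_single u]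
        · rw [eM_out M hu, if_pos rfl, one_mul]
        · intro v _ hv
          rw [eM_out M hu, if_neg (Ne.symm hv), zero_mul]
        · intro h'
          exact absurd (mem_univ _) h'
      have e2 : ∑ l, eC ι C l u * (y l + x u) = 0 :=
        Finset.sum_eq_zero fun l _ => by rw [eC_out C l hu, zero_mul]
      rw [e1, e2, add_zero] at h3
      exact h3
    have h3 := h (fun b => x (ι b)) y (fun b => ?_) (fun j => ?_)
    · refine ⟨funext fun u => ?_, h3.2⟩
      by_cases hu : ∃ c, ι c = u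
      · obtain ⟨b, rfl⟩ := hu
        exact congrFun h3.1 b
      · exact hx0 u hu
    · rw [← row1 x y b hx0]
      exact h1 (ι b)
    · rw [← row2 x y j hx0]
      exact h2 j

end emb

section
variable {m : ℕ} {n : Type} [Fintype n] [DecidableEq n] {ni : Fin m → Type} [∀ i, Fintype (ni i)]
  [∀ i, DecidableEq (ni i)] {k : ℕ}

/-- the parameters of the `i`-th chain, on the common set -/
noncomputable def prt (ι : ∀ i, ni i → n) (t : Fin m → Finset n) (i : Fin m) (ω : Om n k) : Om n k :=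
  (eC (ι i) ω.1, (par ι t i ω).2.1, ω.2.2)

theorem prt_iff {ι : ∀ i, ni i → n} (hι : ∀ i, Function.Injective (ι i)) (t : Fin m → Finset n)
    (M : ∀ i, Matrix (ni i) (ni i) (ZMod 2)) (i : Fin m) (ω : Om n k) :
    Nf (M i) (par ι t i ω).1 (par ι t i ω).2.1 (par ι t i ω).2.2 ↔
      Nd (BF (eM (ι i) (M i)) (prt ι t i ω)) ⊤ := by
  rw [nd_top]
  exact (nf_emb (hι i) (M i) ω.1 _ _).symm

theorem prt_shift (ι : ∀ i, ni i → n) (t : Fin m → Finset n) (i : Fin m) (ω h : Om n k) :
    prt ι t i (ω + rho n univ h) = prt ι t i ω + rho n univ h := by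
  refine Prod.ext ?_ (Prod.ext ?_ ?_)
  · funext l u
    show eC (ι i) (ω.1 + 0) l u = eC (ι i) ω.1 l u + 0
    rw [add_zero, add_zero]
  · funext l
    show (ω.2.1 l + (rho n univ h).2.1 l) + ∑ u ∈ t i, (ω.1 l u + 0) + ∑ u, (ω.1 l (ι i u) + 0) =
      (ω.2.1 l + ∑ u ∈ t i, ω.1 l u + ∑ u, ω.1 l (ι i u)) + (rho n univ h).2.1 l
    simp only [add_zero]
    ring
  · rfl

theorem prt_nd {ι : ∀ i, ni i → n} {t : Fin m → Finset n}
    {M : ∀ i, Matrix (ni i) (ni i) (ZMod 2)} {ω : Om n k} (h : ¬ Bad1 univ ω) (i : Fin m) :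
    Nd (BF (eM (ι i) (M i)) (prt ι t i ω)) (WK n univ) := by
  intro z hz h0
  by_contra hne
  refine h ⟨z, hz, hne, fun l hl => ?_⟩
  obtain ⟨h1, h2⟩ := (BF_zero_iff _ _ z).1 h0
  have hz2 : ∀ l, z.2 l = 0 := fun l => hz l (mem_univ _)
  have hx0 : ∀ u, (¬ ∃ c, ι i c = u) → z.1 u = 0 := by
    intro u hu
    have h3 := h1 u
    unfold r1 at h3
    have e1 : ∑ v, eM (ι i) (M i) u v * z.1 v = z.1 u := by
      rw [Finset.sum_eq_single u]
      · rw [eM_out _ hu, if_pos rfl, one_mul]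
      · intro v _ hv
        rw [eM_out _ hu, if_neg (Ne.symm hv), zero_mul]
      · intro h'
        exact absurd (mem_univ _) h'
    have e2 : ∑ l, (prt ι t i ω).1 l u * (z.2 l + z.1 u) = 0 :=
      Finset.sum_eq_zero fun l _ => by
        show eC (ι i) ω.1 l u * _ = 0
        rw [eC_out _ l hu, zero_mul]
    rw [e1, e2, add_zero] at h3
    exact h3
  have h3 := h2 l
  unfold r2 at h3 ⊢
  simp only [hz2, add_zero, mul_zero, Finset.sum_const_zero] at h3 ⊢
  refine Eq.trans ?_ h3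
  refine Finset.sum_congr rfl fun u _ => ?_
  show ω.1 l u * z.1 u = eC (ι i) ω.1 l u * z.1 u
  by_cases hu : ∃ c, ι i c = u
  · obtain ⟨c, rfl⟩ := hu
    rw [eC_apply]
  · rw [hx0 u hu, mul_zero, mul_zero]

open Classical in
/-- the coefficients of the conditions -/
noncomputable def cf1 (ι : ∀ i, ni i → n) (t : Fin m → Finset n) (i j : Fin m) (x x' : n → ZMod 2)
    (c : ZMod 2) (u : n) : ZMod 2 :=
  (if ∃ b, ι i b = u then x u else 0) + (if ∃ b, ι j b = u then x' u else 0) +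
    c * ((if u ∈ t i then 1 else 0) + if u ∈ t j then 1 else 0)

/-- the conditions -/
def cdJ (ι : ∀ i, ni i → n) (t : Fin m → Finset n) (i j : Fin m) (x x' : n → ZMod 2)
    (y : Fin k → ZMod 2) (ω : Om n k) : Prop :=
  ∀ l, ∑ u, ω.1 l u * cf1 ι t i j x x' (y l) u = 0

theorem jj_sub' {ι : ∀ i, ni i → n} (hι : ∀ i, Function.Injective (ι i)) {t : Fin m → Finset n}
    {M : ∀ i, Matrix (ni i) (ni i) (ZMod 2)} {i j : Fin m} {ω : Om n k} {p q : VV n k}
    (h : (p, q) ∈ JJ (BF (eM (ι i) (M i)) (prt ι t i ω)) (BF (eM (ι j) (M j)) (prt ι t j ω))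
      (WK n univ)) : cdJ ι t i j p.1 q.1 q.2 ω ∧ p.2 = q.2 := by
  classical
  obtain ⟨h1, h2, -⟩ := mem_JJ.1 h
  have e1 : ∀ l, p.2 l = q.2 l := by
    intro l
    have h4 : p.2 l + q.2 l = 0 := h1 l (mem_univ _)
    have key : ∀ a b : ZMod 2, a + b = 0 → a = b := by decide
    exact key _ _ h4
  have e1' : p.2 = q.2 := funext e1
  refine ⟨fun l => ?_, e1'⟩
  have h4 := LinearMap.congr_fun h2 (0, Pi.single l 1)
  have h5 : BF (eM (ι i) (M i)) (prt ι t i ω) p (0, Pi.single l 1) =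
    BF (eM (ι j) (M j)) (prt ι t j ω) q (0, Pi.single l 1) := h4
  rw [BF_row2, BF_row2] at h5
  unfold r2 at h5
  rw [e1'] at h5
  have hexp : ∀ (i : Fin m) (x : n → ZMod 2) (c : ZMod 2),
      ∑ u, (prt ι t i ω).1 l u * (x u + c) + (prt ι t i ω).2.1 l * c =
      ∑ u, ω.1 l u * (if ∃ b, ι i b = u then x u else 0) +
        c * (∑ u, ω.1 l u * (if u ∈ t i then 1 else 0)) + ω.2.1 l * c := by
    intro i x c
    have f1 : ∑ u, (prt ι t i ω).1 l u * (x u + c) =
        ∑ u, ω.1 l u * (if ∃ b, ι i b = u then x u else 0) + (∑ b, ω.1 l (ι i b)) * c := by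
      have f2 : ∀ u, (prt ι t i ω).1 l u * (x u + c) =
          ω.1 l u * (if ∃ b, ι i b = u then x u else 0) + eC (ι i) ω.1 l u * c := by
        intro u
        show eC (ι i) ω.1 l u * (x u + c) = _
        by_cases hu : ∃ b, ι i b = u
        · rw [if_pos hu]
          unfold eC
          rw [if_pos hu]
          ring
        · rw [if_neg hu, eC_out _ l hu]
          ring
      rw [Finset.sum_congr rfl fun u _ => f2 u, Finset.sum_add_distrib, ← Finset.sum_mul]
      congr 2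
      rw [sum_emb (hι i) (fun u => eC (ι i) ω.1 l u) fun u hu => eC_out _ l hu]
      exact Finset.sum_congr rfl fun b _ => eC_apply _ _ _
    have f3 : (prt ι t i ω).2.1 l = ω.2.1 l + ∑ u ∈ t i, ω.1 l u + ∑ b, ω.1 l (ι i b) := rfl
    have f4 : ∑ u ∈ t i, ω.1 l u = ∑ u, ω.1 l u * (if u ∈ t i then 1 else 0) := by
      simp only [mul_ite, mul_one, mul_zero]
      rw [← Finset.sum_filter]
      congr 1
      ext u
      simp
    rw [f1, f3, f4]
    generalize (∑ u, ω.1 l u * (if ∃ b, ι i b = u then x u else 0)) = a1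
    generalize (∑ b, ω.1 l (ι i b)) = a2
    generalize (∑ u, ω.1 l u * (if u ∈ t i then (1 : ZMod 2) else 0)) = a3
    generalize ω.2.1 l = a4
    clear f1 f3 f4
    revert a1 a2 a3 a4 c
    decide
  have g1 := hexp i p.1 (q.2 l)
  have g2 := hexp j q.1 (q.2 l)
  have h6 : ∑ u, ω.1 l u * cf1 ι t i j p.1 q.1 (q.2 l) u =
      ∑ u, ω.1 l u * (if ∃ b, ι i b = u then p.1 u else 0) +
      ∑ u, ω.1 l u * (if ∃ b, ι j b = u then q.1 u else 0) +
      q.2 l * (∑ u, ω.1 l u * (if u ∈ t i then 1 else 0)) +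
      q.2 l * (∑ u, ω.1 l u * (if u ∈ t j then 1 else 0)) := by
    rw [Finset.mul_sum, Finset.mul_sum, ← Finset.sum_add_distrib, ← Finset.sum_add_distrib,
      ← Finset.sum_add_distrib]
    refine Finset.sum_congr rfl fun u _ => ?_
    unfold cf1
    ring
  rw [h6]
  have h7 : ∑ u, (prt ι t i ω).1 l u * (p.1 u + q.2 l) + (prt ι t i ω).2.1 l * q.2 l =
      ∑ u, (prt ι t j ω).1 l u * (q.1 u + q.2 l) + (prt ι t j ω).2.1 l * q.2 l := by
    have h8 : (prt ι t i ω).2.2 = (prt ι t j ω).2.2 := rfl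
    rw [h8] at h5
    generalize (∑ i', sy (prt ι t j ω).2.2 l i' * (q.2 i' + q.2 l)) = b1 at h5
    generalize (∑ u, (prt ι t i ω).1 l u * (p.1 u + q.2 l)) = b2 at h5 ⊢
    generalize (∑ u, (prt ι t j ω).1 l u * (q.1 u + q.2 l)) = b3 at h5 ⊢
    generalize (prt ι t i ω).2.1 l * q.2 l = b4 at h5 ⊢
    generalize (prt ι t j ω).2.1 l * q.2 l = b5 at h5 ⊢
    revert b1 b2 b3 b4 b5
    decide
  rw [g1, g2] at h7
  generalize (∑ u, ω.1 l u * (if ∃ b, ι i b = u then p.1 u else 0)) = a1 at h7 ⊢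
  generalize (∑ u, ω.1 l u * (if ∃ b, ι j b = u then q.1 u else 0)) = a2 at h7 ⊢
  generalize (q.2 l * (∑ u, ω.1 l u * (if u ∈ t i then 1 else 0))) = a3 at h7 ⊢
  generalize (q.2 l * (∑ u, ω.1 l u * (if u ∈ t j then 1 else 0))) = a4 at h7 ⊢
  generalize ω.2.1 l * q.2 l = a5 at h7
  revert a1 a2 a3 a4 a5
  decide

open Classical in
/-- the number of the solutions -/
noncomputable def cJ (ι : ∀ i, ni i → n) (t : Fin m → Finset n) (i j : Fin m) (ω : Om n k) : ℝ :=
  ∑ z : (n → ZMod 2) × ((n → ZMod 2) × (Fin k → ZMod 2)),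
    if cdJ ι t i j z.1 z.2.1 z.2.2 ω then (1 : ℝ) else 0

theorem jj_card' {ι : ∀ i, ni i → n} (hι : ∀ i, Function.Injective (ι i)) (t : Fin m → Finset n)
    (M : ∀ i, Matrix (ni i) (ni i) (ZMod 2)) (i j : Fin m) (ω : Om n k) :
    (2 : ℝ) ^ finrank (ZMod 2) (JJ (BF (eM (ι i) (M i)) (prt ι t i ω))
      (BF (eM (ι j) (M j)) (prt ι t j ω)) (WK n univ)) ≤ cJ ι t i j ω := by
  classical
  set J := JJ (BF (eM (ι i) (M i)) (prt ι t i ω)) (BF (eM (ι j) (M j)) (prt ι t j ω)) (WK n univ)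
    with hJ
  have hfin : Module.Finite (ZMod 2) (VV n k × VV n k) := Module.Finite.of_finite
  have h1 : (2 : ℝ) ^ finrank (ZMod 2) J = (Fintype.card J : ℝ) := by
    rw [← Nat.card_eq_fintype_card, Module.natCard_eq_pow_finrank (K := ZMod 2), Nat.card_zmod]
    push_cast
    rfl
  rw [h1]
  unfold cJ
  rw [Finset.sum_boole]
  have h2 : Fintype.card J ≤ ((univ : Finset ((n → ZMod 2) × ((n → ZMod 2) × (Fin k → ZMod 2)))).filter
      fun z => cdJ ι t i j z.1 z.2.1 z.2.2 ω).card := by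
    rw [← Finset.card_univ]
    refine Finset.card_le_card_of_injOn (fun p => (p.1.1.1, p.1.2)) (fun p _ => ?_) ?_
    · exact Finset.mem_coe.2 (Finset.mem_filter.2 ⟨mem_univ _, (jj_sub' hι p.2).1⟩)
    · rintro ⟨⟨p, q⟩, hp⟩ _ ⟨⟨p', q'⟩, hp'⟩ _ h
      have h' : ((p.1, q) : (n → ZMod 2) × VV n k) = (p'.1, q') := h
      have h3 : p.1 = p'.1 := (Prod.mk.inj h').1
      have h4 : q = q' := (Prod.mk.inj h').2
      subst h4
      have h5 := (jj_sub' hι hp).2
      have h6 := (jj_sub' hι hp').2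
      have h7 : p = p' := Prod.ext h3 (h5.trans h6.symm)
      exact Subtype.ext (Prod.ext h7 rfl)
  exact_mod_cast h2

open Classical in
/-- the weights -/
noncomputable def wJ (ι : ∀ i, ni i → n) (t : Fin m → Finset n) (i j : Fin m) (x x' : n → ZMod 2)
    (c : ZMod 2) : ℝ := if ∃ u, cf1 ι t i j x x' c u ≠ 0 then 1 / 2 else 1

theorem sum_wJ {ι : ∀ i, ni i → n} {t : Fin m → Finset n} {i j : Fin m} (h : t i ≠ t j)
    (x x' : n → ZMod 2) : ∑ c : ZMod 2, wJ ι t i j x x' c ≤ 3 / 2 := by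
  classical
  have h2 : ∑ c : ZMod 2, wJ ι t i j x x' c = wJ ι t i j x x' 0 + wJ ι t i j x x' 1 :=
    Fin.sum_univ_two (fun c : Fin 2 => wJ ι t i j x x' c)
  rw [h2]
  have hle : ∀ c, wJ ι t i j x x' c ≤ 1 := by
    intro c
    unfold wJ
    split_ifs <;> norm_num
  by_cases h0 : ∃ u, cf1 ι t i j x x' 0 u ≠ 0
  · have h3 : wJ ι t i j x x' 0 = 1 / 2 := if_pos h0
    have := hle 1
    linarith
  · have h3 : wJ ι t i j x x' 1 = 1 / 2 := by
      refine if_pos ?_
      push Not at h0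
      by_contra h4
      push Not at h4
      apply h
      ext u
      have h5 := h0 u
      have h6 := h4 u
      unfold cf1 at h5 h6
      rw [zero_mul, add_zero] at h5
      rw [h5, zero_add, one_mul] at h6
      by_cases hi : u ∈ t i <;> by_cases hj : u ∈ t j
      · exact ⟨fun _ => hj, fun _ => hi⟩
      · rw [if_pos hi, if_neg hj] at h6
        exact absurd h6 (by decide)
      · rw [if_neg hi, if_pos hj] at h6
        exact absurd h6 (by decide)
      · exact ⟨fun h' => absurd h' hi, fun h' => absurd h' hj⟩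
    have := hle 0
    linarith

open Classical in
theorem avg_cdJ (ι : ∀ i, ni i → n) (t : Fin m → Finset n) (i j : Fin m) (x x' : n → ZMod 2)
    (y : Fin k → ZMod 2) :
    (avg fun ω : Om n k => if cdJ ι t i j x x' y ω then (1 : ℝ) else 0) ≤
      ∏ l, wJ ι t i j x x' (y l) := by
  set L0 : Finset (Fin k) := univ.filter fun l => ∃ u, cf1 ι t i j x x' (y l) u ≠ 0 with hL0
  set φ : Om n k →+ (L0 → ZMod 2) :=
    { toFun := fun ω l => ∑ u, ω.1 l u * cf1 ι t i j x x' (y l) u
      map_zero' := by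
        funext l
        exact Finset.sum_eq_zero fun u _ => zero_mul _
      map_add' := by
        intro ω ω'
        funext l
        show ∑ u, (ω.1 l u + ω'.1 l u) * cf1 ι t i j x x' (y l) u = _
        simp only [add_mul, Finset.sum_add_distrib]
        rfl } with hφ
  have hsurj : Function.Surjective φ := by
    intro s
    have hu : ∀ l : L0, ∃ u, cf1 ι t i j x x' (y l) u = 1 := by
      intro l
      obtain ⟨u, hu⟩ := (Finset.mem_filter.1 l.2).2
      have two : ∀ s : ZMod 2, s ≠ 0 → s = 1 := by decide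
      exact ⟨u, two _ hu⟩
    choose uu huu using hu
    refine ⟨(fun l u => if h : l ∈ L0 then (if u = uu ⟨l, h⟩ then s ⟨l, h⟩ else 0) else 0, 0, 0), ?_⟩
    funext l
    show ∑ u, (if h : (l : Fin k) ∈ L0 then (if u = uu ⟨l, h⟩ then s ⟨l, h⟩ else 0) else 0) *
      cf1 ι t i j x x' (y l) u = s l
    rw [Finset.sum_eq_single (uu l)]
    · rw [dif_pos l.2, if_pos rfl, huu, mul_one]
    · intro u _ hne
      rw [dif_pos l.2, if_neg hne, zero_mul]
    · intro h
      exact absurd (mem_univ _) h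
  have h1 := avg_hom_zero φ hsurj
  have h2 : (avg fun ω : Om n k => if cdJ ι t i j x x' y ω then (1 : ℝ) else 0) ≤
      avg fun ω : Om n k => if φ ω = 0 then (1 : ℝ) else 0 := by
    refine avg_mono fun ω => ?_
    by_cases h : cdJ ι t i j x x' y ω
    · have h3 : φ ω = 0 := funext fun l => h l
      rw [if_pos h, if_pos h3]
    · rw [if_neg h]
      split_ifs <;> norm_num
  refine h2.trans (le_of_eq ?_)
  rw [h1]
  have h3 : (Fintype.card (L0 → ZMod 2) : ℝ) = 2 ^ L0.card := by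
    rw [Fintype.card_fun, ZMod.card, Fintype.card_coe]
    push_cast
    rfl
  rw [h3]
  unfold wJ
  rw [Finset.prod_ite, Finset.prod_const, Finset.prod_const_one, mul_one, one_div, inv_pow]

open Classical in
theorem avg_cJ {ι : ∀ i, ni i → n} {t : Fin m → Finset n} {i j : Fin m} (h : t i ≠ t j) :
    (avg fun ω : Om n k => cJ ι t i j ω) ≤ 4 ^ Fintype.card n * (3 / 2) ^ k := by
  unfold cJ
  rw [avg_sum]
  refine (Finset.sum_le_sum fun z _ => avg_cdJ ι t i j z.1 z.2.1 z.2.2).trans ?_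
  rw [Fintype.sum_prod_type]
  have h1 : ∀ x : n → ZMod 2, ∑ z : (n → ZMod 2) × (Fin k → ZMod 2),
      ∏ l, wJ ι t i j x z.1 (z.2 l) ≤ 2 ^ Fintype.card n * (3 / 2) ^ k := by
    intro x
    rw [Fintype.sum_prod_type]
    have h2 : ∀ x' : n → ZMod 2, ∑ y : Fin k → ZMod 2, ∏ l, wJ ι t i j x x' (y l) ≤ (3 / 2) ^ k := by
      intro x'
      have h3 := Finset.prod_univ_sum (fun _ : Fin k => (univ : Finset (ZMod 2)))
        (fun _ s => wJ ι t i j x x' s)
      rw [Fintype.piFinset_univ] at h3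
      rw [← h3, Finset.prod_const, Finset.card_univ, Fintype.card_fin]
      refine pow_le_pow_left₀ (Finset.sum_nonneg fun c _ => ?_) (sum_wJ h x x') _
      unfold wJ
      split_ifs <;> norm_num
    refine (Finset.sum_le_sum fun x' _ => h2 x').trans (le_of_eq ?_)
    rw [Finset.sum_const, Finset.card_univ, Fintype.card_fun, ZMod.card, nsmul_eq_mul]
    push_cast
    rfl
  refine (Finset.sum_le_sum fun x _ => h1 x).trans (le_of_eq ?_)
  rw [Finset.sum_const, Finset.card_univ, Fintype.card_fun, ZMod.card, nsmul_eq_mul]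
  push_cast
  rw [← mul_assoc, ← mul_pow]
  norm_num

end

end Pool.Agent.Q1.PT
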