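import Pool.Agent.Q1.PT.JLaw

/-!
# The joint limit law of several chains of borderings
-/

set_option autoImplicit false

namespace Pool.Agent.Q1.PT

open Finset Module Q283.TW Filter Topology
open Pool.Agent.Y697.PP (Sy Nd YY mem_YY)
open Pool.Agent.Y697.PQ (JJ mem_JJ)
open Pool.Agent.Y703.CQ (c2)

open Classical in
/-- the indicator of the `i`-th chain -/
noncomputable def iJ {m : ℕ} {n : Type} {ni : Fin m → Type} [∀ i, Fintype (ni i)] {k : ℕ}
    (ι : ∀ i, ni i → n) (t : Fin m → Finset n)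
    (M : ∀ i, Matrix (ni i) (ni i) (ZMod 2)) (i : Fin m) (ω : Om n k) : ℝ :=
  if Nf (M i) (par ι t i ω).1 (par ι t i ω).2.1 (par ι t i ω).2.2 then 1 else 0

section
variable {m : ℕ} {n : Type} [Fintype n] [DecidableEq n] {ni : Fin m → Type} [∀ i, Fintype (ni i)]
  [∀ i, DecidableEq (ni i)]

theorem iJ_nonneg {k : ℕ} (ι : ∀ i, ni i → n) (t : Fin m → Finset n)
    (M : ∀ i, Matrix (ni i) (ni i) (ZMod 2)) (i : Fin m) (ω : Om n k) : 0 ≤ iJ ι t M i ω := by
  unfold iJ
  split_ifs <;> norm_num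

theorem iJ_le_one {k : ℕ} (ι : ∀ i, ni i → n) (t : Fin m → Finset n)
    (M : ∀ i, Matrix (ni i) (ni i) (ZMod 2)) (i : Fin m) (ω : Om n k) : iJ ι t M i ω ≤ 1 := by
  unfold iJ
  split_ifs <;> norm_num

open Classical in
theorem prod_iJ {ι : ∀ i, ni i → n} (hι : ∀ i, Function.Injective (ι i)) (t : Fin m → Finset n)
    (M : ∀ i, Matrix (ni i) (ni i) (ZMod 2)) {k : ℕ} (ω : Om n k) :
    ∏ i, iJ ι t M i ω =
      if (∀ i, Nd (BF (eM (ι i) (M i)) (prt ι t i ω)) ⊤) then (1 : ℝ) else 0 := by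
  by_cases h : ∀ i, Nd (BF (eM (ι i) (M i)) (prt ι t i ω)) ⊤
  · rw [if_pos h]
    refine Finset.prod_eq_one fun i _ => ?_
    unfold iJ
    rw [if_pos ((prt_iff hι t M i ω).2 (h i))]
  · rw [if_neg h]
    push Not at h
    obtain ⟨i, hi⟩ := h
    refine Finset.prod_eq_zero (mem_univ i) ?_
    unfold iJ
    rw [if_neg fun h' => hi ((prt_iff hι t M i ω).1 h')]

open Classical in
/-- **the joint law** -/
theorem jlaw {ι : ∀ i, ni i → n} (hι : ∀ i, Function.Injective (ι i)) {t : Fin m → Finset n}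
    (ht : Function.Injective t) {M : ∀ i, Matrix (ni i) (ni i) (ZMod 2)} (hM : ∀ i, (M i).IsSymm) :
    Tendsto (fun k : ℕ => avg fun ω : Om n k => ∏ i, iJ ι t M i ω) atTop (𝓝 (c2 ^ m)) := by
  rw [Metric.tendsto_atTop]
  intro ε hε
  obtain ⟨R, hR⟩ := law m (ε / 4) (by positivity)
  set N := Fintype.card n with hN
  set C : ℝ := 2 ^ N + m * m * (4 ^ N * 2 ^ R) with hC
  have hC0 : 0 < C := by positivity
  obtain ⟨c0, hc0⟩ := exists_pow_lt_of_lt_one (show (0 : ℝ) < ε / 2 / C by positivity)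
    (show (3 / 4 : ℝ) < 1 by norm_num)
  refine ⟨c0 + N + R, fun k hk => ?_⟩
  obtain ⟨hc0', hc1'⟩ := c2_bounds
  rw [Real.dist_eq]
  rw [← avg_shift univ]
  have hshift : ∀ ω : Om n k, (avg fun h' : Om n k => ∏ i, iJ ι t M i (ω + rho n univ h')) =
      avg fun h' : Om n k => if (∀ i, Nd (BF (eM (ι i) (M i)) (prt ι t i ω) +
        BF 0 (rho n univ h')) ⊤) then (1 : ℝ) else 0 := by
    intro ω
    congr 1
    funext h'
    rw [prod_iJ hι]
    simp_rw [prt_shift, BF_add]
  simp_rw [hshift]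
  have hone : ∀ ω : Om n k, |(avg fun h' : Om n k => if (∀ i, Nd (BF (eM (ι i) (M i)) (prt ι t i ω) +
        BF 0 (rho n univ h')) ⊤) then (1 : ℝ) else 0) - c2 ^ m| ≤
      ε / 4 + ((if Bad1 univ ω then (1 : ℝ) else 0) +
        (2 ^ (k - R))⁻¹ * ∑ i : Fin m, ∑ j : Fin m, if i = j then 0 else cJ ι t i j ω) := by
    intro ω
    have hcnt0 : ∀ i j, 0 ≤ cJ ι t i j ω := by
      intro i j
      unfold cJ
      exact Finset.sum_nonneg fun z _ => by split_ifs <;> norm_num
    have hterm : ∀ i j : Fin m, 0 ≤ if i = j then 0 else cJ ι t i j ω := by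
      intro i j
      split_ifs
      · exact le_rfl
      · exact hcnt0 i j
    have hsum0 : 0 ≤ ∑ i : Fin m, ∑ j : Fin m, if i = j then 0 else cJ ι t i j ω :=
      Finset.sum_nonneg fun i _ => Finset.sum_nonneg fun j _ => hterm i j
    have hbad0 : (0 : ℝ) ≤ if Bad1 univ ω then (1 : ℝ) else 0 := by split_ifs <;> norm_num
    have hp : (0 : ℝ) < (2 ^ (k - R))⁻¹ := by positivity
    by_cases hg : ¬ Bad1 univ ω ∧ ∀ i j, i ≠ j → cJ ι t i j ω ≤ 2 ^ (k - R)
    · obtain ⟨g1, g2⟩ := hg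
      have h1 := hR n k univ (fun i => BF (eM (ι i) (M i)) (prt ι t i ω)) (k - R)
        (fun i => BF_symm (eM_symm (hι i) (hM i)) _) (fun i => prt_nd g1 i)
        (fun i j hij => pow_le_of ((jj_card' hι t M i j ω).trans (g2 i j hij)))
        (by rw [Finset.card_univ, Fintype.card_fin, ← hN]; omega)
        (by rw [Finset.card_univ, Fintype.card_fin]; omega)
      refine h1.trans ?_
      have h2 : 0 ≤ (2 ^ (k - R) : ℝ)⁻¹ * ∑ i : Fin m, ∑ j : Fin m, if i = j then 0 else cJ ι t i j ω :=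
        mul_nonneg hp.le hsum0
      linarith
    · have h1 : (1 : ℝ) ≤ (if Bad1 univ ω then (1 : ℝ) else 0) +
          (2 ^ (k - R))⁻¹ * ∑ i : Fin m, ∑ j : Fin m, if i = j then 0 else cJ ι t i j ω := by
        have h2 : 0 ≤ (2 ^ (k - R) : ℝ)⁻¹ *
            ∑ i : Fin m, ∑ j : Fin m, if i = j then 0 else cJ ι t i j ω := mul_nonneg hp.le hsum0
        by_cases hb : Bad1 univ ω
        · rw [if_pos hb]
          linarith
        · have h3 : ∃ i j, i ≠ j ∧ 2 ^ (k - R) < cJ ι t i j ω := by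
            by_contra h4
            push Not at h4
            exact hg ⟨hb, h4⟩
          obtain ⟨i, j, hij, h3⟩ := h3
          have h5 : cJ ι t i j ω ≤ ∑ i : Fin m, ∑ j : Fin m, if i = j then 0 else cJ ι t i j ω := by
            have h6 : cJ ι t i j ω = if i = j then 0 else cJ ι t i j ω := (if_neg hij).symm
            rw [h6]
            refine (Finset.single_le_sum (f := fun j => if i = j then 0 else cJ ι t i j ω)
              (fun j _ => hterm i j) (mem_univ j)).trans ?_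
            exact Finset.single_le_sum (f := fun i => ∑ j, if i = j then 0 else cJ ι t i j ω)
              (fun i _ => Finset.sum_nonneg fun j _ => hterm i j) (mem_univ i)
          have h4 : (1 : ℝ) ≤ (2 ^ (k - R))⁻¹ *
              ∑ i : Fin m, ∑ j : Fin m, if i = j then 0 else cJ ι t i j ω := by
            rw [inv_mul_eq_div, one_le_div (by positivity)]
            exact h3.le.trans h5
          linarith
      have h2 := abs_sub_le_one (avg_nn (α := Om n k) (f := fun h' => if (∀ i,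
        Nd (BF (eM (ι i) (M i)) (prt ι t i ω) + BF 0 (rho n univ h')) ⊤) then (1 : ℝ) else 0)
        fun h' => by split_ifs <;> norm_num)
        (avg_le_one fun h' => by split_ifs <;> norm_num) (pow_nonneg hc0' m)
        (pow_le_one₀ hc0' hc1')
      refine h2.trans ?_
      linarith
  have e0 : (avg fun ω : Om n k => avg fun h' : Om n k => if (∀ i, Nd (BF (eM (ι i) (M i))
        (prt ι t i ω) + BF 0 (rho n univ h')) ⊤) then (1 : ℝ) else 0) - c2 ^ m =
      avg fun ω : Om n k => ((avg fun h' : Om n k => if (∀ i, Nd (BF (eM (ι i) (M i))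
        (prt ι t i ω) + BF 0 (rho n univ h')) ⊤) then (1 : ℝ) else 0) - c2 ^ m) := by
    rw [avg_sub, avg_const]
  rw [e0]
  refine lt_of_le_of_lt ((abs_avg _).trans (avg_mono hone)) ?_
  rw [avg_add, avg_const, avg_add, avg_mul, avg_sum]
  have b1 := avg_bad (n := n) (univ : Finset (Fin k))
  rw [Finset.card_univ, Fintype.card_fin, ← hN, Nat.sub_self, add_zero] at b1
  have b2 : ∑ i : Fin m, (avg fun ω : Om n k => ∑ j : Fin m, if i = j then 0 else cJ ι t i j ω) ≤
      m * m * (4 ^ N * (3 / 2) ^ k) := by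
    have h1 : ∀ i : Fin m, (avg fun ω : Om n k => ∑ j : Fin m, if i = j then 0 else cJ ι t i j ω) ≤
        m * (4 ^ N * (3 / 2) ^ k) := by
      intro i
      rw [avg_sum]
      have h2 : ∀ j : Fin m, (avg fun ω : Om n k => if i = j then 0 else cJ ι t i j ω) ≤
          4 ^ N * (3 / 2) ^ k := by
        intro j
        by_cases hij : i = j
        · have h3 : ∀ ω : Om n k, (if i = j then (0 : ℝ) else cJ ι t i j ω) = 0 := fun ω => if_pos hij
          simp_rw [h3]
          rw [avg_const]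
          positivity
        · have h3 : ∀ ω : Om n k, (if i = j then (0 : ℝ) else cJ ι t i j ω) = cJ ι t i j ω :=
            fun ω => if_neg hij
          simp_rw [h3]
          exact avg_cJ fun h => hij (ht h)
      refine (Finset.sum_le_sum fun j _ => h2 j).trans (le_of_eq ?_)
      rw [Finset.sum_const, Finset.card_univ, Fintype.card_fin, nsmul_eq_mul]
    refine (Finset.sum_le_sum fun i _ => h1 i).trans (le_of_eq ?_)
    rw [Finset.sum_const, Finset.card_univ, Fintype.card_fin, nsmul_eq_mul]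
    ring
  have hk1 : (1 : ℝ) / 2 ^ k ≤ (3 / 4) ^ c0 := by
    have h1 : (1 : ℝ) / 2 ^ k ≤ (1 / 2) ^ c0 := by
      rw [← one_div_pow]
      exact pow_le_pow_of_le_one (by norm_num) (by norm_num) (by omega)
    exact h1.trans (pow_le_pow_left₀ (by norm_num) (by norm_num) _)
  have hk2 : (3 / 4 : ℝ) ^ k ≤ (3 / 4) ^ c0 :=
    pow_le_pow_of_le_one (by norm_num) (by norm_num) (by omega)
  have hb1 : (2 : ℝ) ^ N / 2 ^ k ≤ 2 ^ N * (3 / 4) ^ c0 := by
    rw [div_eq_mul_one_div]
    exact mul_le_mul_of_nonneg_left hk1 (by positivity)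
  have hb2 : (2 ^ (k - R) : ℝ)⁻¹ * (m * m * (4 ^ N * (3 / 2) ^ k)) ≤
      m * m * (4 ^ N * 2 ^ R) * (3 / 4) ^ c0 := by
    have h1 : (2 : ℝ) ^ k = 2 ^ (k - R) * 2 ^ R := by
      rw [← pow_add]
      congr 1
      omega
    have h2 : (2 ^ (k - R) : ℝ)⁻¹ = 2 ^ R / 2 ^ k := by
      rw [h1]
      field_simp
    have h3 : (2 ^ (k - R) : ℝ)⁻¹ * (m * m * (4 ^ N * (3 / 2) ^ k)) =
        m * m * (4 ^ N * 2 ^ R) * ((3 / 2) ^ k / 2 ^ k) := by
      rw [h2]
      field_simp
    rw [h3]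
    have h4 : (3 / 2 : ℝ) ^ k / 2 ^ k = (3 / 4) ^ k := by
      rw [← div_pow]
      norm_num
    rw [h4]
    exact mul_le_mul_of_nonneg_left hk2 (by positivity)
  have hb3 := (mul_le_mul_of_nonneg_left b2 (show (0 : ℝ) ≤ (2 ^ (k - R))⁻¹ by positivity)).trans hb2
  have hb1' := b1.trans hb1
  have hfin : C * (3 / 4 : ℝ) ^ c0 < ε / 2 := by
    have := (lt_div_iff₀ hC0).1 hc0
    linarith
  have hCe : C * (3 / 4 : ℝ) ^ c0 = 2 ^ N * (3 / 4) ^ c0 +
      m * m * (4 ^ N * 2 ^ R) * (3 / 4) ^ c0 := by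
    rw [hC]
    ring
  linarith

/-- the joint law for a part of the chains -/
theorem jlaw_sub {ι : ∀ i, ni i → n} (hι : ∀ i, Function.Injective (ι i)) {t : Fin m → Finset n}
    (ht : Function.Injective t) {M : ∀ i, Matrix (ni i) (ni i) (ZMod 2)} (hM : ∀ i, (M i).IsSymm)
    (T : Finset (Fin m)) :
    Tendsto (fun k : ℕ => avg fun ω : Om n k => ∏ i ∈ T, iJ ι t M i ω) atTop (𝓝 (c2 ^ T.card)) := by
  set e : Fin T.card ≃ T := T.equivFin.symm with he
  have h := jlaw (m := T.card) (n := n) (ni := fun j => ni (e j)) (ι := fun j => ι (e j))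
    (fun j => hι _) (t := fun j => t (e j)) (fun a b hab => by
      have h1 := ht hab
      exact e.injective (Subtype.ext h1)) (M := fun j => M (e j)) (fun j => hM _)
  refine h.congr fun k => ?_
  congr 1
  funext ω
  rw [← Finset.prod_coe_sort T, ← Equiv.prod_comp e]
  rfl

/-- the polynomial of a pattern -/
noncomputable def pat (A : Finset (Fin m)) (b : Fin m → ℝ) : ℝ :=
  (∏ i ∈ A, b i) * ∏ i ∈ Aᶜ, (1 - b i)

theorem pat_eq (A : Finset (Fin m)) (b : Fin m → ℝ) :
    pat A b = ∑ B ∈ Aᶜ.powerset, (-1) ^ B.card * ∏ i ∈ A ∪ B, b i := by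
  unfold pat
  have h1 : ∏ i ∈ Aᶜ, (1 - b i) = ∑ B ∈ Aᶜ.powerset, (-1) ^ B.card * ∏ i ∈ B, b i := by
    have h2 : ∀ i ∈ Aᶜ, (1 - b i) = -b i + 1 := fun i _ => by ring
    rw [Finset.prod_congr rfl h2, Finset.prod_add]
    refine Finset.sum_congr rfl fun B _ => ?_
    rw [Finset.prod_const_one, mul_one]
    have h3 : ∀ i ∈ B, -b i = -1 * b i := fun i _ => by ring
    rw [Finset.prod_congr rfl h3, Finset.prod_mul_distrib, Finset.prod_const]
  rw [h1, Finset.mul_sum]
  refine Finset.sum_congr rfl fun B hB => ?_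
  have h2 : Disjoint A B := by
    rw [Finset.disjoint_left]
    intro i hi hi'
    exact Finset.mem_compl.1 (Finset.mem_powerset.1 hB hi') hi
  rw [Finset.prod_union h2]
  ring

/-- **the joint law of the patterns** -/
theorem jf_pat {ι : ∀ i, ni i → n} (hι : ∀ i, Function.Injective (ι i)) {t : Fin m → Finset n}
    (ht : Function.Injective t) {M : ∀ i, Matrix (ni i) (ni i) (ZMod 2)} (hM : ∀ i, (M i).IsSymm)
    (A : Finset (Fin m)) :
    Tendsto (fun k : ℕ => jf k ι t M (pat A)) atTop (𝓝 (c2 ^ A.card * (1 - c2) ^ (m - A.card))) := by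
  have h1 : ∀ k : ℕ, jf k ι t M (pat A) = ∑ B ∈ Aᶜ.powerset, (-1) ^ B.card *
      avg fun ω : Om n k => ∏ i ∈ A ∪ B, iJ ι t M i ω := by
    intro k
    rw [jf_eq]
    have h2 : ∀ ω : Om n k, pat A (fun i => iJ ι t M i ω) =
        ∑ B ∈ Aᶜ.powerset, (-1) ^ B.card * ∏ i ∈ A ∪ B, iJ ι t M i ω := fun ω => pat_eq A _
    refine Eq.trans (congrArg avg (funext fun ω => h2 ω)) ?_
    rw [avg_sum]
    exact Finset.sum_congr rfl fun B _ => avg_mul _ _
  have h2 : c2 ^ A.card * (1 - c2) ^ (m - A.card) =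
      ∑ B ∈ Aᶜ.powerset, (-1) ^ B.card * c2 ^ (A ∪ B).card := by
    have h3 := pat_eq A fun _ => c2
    unfold pat at h3
    simp only [Finset.prod_const] at h3
    rw [Finset.card_compl, Fintype.card_fin] at h3
    exact h3
  rw [h2]
  refine (tendsto_finsetSum _ fun B _ => (jlaw_sub hι ht hM (A ∪ B)).const_mul ((-1) ^ B.card)).congr
    fun k => ?_
  exact (h1 k).symm

end

end Pool.Agent.Q1.PT
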