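import Pool.Agent.Q1.PT.Coin
import Pool.Agent.Q1.PT.JIter

/-!
# The pattern process of the prime twists: iterated means
-/

set_option autoImplicit false

namespace Pool.Agent.Q1.PT

open Finset Filter Topology Q283.TW
open Pool.Agent.Y687.MQ (matD SP IP AdmD)

section
variable {I : Type} [Fintype I] [DecidableEq I]

theorem gs_submatrix {ni ni' : I → Type} [∀ i, Fintype (ni i)] [∀ i, DecidableEq (ni i)]
    [∀ i, Fintype (ni' i)] [∀ i, DecidableEq (ni' i)] (ei : ∀ i, ni i ≃ ni' i)
    (M' : ∀ i, Matrix (ni' i) (ni' i) (ZMod 2)) :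
    gs (fun i => (M' i).submatrix (ei i) (ei i)) = gs M' := by
  unfold gs
  refine Finset.filter_congr fun i _ => ?_
  rw [Matrix.det_submatrix_equiv_self]

/-- the successor, with other names -/
theorem child_equiv {n : Type} [Fintype n] [DecidableEq n] {ni : I → Type}
    [∀ i, Fintype (ni i)] [∀ i, DecidableEq (ni i)] {n' : Type} [Fintype n'] [DecidableEq n']
    {ni' : I → Type} [∀ i, Fintype (ni' i)] [∀ i, DecidableEq (ni' i)]
    (e : n ≃ n') (ei : ∀ i, ni i ≃ ni' i) (ι : ∀ i, ni i → n) (ι' : ∀ i, ni' i → n')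
    (hι : ∀ i a, ι' i (ei i a) = e (ι i a)) (t : I → Finset n) (t' : I → Finset n')
    (ht : ∀ i, t' i = (t i).map e.toEmbedding)
    (M' : ∀ i, Matrix (ni' i) (ni' i) (ZMod 2)) (y : n → ZMod 2) (d : ZMod 2) :
    (fun i => bord ((M' i).submatrix (ei i) (ei i)) (y ∘ ι i) (∑ u ∈ t i, y u + d)) =
      fun i => (bord (M' i) ((y ∘ e.symm) ∘ ι' i) (∑ u ∈ t' i, (y ∘ e.symm) u + d)).submatrix
        ((ei i).sumCongr (Equiv.refl Unit)) ((ei i).sumCongr (Equiv.refl Unit)) := by
  funext i
  rw [bord_submatrix]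
  have e1 : (y ∘ ι i) ∘ (ei i).symm = (y ∘ e.symm) ∘ ι' i := by
    funext a
    show y (ι i ((ei i).symm a)) = y (e.symm (ι' i a))
    have h2 := hι i ((ei i).symm a)
    rw [Equiv.apply_symm_apply] at h2
    rw [h2, Equiv.symm_apply_apply]
  have e2 : ∑ u ∈ t i, y u = ∑ u ∈ t' i, (y ∘ e.symm) u := by
    rw [ht, Finset.sum_map]
    refine Finset.sum_congr rfl fun u _ => ?_
    show y u = y (e.symm (e u))
    rw [Equiv.symm_apply_apply]
  rw [e1, e2]

theorem map_exT {n n' : Type} (e : n ≃ n') (t : Finset n) :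
    exT (t.map e.toEmbedding) = (exT t).map (e.sumCongr (Equiv.refl Unit)).toEmbedding := by
  ext u
  unfold exT
  rcases u with u | u
  · simp only [Finset.inl_mem_disjSum, Finset.mem_map, Equiv.coe_toEmbedding]
    constructor
    · rintro ⟨a, ha, rfl⟩
      exact ⟨Sum.inl a, Finset.inl_mem_disjSum.2 ha, rfl⟩
    · rintro ⟨a, ha, h⟩
      rcases a with a | a
      · exact ⟨a, Finset.inl_mem_disjSum.1 ha, Sum.inl_injective h⟩
      · exact absurd h (by simp)
  · simp only [Finset.inr_mem_disjSum, Finset.mem_map, Equiv.coe_toEmbedding]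
    constructor
    · intro _
      exact ⟨Sum.inr u, Finset.inr_mem_disjSum.2 (mem_univ _), rfl⟩
    · intro _
      exact mem_univ _

/-- the law does not depend on the names -/
theorem jp_equiv (k : ℕ) : ∀ {n : Type} [Fintype n] [DecidableEq n] {ni : I → Type}
    [∀ i, Fintype (ni i)] [∀ i, DecidableEq (ni i)] {n' : Type} [Fintype n'] [DecidableEq n']
    {ni' : I → Type} [∀ i, Fintype (ni' i)] [∀ i, DecidableEq (ni' i)]
    (e : n ≃ n') (ei : ∀ i, ni i ≃ ni' i) (ι : ∀ i, ni i → n) (ι' : ∀ i, ni' i → n')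
    (_ : ∀ i a, ι' i (ei i a) = e (ι i a)) (t : I → Finset n) (t' : I → Finset n')
    (_ : ∀ i, t' i = (t i).map e.toEmbedding)
    (M' : ∀ i, Matrix (ni' i) (ni' i) (ZMod 2)) (f : List (Finset I) → ℝ),
    jp k ι t (fun i => (M' i).submatrix (ei i) (ei i)) f = jp k ι' t' M' f := by
  induction k with
  | zero =>
    intro n _ _ ni _ _ n' _ _ ni' _ _ e ei ι ι' hι t t' ht M' f
    rw [jp_zero, jp_zero, gs_submatrix]
  | succ k ih =>
    intro n _ _ ni _ _ n' _ _ ni' _ _ e ei ι ι' hι t t' ht M' f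
    rw [jp_succ, jp_succ, gs_submatrix]
    rw [← avg_equiv ((e.arrowCongr (Equiv.refl (ZMod 2))).prodCongr (Equiv.refl (ZMod 2)))]
    congr 1
    funext y
    have h1 := ih (n := n ⊕ Unit) (ni := fun i => ni i ⊕ Unit) (n' := n' ⊕ Unit)
      (ni' := fun i => ni' i ⊕ Unit) (e.sumCongr (Equiv.refl Unit))
      (fun i => (ei i).sumCongr (Equiv.refl Unit)) (fun i => Sum.map (ι i) id)
      (fun i => Sum.map (ι' i) id) (by
        intro i a
        rcases a with a | a
        · show Sum.inl (ι' i (ei i a)) = Sum.inl (e (ι i a))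
          rw [hι]
        · rfl) (fun i => exT (t i)) (fun i => exT (t' i)) (fun i => by rw [ht, map_exT])
      (fun i => bord (M' i) ((y.1 ∘ e.symm) ∘ ι' i) (∑ u ∈ t' i, (y.1 ∘ e.symm) u + y.2))
      (fun l => f (gs M' :: l))
    refine Eq.trans ?_ h1
    congr 1
    exact child_equiv e ei ι ι' hι t t' ht M' y.1 y.2

end

section
variable {m : ℕ}

open Classical in
/-- one step -/
theorem jp_step {R : Finset ℕ} {D : Fin m → ℤ} (hD : ∀ i, (D i).natAbs.primeFactors ⊆ R)
    (hA : ∀ i, AdmD (D i)) {p : ℕ} (hp : Spl p) (hpR : p ∉ R) (k : ℕ)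
    (f : List (Finset (Fin m)) → ℝ) :
    jp k (iR (fun i => D i * (p : ℤ)) (sub_insert hD (fun i => (hA i).1.ne_zero) hp))
      (tR (insert p R) fun i => D i * (p : ℤ)) (fun i => matD (D i * (p : ℤ))) f =
    jp k (n := R ⊕ Unit) (ni := fun i => SP (D i) ⊕ Unit) (fun i => Sum.map (iR D hD i) id)
      (fun i => exT (tR R D i))
      (fun i => bord (matD (D i)) ((fun r : R => nrp p r) ∘ iR D hD i)
        (∑ u ∈ tR R D i, nrp p u + xp1 p)) f := by
  have hpD : ∀ i, p ∉ (D i).natAbs.primeFactors := fun i h => hpR (hD i h)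
  have h0 : ∀ i, D i ≠ 0 := fun i => (hA i).1.ne_zero
  have h1 := jp_equiv (I := Fin m) k (n := R ⊕ Unit) (ni := fun i => SP (D i) ⊕ Unit)
    (n' := (insert p R : Finset ℕ)) (ni' := fun i => SP (D i * (p : ℤ))) (eR hpR)
    (fun i => eqv (h0 i) hp (hpD i)) (fun i => Sum.map (iR D hD i) id)
    (iR (fun i => D i * (p : ℤ)) (sub_insert hD h0 hp)) (by
      intro i a
      rcases a with a | a
      · exact Subtype.ext (eqv_inl (h0 i) hp (hpD i) a)
      · exact Subtype.ext (eqv_inr (h0 i) hp (hpD i) a))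
    (fun i => exT (tR R D i)) (tR (insert p R) fun i => D i * (p : ℤ)) (by
      intro i
      ext u
      unfold tR exT
      rw [Finset.mem_filter, Finset.mem_map, pf_mul (h0 i) hp]
      constructor
      · rintro ⟨-, h⟩
        rcases Finset.mem_insert.1 h with h | h
        · exact ⟨Sum.inr (), Finset.inr_mem_disjSum.2 (mem_univ _), Subtype.ext h.symm⟩
        · exact ⟨Sum.inl ⟨u, hD i h⟩, Finset.inl_mem_disjSum.2 (Finset.mem_filter.2 ⟨mem_univ _, h⟩), rfl⟩
      · rintro ⟨a, ha, rfl⟩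
        refine ⟨mem_univ _, ?_⟩
        rcases a with a | a
        · exact Finset.mem_insert_of_mem (Finset.mem_filter.1 (Finset.inl_mem_disjSum.1 ha)).2
        · exact Finset.mem_insert_self _ _)
    (fun i => matD (D i * (p : ℤ))) f
  rw [← h1]
  congr 1
  funext i
  rw [matD_sub (hA i) hp (hpD i)]
  unfold sym
  rw [sum_tR D hD i fun r => nrp p r]
  rfl

open Classical in
/-- the set of the good indices -/
noncomputable def gset (G : ℤ → Prop) (D : Fin m → ℤ) : Finset (Fin m) := univ.filter fun i => G (D i)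

/-- the patterns along a branch -/
noncomputable def pth (G : ℤ → Prop) : (Fin m → ℤ) → List ℕ → List (Finset (Fin m))
  | D, [] => [gset G D]
  | D, p :: l => gset G D :: pth G (fun i => D i * (p : ℤ)) l

theorem pth_cons (G : ℤ → Prop) (D : Fin m → ℤ) (p : ℕ) (l : List ℕ) :
    pth G D (p :: l) = gset G D :: pth G (fun i => D i * (p : ℤ)) l := rfl

open Classical in
theorem gset_gs {G : ℤ → Prop} (hG : ∀ M : ℤ, AdmD M → (G M ↔ (matD M).det ≠ 0))
    {D : Fin m → ℤ} (hA : ∀ i, AdmD (D i)) : gset G D = gs fun i => matD (D i) := by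
  unfold gset gs
  ext i
  rw [Finset.mem_filter, Finset.mem_filter]
  exact and_congr_right fun _ => hG _ (hA i)

open Classical in
/-- **iterated means of the functions of the patterns along a branch** -/
theorem iter_jp (IM : ℕ → ℕ → (List ℕ → ℝ) → ℝ → Prop)
    (h0 : ∀ (N : ℕ) (F : List ℕ → ℝ) (c : ℝ), c = F [] → IM 0 N F c)
    (hs : ∀ (k N : ℕ) (F : List ℕ → ℝ) (c : ℝ) (g : ℕ → ℝ),
      (∀ p : ℕ, Spl p → ¬ p ∣ N → IM k (N * p) (fun l => F (p :: l)) (g p)) →
      Tendsto (fun X : ℕ => (∑ p ∈ (range (X + 1)).filter fun p => Spl p ∧ ¬ p ∣ N, g p) /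
        (((range (X + 1)).filter fun p => Spl p).card : ℝ)) atTop (𝓝 c) → IM (k + 1) N F c)
    (G : ℤ → Prop) (hG : ∀ M : ℤ, AdmD M → (G M ↔ (matD M).det ≠ 0)) (k : ℕ) :
    ∀ (N : ℕ) (R : Finset ℕ), N ≠ 0 → R = N.primeFactors → (∀ r ∈ R, r.Prime ∧ r ≠ 2 ∧ r ≠ 7) →
      ∀ (D : Fin m → ℤ) (hD : ∀ i, (D i).natAbs.primeFactors ⊆ R), (∀ i, AdmD (D i)) →
      ∀ f : List (Finset (Fin m)) → ℝ,
      IM k N (fun l => f (pth G D l)) (jp k (iR D hD) (tR R D) (fun i => matD (D i)) f) := by
  induction k with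
  | zero =>
    intro N R hN hNR hR D hD hA f
    refine h0 _ _ _ ?_
    rw [jp_zero, pth, gset_gs hG hA]
  | succ k ih =>
    intro N R hN hNR hR D hD hA f
    have hsp : ∀ p : ℕ, Spl p → (¬ p ∣ N ↔ p ∉ R) := by
      intro p hp
      rw [hNR, Nat.mem_primeFactors]
      exact ⟨fun h h' => h h'.2.1, fun h h' => h ⟨hp.1, h', hN⟩⟩
    set f' : List (Finset (Fin m)) → ℝ := fun l => f (gset G D :: l) with hf'
    refine hs k N _ _ (fun p => if h : Spl p ∧ p ∉ R then
      jp k (iR (fun i => D i * (p : ℤ)) (sub_insert hD (fun i => (hA i).1.ne_zero) h.1))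
        (tR (insert p R) fun i => D i * (p : ℤ)) (fun i => matD (D i * (p : ℤ))) f' else 0) ?_ ?_
    · intro p hp hpN
      have hpR : p ∉ R := (hsp p hp).1 hpN
      have h2 := ih (N * p) (insert p R) (mul_ne_zero hN hp.1.ne_zero)
        (by rw [Nat.primeFactors_mul hN hp.1.ne_zero, ← hNR, hp.1.primeFactors, Finset.union_comm]; rfl)
        (by
          intro r hr
          rcases Finset.mem_insert.1 hr with rfl | hr
          · refine ⟨hp.1, ?_, ?_⟩
            · rintro rfl
              have := hp.2.1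
              omega
            · rintro rfl
              have := hp.2.1
              omega
          · exact hR r hr)
        (fun i => D i * (p : ℤ)) (sub_insert hD (fun i => (hA i).1.ne_zero) hp)
        (fun i => admD_mul (hA i) hp fun h => hpR (hD i h)) f'
      rw [dif_pos ⟨hp, hpR⟩]
      exact h2
    · rw [jp_succ, ← gset_gs hG hA]
      refine (avg_primesR hR (fun y => jp k (n := R ⊕ Unit) (ni := fun i => SP (D i) ⊕ Unit)
        (fun i => Sum.map (iR D hD i) id) (fun i => exT (tR R D i))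
        (fun i => bord (matD (D i)) (y.1 ∘ iR D hD i) (∑ u ∈ tR R D i, y.1 u + y.2)) f')
        (fun p => if h : Spl p ∧ p ∉ R then
        jp k (iR (fun i => D i * (p : ℤ)) (sub_insert hD (fun i => (hA i).1.ne_zero) h.1))
          (tR (insert p R) fun i => D i * (p : ℤ)) (fun i => matD (D i * (p : ℤ))) f' else 0)
        (fun p hp hpR => ?_)).congr fun X => ?_
      · rw [dif_pos ⟨hp, hpR⟩, jp_step hD hA hp hpR]
      · congr 1
        refine Finset.sum_congr (Finset.ext fun p => ?_) fun _ _ => rfl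
        rw [Finset.mem_filter, Finset.mem_filter]
        exact and_congr_right fun _ => and_congr_right fun hp => (hsp p hp).symm

end

end Pool.Agent.Q1.PT
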