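import Pool.Agent.Q1.PT.Prime
import Pool.Agent.Q1.PT.JMain

/-!
# Several base twists, and the prime twists
-/

set_option autoImplicit false

namespace Pool.Agent.Q1.PT

open Finset Filter Topology Q283.TW
open Pool.Agent.Y687.MQ (matD SP IP AdmD)

open scoped Classical in
/-- averages over the split primes outside of `R` -/
theorem avg_primesR {R : Finset ℕ} (hR : ∀ r ∈ R, r.Prime ∧ r ≠ 2 ∧ r ≠ 7)
    (F : (R → ZMod 2) × ZMod 2 → ℝ) (g : ℕ → ℝ)
    (hg : ∀ p, Spl p → p ∉ R → g p = F (fun r => nrp p r, xp1 p)) :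
    Tendsto (fun X : ℕ => (∑ p ∈ (range (X + 1)).filter fun p => Spl p ∧ p ∉ R, g p) /
      (((range (X + 1)).filter fun p => Spl p).card : ℝ)) atTop (𝓝 (avg F)) := by
  have h1 : ∀ x : (R → ZMod 2) × ZMod 2,
      Tendsto (fun X : ℕ => (((range (X + 1)).filter fun p => Spl p ∧
        (p ∉ R ∧ (fun r : R => nrp p r, xp1 p) = x)).card : ℝ) /
        (((range (X + 1)).filter fun p => Spl p).card : ℝ)) atTop
        (𝓝 ((Fintype.card ((R → ZMod 2) × ZMod 2) : ℝ)⁻¹)) := by
    intro x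
    have h2 := gen_density R R subset_rfl hR
      (fun y => (y.1, y.2 + ∑ r, y.1 r) = x) (fun p => p ∉ R ∧ (fun r : R => nrp p r, xp1 p) = x)
      (fun p _ hp => by
        have e1 : ∑ r ∈ R, nrp p r + xp1 p + ∑ r : R, nrp p r = xp1 p := by
          rw [Finset.sum_coe_sort R fun r => nrp p r]
          generalize ∑ r ∈ R, nrp p r = a
          generalize xp1 p = b
          revert a b
          decide
        show _ ↔ ((fun r : R => nrp p r, ∑ r ∈ R, nrp p r + xp1 p + ∑ r : R, nrp p r) :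
          (R → ZMod 2) × ZMod 2) = x
        rw [e1]
        exact ⟨fun h => h.2, fun h => ⟨hp, h⟩⟩)
    have h3 : Nat.card {y : (R → ZMod 2) × ZMod 2 // (y.1, y.2 + ∑ r, y.1 r) = x} = 1 := by
      rw [Nat.card_eq_one_iff_unique]
      refine ⟨⟨fun a b => Subtype.ext ?_⟩, ⟨⟨(x.1, x.2 + ∑ r, x.1 r), ?_⟩⟩⟩
      · have h4 := a.2.trans b.2.symm
        have h5 := Prod.mk.inj h4
        refine Prod.ext h5.1 ?_
        have h6 := h5.2
        rw [h5.1] at h6
        exact add_right_cancel h6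
      · refine Prod.ext rfl ?_
        show x.2 + ∑ r, x.1 r + ∑ r, x.1 r = x.2
        rw [add_assoc, two_zero, add_zero]
    rw [h3, Nat.cast_one, one_div] at h2
    have h4 : Fintype.card ((R → ZMod 2) × ZMod 2) = 2 ^ (Fintype.card R + 1) := by
      rw [← Nat.card_eq_fintype_card, card_pairs]
    rw [h4]
    push_cast
    exact h2.congr fun X => congrArg₂ (fun a b : ℕ => (a : ℝ) / (b : ℝ)) (card_filter_inst _ _) rfl
  have h2 := tendsto_finsetSum (univ : Finset ((R → ZMod 2) × ZMod 2)) fun x _ =>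
    (h1 x).const_mul (F x)
  have h3 : ∑ x : (R → ZMod 2) × ZMod 2, F x *
      (Fintype.card ((R → ZMod 2) × ZMod 2) : ℝ)⁻¹ = avg F := by
    unfold avg
    rw [← Finset.sum_mul, div_eq_mul_inv]
  rw [h3] at h2
  refine h2.congr fun X => ?_
  have h4 : ∀ x : (R → ZMod 2) × ZMod 2, F x * ((((range (X + 1)).filter fun p => Spl p ∧
        (p ∉ R ∧ (fun r : R => nrp p r, xp1 p) = x)).card : ℝ) /
        (((range (X + 1)).filter fun p => Spl p).card : ℝ)) =
      (∑ p ∈ ((range (X + 1)).filter fun p => Spl p ∧ p ∉ R).filter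
        (fun p => (fun r : R => nrp p r, xp1 p) = x), g p) /
        (((range (X + 1)).filter fun p => Spl p).card : ℝ) := by
    intro x
    rw [← mul_div_assoc]
    congr 1
    rw [Finset.sum_congr rfl (g := fun _ => F x)]
    · rw [Finset.sum_const, nsmul_eq_mul, mul_comm, Finset.filter_filter]
      congr 2
      refine congrArg Finset.card (Finset.ext fun p => ?_)
      rw [Finset.mem_filter, Finset.mem_filter, and_assoc]
    · intro p hp
      have h5 := Finset.mem_filter.1 hp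
      have h6 := (Finset.mem_filter.1 h5.1).2
      rw [hg p h6.1 h6.2, h5.2]
  rw [Finset.sum_congr rfl fun x _ => h4 x, ← Finset.sum_div]
  congr 1
  exact Finset.sum_fiberwise_of_maps_to (fun p _ => Finset.mem_univ _) _

section
variable {m : ℕ}

/-- the split primes of `D` in the common set -/
def iR {R : Finset ℕ} (D : Fin m → ℤ) (hD : ∀ i, (D i).natAbs.primeFactors ⊆ R) (i : Fin m)
    (q : SP (D i)) : R := ⟨q, hD i (Finset.mem_filter.1 q.2).1⟩

/-- the prime factors of `D` in the common set -/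
def tR (R : Finset ℕ) (D : Fin m → ℤ) (i : Fin m) : Finset R :=
  univ.filter fun r => (r : ℕ) ∈ (D i).natAbs.primeFactors

theorem iR_inj {R : Finset ℕ} (D : Fin m → ℤ) (hD : ∀ i, (D i).natAbs.primeFactors ⊆ R)
    (i : Fin m) : Function.Injective (iR D hD i) := by
  intro a b h
  exact Subtype.ext (congrArg (fun r : R => (r : ℕ)) h)

theorem sum_tR {R : Finset ℕ} (D : Fin m → ℤ) (hD : ∀ i, (D i).natAbs.primeFactors ⊆ R)
    (i : Fin m) (f : ℕ → ZMod 2) : ∑ u ∈ tR R D i, f u = ∑ r ∈ (D i).natAbs.primeFactors, f r := by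
  unfold tR
  rw [Finset.sum_filter, Finset.sum_coe_sort R fun r => if r ∈ (D i).natAbs.primeFactors then f r else 0,
    ← Finset.sum_filter]
  congr 1
  ext r
  rw [Finset.mem_filter]
  exact ⟨fun h => h.2, fun h => ⟨hD i h, h⟩⟩

open Classical in
/-- the common sets -/
noncomputable def eR {R : Finset ℕ} {p : ℕ} (hp : p ∉ R) : R ⊕ Unit ≃ (insert p R : Finset ℕ) :=
  Equiv.ofBijective
    (fun u => Sum.elim (fun r : R => (⟨r, Finset.mem_insert_of_mem r.2⟩ : (insert p R : Finset ℕ)))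
      (fun _ => ⟨p, Finset.mem_insert_self _ _⟩) u) (by
    constructor
    · rintro (a | a) (b | b) h
      · have h1 : (a : ℕ) = b := congrArg (fun r : (insert p R : Finset ℕ) => (r : ℕ)) h
        exact congrArg Sum.inl (Subtype.ext h1)
      · have h1 : (a : ℕ) = p := congrArg (fun r : (insert p R : Finset ℕ) => (r : ℕ)) h
        exact absurd (h1 ▸ a.2) hp
      · have h1 : p = (b : ℕ) := congrArg (fun r : (insert p R : Finset ℕ) => (r : ℕ)) h
        exact absurd (h1 ▸ b.2) hp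
      · rfl
    · rintro ⟨r, hr⟩
      rcases Finset.mem_insert.1 hr with h | h
      · exact ⟨Sum.inr (), Subtype.ext h.symm⟩
      · exact ⟨Sum.inl ⟨r, h⟩, rfl⟩)

theorem sub_insert {R : Finset ℕ} {D : Fin m → ℤ} (hD : ∀ i, (D i).natAbs.primeFactors ⊆ R)
    (h0 : ∀ i, D i ≠ 0) {p : ℕ} (hp : Spl p) (i : Fin m) :
    (D i * (p : ℤ)).natAbs.primeFactors ⊆ insert p R := by
  rw [pf_mul (h0 i) hp]
  exact Finset.insert_subset_insert p (hD i)

open Classical in
/-- one step -/
theorem jf_step {R : Finset ℕ} {D : Fin m → ℤ} (hD : ∀ i, (D i).natAbs.primeFactors ⊆ R)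
    (hA : ∀ i, AdmD (D i)) {p : ℕ} (hp : Spl p) (hpR : p ∉ R) (k : ℕ) (f : (Fin m → ℝ) → ℝ) :
    jf k (iR (fun i => D i * (p : ℤ)) (sub_insert hD (fun i => (hA i).1.ne_zero) hp))
      (tR (insert p R) fun i => D i * (p : ℤ)) (fun i => matD (D i * (p : ℤ))) f =
    jf k (n := R ⊕ Unit) (ni := fun i => SP (D i) ⊕ Unit) (fun i => Sum.map (iR D hD i) id)
      (fun i => exT (tR R D i))
      (fun i => bord (matD (D i)) ((fun r : R => nrp p r) ∘ iR D hD i)
        (∑ u ∈ tR R D i, nrp p u + xp1 p)) f := by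
  have hpD : ∀ i, p ∉ (D i).natAbs.primeFactors := fun i h => hpR (hD i h)
  have h0 : ∀ i, D i ≠ 0 := fun i => (hA i).1.ne_zero
  have h1 := jf_equiv (m := m) k (n := R ⊕ Unit) (ni := fun i => SP (D i) ⊕ Unit)
    (n' := (insert p R : Finset ℕ)) (ni' := fun i => SP (D i * (p : ℤ))) (eR hpR)
    (fun i => eqv (h0 i) hp (hpD i)) (fun i => Sum.map (iR D hD i) id)
    (iR (fun i => D i * (p : ℤ)) (sub_insert hD h0 hp)) (by
      intro i a
      rcases a with a | a
      · exact Subtype.ext (eqv_inl (h0 i) hp (hpD i) a)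
      · exact Subtype.ext (eqv_inr (h0 i) hp (hpD i) a))
    (fun i => exT (tR R D i)) (tR (insert p R) fun i => D i * (p : ℤ)) (by
      intro i
      ext u
      unfold tR exT
      rw [Finset.mem_filter, Finset.mem_map, pf_mul (h0 i) hp]
      constructor
      · rintro ⟨-, h⟩
        rcases Finset.mem_insert.1 h with h | h
        · exact ⟨Sum.inr (), Finset.inr_mem_disjSum.2 (mem_univ _), Subtype.ext h.symm⟩
        · exact ⟨Sum.inl ⟨u, hD i h⟩, Finset.inl_mem_disjSum.2 (Finset.mem_filter.2 ⟨mem_univ _, h⟩), rfl⟩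
      · rintro ⟨a, ha, rfl⟩
        refine ⟨mem_univ _, ?_⟩
        rcases a with a | a
        · exact Finset.mem_insert_of_mem (Finset.mem_filter.1 (Finset.inl_mem_disjSum.1 ha)).2
        · exact Finset.mem_insert_self _ _)
    (fun i => matD (D i * (p : ℤ))) f
  rw [← h1]
  congr 1
  funext i
  rw [matD_sub (hA i) hp (hpD i)]
  unfold sym
  rw [sum_tR D hD i fun r => nrp p r]
  rfl

open scoped Classical in
/-- the average of the laws over the primes -/
theorem jf_mean {R : Finset ℕ} (hR : ∀ r ∈ R, r.Prime ∧ r ≠ 2 ∧ r ≠ 7) {D : Fin m → ℤ}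
    (hD : ∀ i, (D i).natAbs.primeFactors ⊆ R) (hA : ∀ i, AdmD (D i)) (k : ℕ)
    (f : (Fin m → ℝ) → ℝ) (g : ℕ → ℝ)
    (hg : ∀ p, ∀ hp : Spl p, p ∉ R → g p =
      jf k (iR (fun i => D i * (p : ℤ)) (sub_insert hD (fun i => (hA i).1.ne_zero) hp))
        (tR (insert p R) fun i => D i * (p : ℤ)) (fun i => matD (D i * (p : ℤ))) f) :
    Tendsto (fun X : ℕ => (∑ p ∈ (range (X + 1)).filter fun p => Spl p ∧ p ∉ R, g p) /
      (((range (X + 1)).filter fun p => Spl p).card : ℝ)) atTop
      (𝓝 (jf (k + 1) (iR D hD) (tR R D) (fun i => matD (D i)) f)) := by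
  rw [jf_succ]
  refine avg_primesR hR _ g fun p hp hpR => ?_
  rw [hg p hp hpR, jf_step hD hA hp hpR]

end

end Pool.Agent.Q1.PT
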