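import Pool.Agent.Q1.PT.JGen
import Pool.Agent.Q1.PT.JEff

/-!
# The chain of borderings forgets its past: independent successors
-/

set_option autoImplicit false

namespace Pool.Agent.Q1.PT

open Finset Module Q283.TW
open Pool.Agent.Y703.CQ (c2)

theorem bord_symm' {a : Type} [Fintype a] [DecidableEq a] {M : Matrix a a (ZMod 2)} (hM : M.IsSymm)
    (v : a → ZMod 2) (d : ZMod 2) : (bord M v d).IsSymm := by
  unfold bord
  rw [Matrix.IsSymm, Matrix.fromBlocks_transpose]
  congr 1
  rw [Matrix.transpose_add, hM.eq, Matrix.diagonal_transpose]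

theorem avg_eval {X : Type} [Fintype X] [Nonempty X] (b : Bool) (f : X → ℝ) :
    (avg fun z : Bool → X => f (z b)) = avg f := by
  have h1 : (avg fun z : Bool → X => f (z b)) =
      avg fun p : X × X => f (if b = false then p.1 else p.2) := by
    rw [← avg_equiv (Equiv.boolArrowEquivProd X)]
    congr 1
    funext z
    cases b <;> rfl
  rw [h1, ← avg_prod2 fun x y => f (if b = false then x else y)]
  cases b
  · simp only [if_true]
    congr 1
    funext x
    exact avg_const _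
  · simp only [Bool.true_eq_false, if_false]
    exact avg_const _

theorem avg_eval2 {X : Type} [Fintype X] (f g : X → ℝ) :
    (avg fun z : Bool → X => f (z false) * g (z true)) = avg f * avg g := by
  have h1 : (avg fun z : Bool → X => f (z false) * g (z true)) =
      avg fun p : X × X => f p.1 * g p.2 := by
    rw [← avg_equiv (Equiv.boolArrowEquivProd X)]
    rfl
  rw [h1, ← avg_prod2 fun x y => f x * g y]
  have h2 : ∀ x, (avg fun y => f x * g y) = avg g * f x := fun x => by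
    rw [avg_mul, mul_comm]
  simp_rw [h2]
  rw [avg_mul, mul_comm]

/-- Jensen's inequality -/
theorem sq_avg_le {α : Type} [Fintype α] (f : α → ℝ) : (avg f) ^ 2 ≤ avg fun a => f a ^ 2 := by
  unfold avg
  rcases isEmpty_or_nonempty α with h | h
  · simp
  have hc : (0 : ℝ) < Fintype.card α := by exact_mod_cast Fintype.card_pos
  rw [div_pow, div_le_div_iff₀ (by positivity) hc]
  have h1 := sq_sum_le_card_mul_sum_sq (s := (univ : Finset α)) (f := f)
  rw [Finset.card_univ] at h1
  nlinarith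

section
variable {I : Type} [Fintype I] [DecidableEq I]

/-- the polynomial of a pattern -/
noncomputable def ptn (A : Finset I) (b : I → ℝ) : ℝ := (∏ i ∈ A, b i) * ∏ i ∈ Aᶜ, (1 - b i)

theorem wt_nonneg (A : Finset I) : 0 ≤ wt A := by
  obtain ⟨h1, h2⟩ := c2_bounds
  exact mul_nonneg (pow_nonneg h1 _) (pow_nonneg (by linarith) _)

theorem wt_le_one (A : Finset I) : wt A ≤ 1 := by
  obtain ⟨h1, h2⟩ := c2_bounds
  exact mul_le_one₀ (pow_le_one₀ h1 h2) (pow_nonneg (by linarith) _)
    (pow_le_one₀ (by linarith) (by linarith))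

theorem ptn_map {J : Type} [Fintype J] [DecidableEq J] (e : J ≃ I) (A : Finset I) (b : J → ℝ) :
    ptn A (fun i => b (e.symm i)) = ptn (A.map e.symm.toEmbedding) b := by
  unfold ptn
  have h : (A.map e.symm.toEmbedding)ᶜ = Aᶜ.map e.symm.toEmbedding := by
    ext j
    simp only [Finset.mem_compl, Finset.mem_map_equiv]
  rw [h, Finset.prod_map, Finset.prod_map]
  rfl

theorem wt_map {J : Type} [Fintype J] [DecidableEq J] (e : J ≃ I) (A : Finset I) :
    wt (A.map e.symm.toEmbedding) = wt A := by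
  unfold wt
  rw [Finset.card_map, Fintype.card_congr e]

/-- **the law of the patterns, with a rate** -/
theorem jg_eff (I : Type) [Fintype I] [DecidableEq I] : ∃ b : ℕ, ∀ (s k : ℕ), b * (s + 1) ≤ k →
    ∀ {n : Type} [Fintype n] [DecidableEq n] {ni : I → Type} [∀ i, Fintype (ni i)]
    [∀ i, DecidableEq (ni i)] {ι : ∀ i, ni i → n}, (∀ i, Function.Injective (ι i)) →
    ∀ {t : I → Finset n}, Function.Injective t →
    ∀ {M : ∀ i, Matrix (ni i) (ni i) (ZMod 2)}, (∀ i, (M i).IsSymm) → ∀ A : Finset I,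
    |jg k ι t M (ptn A) - wt A| ≤ 2 ^ Fintype.card I *
      ((Fintype.card I * Fintype.card I + 2) * 4 ^ Fintype.card n * (1 / 2) ^ s) := by
  obtain ⟨b, hb⟩ := jf_pat_eff (Fintype.card I)
  refine ⟨b, fun s k hk n _ _ ni _ _ ι hι t ht M hM A => ?_⟩
  set e : Fin (Fintype.card I) ≃ I := (Fintype.equivFin I).symm with he
  have h1 : jg k ι t M (ptn A) = jf k (fun j => ι (e j)) (fun j => t (e j)) (fun j => M (e j))
      (pat (A.map e.symm.toEmbedding)) := by
    rw [jg_jf e]
    congr 1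
    funext b
    exact ptn_map e A b
  rw [h1, ← wt_map e A]
  exact hb s k hk (ι := fun j => ι (e j)) (fun j => hι _) (t := fun j => t (e j))
    (fun a a' h => e.injective (ht h)) (M := fun j => M (e j)) (fun j => hM _) _

end

/-! ### the next step -/

section
variable {I : Type} [Fintype I] [DecidableEq I] {n : Type} [Fintype n] [DecidableEq n]
  {ni : I → Type} [∀ i, Fintype (ni i)] [∀ i, DecidableEq (ni i)]

/-- the probability of the pattern `A` in the next step -/
noncomputable def qA (ι : ∀ i, ni i → n) (t : I → Finset n)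
    (M : ∀ i, Matrix (ni i) (ni i) (ZMod 2)) (A : Finset I) : ℝ :=
  avg fun y : (n → ZMod 2) × ZMod 2 => ptn A fun i => bM (bord (M i) (y.1 ∘ ι i) (∑ u ∈ t i, y.1 u + y.2))

end

/-- the mean of `∑_A (q_A - w_A)²` after `k` steps -/
noncomputable def es {I : Type} [Fintype I] [DecidableEq I] : (k : ℕ) → {n : Type} → [Fintype n] →
    [DecidableEq n] → {ni : I → Type} → [∀ i, Fintype (ni i)] → [∀ i, DecidableEq (ni i)] →
    (∀ i, ni i → n) → (I → Finset n) → (∀ i, Matrix (ni i) (ni i) (ZMod 2)) → ℝ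
  | 0, _, _, _, _, _, _, ι, t, M => ∑ A : Finset I, (qA ι t M A - wt A) ^ 2
  | k + 1, n, _, _, ni, _, _, ι, t, M => avg fun y : (n → ZMod 2) × ZMod 2 =>
      es k (n := n ⊕ Unit) (ni := fun i => ni i ⊕ Unit) (fun i => Sum.map (ι i) id)
        (fun i => exT (t i)) (fun i => bord (M i) (y.1 ∘ ι i) (∑ u ∈ t i, y.1 u + y.2))

/-- the mean of `∑_A |q_A - w_A|` after `k` steps -/
noncomputable def ed {I : Type} [Fintype I] [DecidableEq I] : (k : ℕ) → {n : Type} → [Fintype n] →
    [DecidableEq n] → {ni : I → Type} → [∀ i, Fintype (ni i)] → [∀ i, DecidableEq (ni i)] →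
    (∀ i, ni i → n) → (I → Finset n) → (∀ i, Matrix (ni i) (ni i) (ZMod 2)) → ℝ
  | 0, _, _, _, _, _, _, ι, t, M => ∑ A : Finset I, |qA ι t M A - wt A|
  | k + 1, n, _, _, ni, _, _, ι, t, M => avg fun y : (n → ZMod 2) × ZMod 2 =>
      ed k (n := n ⊕ Unit) (ni := fun i => ni i ⊕ Unit) (fun i => Sum.map (ι i) id)
        (fun i => exT (t i)) (fun i => bord (M i) (y.1 ∘ ι i) (∑ u ∈ t i, y.1 u + y.2))

section
variable {I : Type} [Fintype I] [DecidableEq I]

theorem es_succ (k : ℕ) {n : Type} [Fintype n] [DecidableEq n]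
    {ni : I → Type} [∀ i, Fintype (ni i)] [∀ i, DecidableEq (ni i)] (ι : ∀ i, ni i → n)
    (t : I → Finset n) (M : ∀ i, Matrix (ni i) (ni i) (ZMod 2)) :
    es (k + 1) ι t M = avg fun y : (n → ZMod 2) × ZMod 2 =>
      es k (n := n ⊕ Unit) (ni := fun i => ni i ⊕ Unit) (fun i => Sum.map (ι i) id)
        (fun i => exT (t i)) (fun i => bord (M i) (y.1 ∘ ι i) (∑ u ∈ t i, y.1 u + y.2)) := rfl

theorem ed_succ (k : ℕ) {n : Type} [Fintype n] [DecidableEq n]
    {ni : I → Type} [∀ i, Fintype (ni i)] [∀ i, DecidableEq (ni i)] (ι : ∀ i, ni i → n)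
    (t : I → Finset n) (M : ∀ i, Matrix (ni i) (ni i) (ZMod 2)) :
    ed (k + 1) ι t M = avg fun y : (n → ZMod 2) × ZMod 2 =>
      ed k (n := n ⊕ Unit) (ni := fun i => ni i ⊕ Unit) (fun i => Sum.map (ι i) id)
        (fun i => exT (t i)) (fun i => bord (M i) (y.1 ∘ ι i) (∑ u ∈ t i, y.1 u + y.2)) := rfl

theorem ed_nonneg (k : ℕ) : ∀ {n : Type} [Fintype n] [DecidableEq n] {ni : I → Type}
    [∀ i, Fintype (ni i)] [∀ i, DecidableEq (ni i)] (ι : ∀ i, ni i → n) (t : I → Finset n)
    (M : ∀ i, Matrix (ni i) (ni i) (ZMod 2)), 0 ≤ ed k ι t M := by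
  induction k with
  | zero =>
    intro n _ _ ni _ _ ι t M
    exact Finset.sum_nonneg fun _ _ => abs_nonneg _
  | succ k ih =>
    intro n _ _ ni _ _ ι t M
    rw [ed_succ]
    exact avg_nn fun y => ih _ _ _

theorem ed_sq (k : ℕ) : ∀ {n : Type} [Fintype n] [DecidableEq n] {ni : I → Type}
    [∀ i, Fintype (ni i)] [∀ i, DecidableEq (ni i)] (ι : ∀ i, ni i → n) (t : I → Finset n)
    (M : ∀ i, Matrix (ni i) (ni i) (ZMod 2)),
    ed k ι t M ^ 2 ≤ 2 ^ Fintype.card I * es k ι t M := by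
  induction k with
  | zero =>
    intro n _ _ ni _ _ ι t M
    have h1 := sq_sum_le_card_mul_sum_sq (s := (univ : Finset (Finset I)))
      (f := fun A => |qA ι t M A - wt A|)
    rw [Finset.card_univ, Fintype.card_finset] at h1
    simp only [sq_abs] at h1
    push_cast at h1
    exact h1
  | succ k ih =>
    intro n _ _ ni _ _ ι t M
    rw [ed_succ, es_succ, ← avg_mul]
    exact (sq_avg_le _).trans (avg_mono fun y => ih _ _ _)

theorem es_eq (k : ℕ) : ∀ {n : Type} [Fintype n] [DecidableEq n] {ni : I → Type}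
    [∀ i, Fintype (ni i)] [∀ i, DecidableEq (ni i)] (ι : ∀ i, ni i → n) (t : I → Finset n)
    (M : ∀ i, Matrix (ni i) (ni i) (ZMod 2)),
    es k ι t M = ∑ A : Finset I, (sq k ι t M (fun B => ptn A (fun i => B (i, false)) *
      ptn A fun i => B (i, true)) - 2 * wt A * jg (k + 1) ι t M (ptn A) + wt A ^ 2) := by
  induction k with
  | zero =>
    intro n _ _ ni _ _ ι t M
    refine Finset.sum_congr rfl fun A _ => ?_
    rw [sq_zero]
    have h1 : (avg fun z : Bool → (n → ZMod 2) × ZMod 2 =>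
        (ptn A fun i => bM (bord (M i) ((z false).1 ∘ ι i) (∑ u ∈ t i, (z false).1 u + (z false).2))) *
        ptn A fun i => bM (bord (M i) ((z true).1 ∘ ι i) (∑ u ∈ t i, (z true).1 u + (z true).2))) =
        qA ι t M A * qA ι t M A :=
      avg_eval2 (X := (n → ZMod 2) × ZMod 2)
        (fun y => ptn A fun i => bM (bord (M i) (y.1 ∘ ι i) (∑ u ∈ t i, y.1 u + y.2)))
        fun y => ptn A fun i => bM (bord (M i) (y.1 ∘ ι i) (∑ u ∈ t i, y.1 u + y.2))
    have h2 : jg (0 + 1) ι t M (ptn A) = qA ι t M A := rfl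
    rw [h2]
    refine Eq.trans ?_ (congrArg (fun x => x - 2 * wt A * qA ι t M A + wt A ^ 2) h1.symm)
    ring
  | succ k ih =>
    intro n _ _ ni _ _ ι t M
    rw [es_succ]
    have h1 : ∀ y : (n → ZMod 2) × ZMod 2,
        es k (n := n ⊕ Unit) (ni := fun i => ni i ⊕ Unit) (fun i => Sum.map (ι i) id)
        (fun i => exT (t i)) (fun i => bord (M i) (y.1 ∘ ι i) (∑ u ∈ t i, y.1 u + y.2)) = _ :=
      fun y => ih _ _ _
    simp_rw [h1]
    rw [avg_sum]
    refine Finset.sum_congr rfl fun A _ => ?_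
    rw [avg_add, avg_sub, avg_mul, avg_const, sq_succ, jg_succ (k + 1)]

theorem abs_avg_sub_le {α : Type} [Fintype α] [Nonempty α] {F : α → ℝ} {w E : ℝ}
    (h : ∀ a, |F a - w| ≤ E) : |avg F - w| ≤ E := by
  have h1 : avg F - w = avg fun a => (F a - w) := by rw [avg_sub, avg_const]
  rw [h1]
  exact (abs_avg _).trans ((avg_mono h).trans (le_of_eq (avg_const _)))

theorem sib_t_inj {n : Type} {t : I → Finset n} (ht : Function.Injective t) :
    Function.Injective fun p : I × Bool => (t p.1).disjSum {p.2} := by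
  intro p p' h
  have h' : (t p.1).disjSum {p.2} = (t p'.1).disjSum {p'.2} := h
  have h4 : t p.1 = t p'.1 := by
    ext u
    have h5 : (Sum.inl u : n ⊕ Bool) ∈ (t p.1).disjSum {p.2} ↔
        (Sum.inl u : n ⊕ Bool) ∈ (t p'.1).disjSum {p'.2} := by rw [h']
    rwa [Finset.inl_mem_disjSum, Finset.inl_mem_disjSum] at h5
  have h6 : p.2 = p'.2 := by
    have h5 : (Sum.inr p.2 : n ⊕ Bool) ∈ (t p'.1).disjSum {p'.2} := by
      rw [← h']
      exact Finset.inr_mem_disjSum.2 (Finset.mem_singleton_self _)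
    exact Finset.mem_singleton.1 (Finset.inr_mem_disjSum.1 h5)
  exact Prod.ext (ht h4) h6

/-- the siblings -/
theorem sq_near {k : ℕ} {C : ℝ} (h : ∀ {n : Type} [Fintype n] [DecidableEq n]
    {ni : I × Bool → Type} [∀ i, Fintype (ni i)] [∀ i, DecidableEq (ni i)] {ι : ∀ i, ni i → n},
    (∀ i, Function.Injective (ι i)) → ∀ {t : I × Bool → Finset n}, Function.Injective t →
    ∀ {M : ∀ i, Matrix (ni i) (ni i) (ZMod 2)}, (∀ i, (M i).IsSymm) → ∀ A : Finset (I × Bool),
    |jg k ι t M (ptn A) - wt A| ≤ C * 4 ^ Fintype.card n) {n : Type} [Fintype n] [DecidableEq n]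
    {ni : I → Type} [∀ i, Fintype (ni i)] [∀ i, DecidableEq (ni i)] {ι : ∀ i, ni i → n}
    (hι : ∀ i, Function.Injective (ι i)) {t : I → Finset n} (ht : Function.Injective t)
    {M : ∀ i, Matrix (ni i) (ni i) (ZMod 2)} (hM : ∀ i, (M i).IsSymm) (A : Finset (I × Bool)) :
    |sq k ι t M (ptn A) - wt A| ≤ C * 4 ^ (Fintype.card n + 2) := by
  rw [sq_eq]
  refine abs_avg_sub_le fun z => ?_
  have h1 := h (n := n ⊕ Bool) (ni := fun p => ni p.1 ⊕ Unit)
    (ι := fun p => Sum.map (ι p.1) fun _ => p.2) (fun p => (hι p.1).sumMap fun _ _ _ => rfl)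
    (t := fun p => (t p.1).disjSum {p.2}) (sib_t_inj ht)
    (M := fun p => bord (M p.1) ((z p.2).1 ∘ ι p.1) (∑ u ∈ t p.1, (z p.2).1 u + (z p.2).2))
    (fun p => bord_symm' (hM p.1) _ _) A
  rw [Fintype.card_sum, Fintype.card_bool] at h1
  exact h1

/-- the constant -/
noncomputable def K1c (I : Type) [Fintype I] : ℝ := 2 ^ Fintype.card I *
  (Fintype.card I * Fintype.card I + 2)

theorem K1c_nonneg : 0 ≤ K1c I := by
  unfold K1c
  positivity

/-- the mean of the squares -/
theorem es_eff (I : Type) [Fintype I] [DecidableEq I] : ∃ b : ℕ, ∀ (s k : ℕ), b * (s + 1) ≤ k →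
    ∀ {n : Type} [Fintype n] [DecidableEq n] {ni : I → Type} [∀ i, Fintype (ni i)]
    [∀ i, DecidableEq (ni i)] {ι : ∀ i, ni i → n}, (∀ i, Function.Injective (ι i)) →
    ∀ {t : I → Finset n}, Function.Injective t →
    ∀ {M : ∀ i, Matrix (ni i) (ni i) (ZMod 2)}, (∀ i, (M i).IsSymm) →
    es k ι t M ≤ 2 ^ Fintype.card I * (K1c (I × Bool) * (1 / 2) ^ s * 4 ^ (Fintype.card n + 2) +
      2 * (K1c I * (1 / 2) ^ s * 4 ^ Fintype.card n)) := by
  obtain ⟨b1, h1⟩ := jg_eff (I × Bool)
  obtain ⟨b2, h2⟩ := jg_eff I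
  refine ⟨b1 + b2, fun s k hk n _ _ ni _ _ ι hι t ht M hM => ?_⟩
  have hk1 : b1 * (s + 1) ≤ k := (Nat.mul_le_mul_right _ (Nat.le_add_right b1 b2)).trans hk
  have hk2 : b2 * (s + 1) ≤ k + 1 :=
    (Nat.mul_le_mul_right _ (Nat.le_add_left b2 b1)).trans (hk.trans (Nat.le_succ k))
  rw [es_eq]
  have hA : ∀ A ∈ (univ : Finset (Finset I)), (sq k ι t M (fun B => ptn A (fun i => B (i, false)) *
      ptn A fun i => B (i, true)) - 2 * wt A * jg (k + 1) ι t M (ptn A) + wt A ^ 2) ≤
      K1c (I × Bool) * (1 / 2) ^ s * 4 ^ (Fintype.card n + 2) +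
      2 * (K1c I * (1 / 2) ^ s * 4 ^ Fintype.card n) := by
    intro A _
    have e1 : (fun B : I × Bool → ℝ => ptn A (fun i => B (i, false)) * ptn A fun i => B (i, true)) =
        ptn (A ×ˢ (univ : Finset Bool)) := by
      funext B
      unfold ptn
      have hc : (A ×ˢ (univ : Finset Bool))ᶜ = Aᶜ ×ˢ (univ : Finset Bool) := by
        ext p
        simp only [Finset.mem_compl, Finset.mem_product, Finset.mem_univ, and_true]
      rw [hc, Finset.prod_product, Finset.prod_product]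
      simp only [Fintype.prod_bool]
      rw [Finset.prod_mul_distrib, Finset.prod_mul_distrib]
      ring
    have e2 : wt (A ×ˢ (univ : Finset Bool)) = wt A ^ 2 := by
      unfold wt
      rw [Finset.card_product, Finset.card_univ, Fintype.card_bool, Fintype.card_prod,
        Fintype.card_bool, ← Nat.sub_mul, pow_mul, pow_mul, mul_pow]
    rw [e1]
    have h3 := sq_near (I := I) (k := k) (C := K1c (I × Bool) * (1 / 2) ^ s)
      (fun {n} _ _ {ni} _ _ {ι} hι {t} ht {M} hM A => (h1 s k hk1 hι ht hM A).trans (le_of_eq (by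
        unfold K1c
        ring))) hι ht hM (A ×ˢ (univ : Finset Bool))
    rw [e2] at h3
    have h4 := (h2 s (k + 1) hk2 hι ht hM A).trans (le_of_eq (show _ =
      K1c I * (1 / 2) ^ s * 4 ^ Fintype.card n by unfold K1c; ring))
    have hw0 := wt_nonneg A
    have hw1 := wt_le_one A
    have h5 := (abs_le.1 h3).2
    have h6 := (abs_le.1 h4).1
    have hE0 : 0 ≤ K1c I * (1 / 2) ^ s * 4 ^ Fintype.card n :=
      mul_nonneg (mul_nonneg K1c_nonneg (by positivity)) (by positivity)
    generalize K1c I * (1 / 2) ^ s * 4 ^ Fintype.card n = E2 at *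
    generalize K1c (I × Bool) * (1 / 2) ^ s * 4 ^ (Fintype.card n + 2) = E1 at *
    generalize sq k ι t M (ptn (A ×ˢ (univ : Finset Bool))) = x at *
    generalize jg (k + 1) ι t M (ptn A) = y at *
    generalize wt A = w at *
    nlinarith [mul_le_mul_of_nonneg_right hw1 hE0, mul_le_mul_of_nonneg_left h6 hw0]
  refine (Finset.sum_le_sum hA).trans (le_of_eq ?_)
  rw [Finset.sum_const, Finset.card_univ, Fintype.card_finset, nsmul_eq_mul]
  push_cast
  ring

end

end Pool.Agent.Q1.PT
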