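import Pool.Agent.Q1.PT.Near

/-!
# Several chains of borderings with the same new vertices
-/

set_option autoImplicit false

namespace Pool.Agent.Q1.PT

open Finset Module Q283.TW
open Pool.Agent.Y697.PP (Sy Nd YY mem_YY)
open Pool.Agent.Y697.PQ (JJ mem_JJ)
open Pool.Agent.Y703.CQ (c2)

/-- the set with the new vertex -/
def exT {n : Type} (t : Finset n) : Finset (n ⊕ Unit) := t.disjSum univ

theorem sum_exT {n : Type} (t : Finset n) (f : n ⊕ Unit → ZMod 2) :
    ∑ u ∈ exT t, f u = ∑ u ∈ t, f (Sum.inl u) + f (Sum.inr ()) := by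
  unfold exT
  rw [Finset.sum_disjSum, Finset.univ_unique, Finset.sum_singleton]

/-- the mean of `f (b_1, …, b_m)`, where `b_i` is the indicator of the `i`-th matrix after `k` steps -/
noncomputable def jf {m : ℕ} : (k : ℕ) → {n : Type} → [Fintype n] → [DecidableEq n] →
    {ni : Fin m → Type} → [∀ i, Fintype (ni i)] → [∀ i, DecidableEq (ni i)] →
    (∀ i, ni i → n) → (Fin m → Finset n) → (∀ i, Matrix (ni i) (ni i) (ZMod 2)) →
    ((Fin m → ℝ) → ℝ) → ℝ
  | 0, _, _, _, _, _, _, _, _, M, f => f fun i => bM (M i)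
  | k + 1, n, _, _, ni, _, _, ι, t, M, f => avg fun y : (n → ZMod 2) × ZMod 2 =>
      jf k (n := n ⊕ Unit) (ni := fun i => ni i ⊕ Unit) (fun i => Sum.map (ι i) id)
        (fun i => exT (t i)) (fun i => bord (M i) (y.1 ∘ ι i) (∑ u ∈ t i, y.1 u + y.2)) f

section
variable {m : ℕ} {n : Type} [Fintype n] [DecidableEq n] {ni : Fin m → Type} [∀ i, Fintype (ni i)]
  [∀ i, DecidableEq (ni i)]

theorem jf_zero (ι : ∀ i, ni i → n) (t : Fin m → Finset n) (M : ∀ i, Matrix (ni i) (ni i) (ZMod 2))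
    (f : (Fin m → ℝ) → ℝ) : jf 0 ι t M f = f fun i => bM (M i) := rfl

theorem jf_succ (k : ℕ) (ι : ∀ i, ni i → n) (t : Fin m → Finset n)
    (M : ∀ i, Matrix (ni i) (ni i) (ZMod 2)) (f : (Fin m → ℝ) → ℝ) :
    jf (k + 1) ι t M f = avg fun y : (n → ZMod 2) × ZMod 2 =>
      jf k (n := n ⊕ Unit) (ni := fun i => ni i ⊕ Unit) (fun i => Sum.map (ι i) id)
        (fun i => exT (t i)) (fun i => bord (M i) (y.1 ∘ ι i) (∑ u ∈ t i, y.1 u + y.2)) f := rfl

/-- the parameters of the `i`-th chain -/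
def par {k : ℕ} (ι : ∀ i, ni i → n) (t : Fin m → Finset n) (i : Fin m) (ω : Om n k) : Om (ni i) k :=
  (fun l u => ω.1 l (ι i u), fun l => ω.2.1 l + ∑ u ∈ t i, ω.1 l u + ∑ u, ω.1 l (ι i u), ω.2.2)

end

/-- the decomposition of the common parameters -/
def dcJ (n : Type) (k : ℕ) : Om n (k + 1) →+ ((n → ZMod 2) × ZMod 2) × Om (n ⊕ Unit) k where
  toFun ω := ((ω.1 0, ω.2.1 0),
    (fun l => Sum.elim (ω.1 l.succ) fun _ : Unit => ω.2.2 0 l.succ), (fun l => ω.2.1 l.succ),
    fun i j => ω.2.2 i.succ j.succ)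
  map_zero' := by
    refine Prod.ext rfl (Prod.ext ?_ rfl)
    funext l w
    rcases w with u | w <;> rfl
  map_add' ω ω' := by
    refine Prod.ext rfl (Prod.ext ?_ rfl)
    funext l w
    rcases w with u | w <;> rfl

theorem dcJ_surj (n : Type) (k : ℕ) : Function.Surjective (dcJ n k) := by
  rintro ⟨⟨v, d⟩, C, e, a⟩
  refine ⟨(Fin.cons v fun l u => C l (Sum.inl u), Fin.cons d e,
    Fin.cons (Fin.cons 0 fun l => C l (Sum.inr ())) fun i => Fin.cons 0 (a i)), ?_⟩
  refine Prod.ext (Prod.ext ?_ ?_) (Prod.ext ?_ (Prod.ext ?_ ?_))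
  · rfl
  · rfl
  · funext l w
    rcases w with u | w <;> rfl
  · rfl
  · rfl

open Classical in
/-- **the joint law of the chains in terms of the parameters** -/
theorem jf_eq {m : ℕ} (k : ℕ) : ∀ {n : Type} [Fintype n] [DecidableEq n] {ni : Fin m → Type}
    [∀ i, Fintype (ni i)] [∀ i, DecidableEq (ni i)] (ι : ∀ i, ni i → n) (t : Fin m → Finset n)
    (M : ∀ i, Matrix (ni i) (ni i) (ZMod 2)) (f : (Fin m → ℝ) → ℝ),
    jf k ι t M f = avg fun ω : Om n k => f fun i =>
      if Nf (M i) (par ι t i ω).1 (par ι t i ω).2.1 (par ι t i ω).2.2 then (1 : ℝ) else 0 := by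
  induction k with
  | zero =>
    intro n _ _ ni _ _ ι t M f
    rw [jf_zero]
    have h : ∀ ω : Om n 0, (f fun i => if Nf (M i) (par ι t i ω).1 (par ι t i ω).2.1
        (par ι t i ω).2.2 then (1 : ℝ) else 0) = f fun i => bM (M i) := by
      intro ω
      congr 1
      funext i
      unfold bM
      exact if_congr (nf_zero (M i) _ _ _) rfl rfl
    simp_rw [h]
    rw [avg_const]
  | succ k ih =>
    intro n _ _ ni _ _ ι t M f
    rw [jf_succ]
    have h1 : ∀ y : (n → ZMod 2) × ZMod 2, jf k (n := n ⊕ Unit) (ni := fun i => ni i ⊕ Unit)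
        (fun i => Sum.map (ι i) id) (fun i => exT (t i))
        (fun i => bord (M i) (y.1 ∘ ι i) (∑ u ∈ t i, y.1 u + y.2)) f =
        avg fun ω : Om (n ⊕ Unit) k => f fun i =>
          if Nf (bord (M i) (y.1 ∘ ι i) (∑ u ∈ t i, y.1 u + y.2))
            (par (n := n ⊕ Unit) (ni := fun i => ni i ⊕ Unit) (fun i => Sum.map (ι i) id)
              (fun i => exT (t i)) i ω).1
            (par (n := n ⊕ Unit) (ni := fun i => ni i ⊕ Unit) (fun i => Sum.map (ι i) id)
              (fun i => exT (t i)) i ω).2.1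
            (par (n := n ⊕ Unit) (ni := fun i => ni i ⊕ Unit) (fun i => Sum.map (ι i) id)
              (fun i => exT (t i)) i ω).2.2 then (1 : ℝ) else 0 := fun y => ih _ _ _ _
    simp_rw [h1]
    rw [← avg_prod (fun z : ((n → ZMod 2) × ZMod 2) × Om (n ⊕ Unit) k => f fun i =>
          if Nf (bord (M i) (z.1.1 ∘ ι i) (∑ u ∈ t i, z.1.1 u + z.1.2))
            (par (n := n ⊕ Unit) (ni := fun i => ni i ⊕ Unit) (fun i => Sum.map (ι i) id)
              (fun i => exT (t i)) i z.2).1
            (par (n := n ⊕ Unit) (ni := fun i => ni i ⊕ Unit) (fun i => Sum.map (ι i) id)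
              (fun i => exT (t i)) i z.2).2.1
            (par (n := n ⊕ Unit) (ni := fun i => ni i ⊕ Unit) (fun i => Sum.map (ι i) id)
              (fun i => exT (t i)) i z.2).2.2 then (1 : ℝ) else 0)]
    rw [← avg_hom (dcJ n k) (dcJ_surj n k)]
    congr 1
    funext ω
    congr 1
    funext i
    refine if_congr ?_ rfl rfl
    have h2 := nf_succ (M i) (par ι t i ω).1 (par ι t i ω).2.1 (par ι t i ω).2.2
    rw [← h2]
    have e1 : (par ι t i ω).2.1 0 + ∑ u, (par ι t i ω).1 0 u =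
        ∑ u ∈ t i, (dcJ n k ω).1.1 u + (dcJ n k ω).1.2 := by
      show ω.2.1 0 + ∑ u ∈ t i, ω.1 0 u + ∑ u, ω.1 0 (ι i u) + ∑ u, ω.1 0 (ι i u) =
        ∑ u ∈ t i, ω.1 0 u + ω.2.1 0
      rw [add_assoc, two_zero, add_zero, add_comm]
    have e2 : (fun (l : Fin k) => Sum.elim ((par ι t i ω).1 l.succ) fun _ : Unit =>
        (par ι t i ω).2.2 0 l.succ) = (par (n := n ⊕ Unit) (ni := fun i => ni i ⊕ Unit)
          (fun i => Sum.map (ι i) id) (fun i => exT (t i)) i (dcJ n k ω).2).1 := by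
      funext l w
      rcases w with u | w <;> rfl
    have e3 : (fun l : Fin k => (par ι t i ω).2.1 l.succ) =
        (par (n := n ⊕ Unit) (ni := fun i => ni i ⊕ Unit)
          (fun i => Sum.map (ι i) id) (fun i => exT (t i)) i (dcJ n k ω).2).2.1 := by
      funext l
      show ω.2.1 l.succ + ∑ u ∈ t i, ω.1 l.succ u + ∑ u, ω.1 l.succ (ι i u) =
        ω.2.1 l.succ + ∑ u ∈ exT (t i), Sum.elim (ω.1 l.succ) (fun _ : Unit => ω.2.2 0 l.succ) u +
          ∑ u : ni i ⊕ Unit, Sum.elim (ω.1 l.succ) (fun _ : Unit => ω.2.2 0 l.succ)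
            (Sum.map (ι i) id u)
      rw [sum_exT, Fintype.sum_sum_type]
      simp only [Sum.elim_inl, Sum.elim_inr, Sum.map_inl, Sum.map_inr, id, Finset.univ_unique,
        Finset.sum_singleton]
      generalize ω.2.1 l.succ = a
      generalize ∑ u ∈ t i, ω.1 l.succ u = b
      generalize ∑ u, ω.1 l.succ (ι i u) = c
      generalize ω.2.2 0 l.succ = d
      revert a b c d
      decide
    rw [← e2, ← e3, ← e1]
    exact Iff.rfl

/-- the law does not depend on the names -/
theorem jf_equiv {m : ℕ} (k : ℕ) : ∀ {n : Type} [Fintype n] [DecidableEq n] {ni : Fin m → Type}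
    [∀ i, Fintype (ni i)] [∀ i, DecidableEq (ni i)] {n' : Type} [Fintype n'] [DecidableEq n']
    {ni' : Fin m → Type} [∀ i, Fintype (ni' i)] [∀ i, DecidableEq (ni' i)]
    (e : n ≃ n') (ei : ∀ i, ni i ≃ ni' i) (ι : ∀ i, ni i → n) (ι' : ∀ i, ni' i → n')
    (_ : ∀ i a, ι' i (ei i a) = e (ι i a)) (t : Fin m → Finset n) (t' : Fin m → Finset n')
    (_ : ∀ i, t' i = (t i).map e.toEmbedding)
    (M' : ∀ i, Matrix (ni' i) (ni' i) (ZMod 2)) (f : (Fin m → ℝ) → ℝ),
    jf k ι t (fun i => (M' i).submatrix (ei i) (ei i)) f = jf k ι' t' M' f := by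
  induction k with
  | zero =>
    intro n _ _ ni _ _ n' _ _ ni' _ _ e ei ι ι' hι t t' ht M' f
    rw [jf_zero, jf_zero]
    congr 1
    funext i
    rw [bM, bM, Matrix.det_submatrix_equiv_self]
  | succ k ih =>
    intro n _ _ ni _ _ n' _ _ ni' _ _ e ei ι ι' hι t t' ht M' f
    rw [jf_succ, jf_succ]
    rw [← avg_equiv ((e.arrowCongr (Equiv.refl (ZMod 2))).prodCongr (Equiv.refl (ZMod 2)))]
    congr 1
    funext y
    have h1 := ih (n := n ⊕ Unit) (ni := fun i => ni i ⊕ Unit) (n' := n' ⊕ Unit)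
      (ni' := fun i => ni' i ⊕ Unit) (e.sumCongr (Equiv.refl Unit))
      (fun i => (ei i).sumCongr (Equiv.refl Unit)) (fun i => Sum.map (ι i) id)
      (fun i => Sum.map (ι' i) id) (by
        intro i a
        rcases a with a | a
        · show Sum.inl (ι' i (ei i a)) = Sum.inl (e (ι i a))
          rw [hι]
        · rfl) (fun i => exT (t i)) (fun i => exT (t' i)) (by
        intro i
        rw [ht]
        ext u
        unfold exT
        rcases u with u | u
        · simp only [Finset.inl_mem_disjSum, Finset.mem_map, Equiv.coe_toEmbedding]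
          constructor
          · rintro ⟨a, ha, rfl⟩
            exact ⟨Sum.inl a, Finset.inl_mem_disjSum.2 ha, rfl⟩
          · rintro ⟨a, ha, h⟩
            rcases a with a | a
            · exact ⟨a, Finset.inl_mem_disjSum.1 ha, Sum.inl_injective h⟩
            · exact absurd h (by simp)
        · simp only [Finset.inr_mem_disjSum, Finset.mem_map, Equiv.coe_toEmbedding]
          constructor
          · intro _
            exact ⟨Sum.inr u, Finset.inr_mem_disjSum.2 (mem_univ _), rfl⟩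
          · intro _
            exact mem_univ _)
      (fun i => bord (M' i) (((e.arrowCongr (Equiv.refl (ZMod 2))) y.1) ∘ ι' i)
        (∑ u ∈ t' i, ((e.arrowCongr (Equiv.refl (ZMod 2))) y.1) u + y.2)) f
    refine Eq.trans ?_ h1
    congr 1
    funext i
    rw [bord_submatrix]
    have e1 : (y.1 ∘ ι i) ∘ (ei i).symm = ((e.arrowCongr (Equiv.refl (ZMod 2))) y.1) ∘ ι' i := by
      funext a
      show y.1 (ι i ((ei i).symm a)) = y.1 (e.symm (ι' i a))
      have h2 := hι i ((ei i).symm a)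
      rw [Equiv.apply_symm_apply] at h2
      rw [h2, Equiv.symm_apply_apply]
    have e2 : ∑ u ∈ t i, y.1 u = ∑ u ∈ t' i, ((e.arrowCongr (Equiv.refl (ZMod 2))) y.1) u := by
      rw [ht, Finset.sum_map]
      refine Finset.sum_congr rfl fun u _ => ?_
      show y.1 u = y.1 (e.symm (e u))
      rw [Equiv.symm_apply_apply]
    rw [e1, e2]

end Pool.Agent.Q1.PT
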