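import Pool.Agent.Q1.PT.Cnt

/-!
# The two-point law of the chain of borderings
-/

set_option autoImplicit false

namespace Pool.Agent.Q1.PT

open Finset Module
open Pool.Agent.Y697.PP (Sy Nd YY mem_YY)
open Pool.Agent.Y697.PQ (JJ mem_JJ)
open Pool.Agent.Y703.CQ (c2)

section
variable {n : Type} [Fintype n] {l : ℕ}

/-- the kernel of the `k`-th matrix in the chain is zero -/
def NP {k : ℕ} (M : Matrix n n (ZMod 2)) (h : k ≤ l) (ω : Om n l) : Prop :=
  Nf M (pre h ω).1 (pre h ω).2.1 (pre h ω).2.2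

open Classical in
/-- the indicator -/
noncomputable def ind {k : ℕ} (M : Matrix n n (ZMod 2)) (h : k ≤ l) (ω : Om n l) : ℝ :=
  if NP M h ω then 1 else 0

theorem ind_nonneg {k : ℕ} (M : Matrix n n (ZMod 2)) (h : k ≤ l) (ω : Om n l) : 0 ≤ ind M h ω := by
  unfold ind
  split_ifs <;> norm_num

theorem ind_le_one {k : ℕ} (M : Matrix n n (ZMod 2)) (h : k ≤ l) (ω : Om n l) : ind M h ω ≤ 1 := by
  unfold ind
  split_ifs <;> norm_num

end

section
variable {n : Type} [Fintype n] [DecidableEq n] {l : ℕ}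

theorem np_iff {k : ℕ} (M : Matrix n n (ZMod 2)) (h : k ≤ l) (ω : Om n l) :
    NP M h ω ↔ Nd (BF M (tr (K1 k l) ω)) ⊤ := by
  rw [nd_top, nf_tr h]
  exact Iff.rfl

theorem np_self (M : Matrix n n (ZMod 2)) (ω : Om n l) : NP M le_rfl ω ↔ Nd (BF M ω) ⊤ := by
  rw [nd_top]
  exact Iff.rfl

theorem pow_le_of {a b : ℕ} (h : (2 : ℝ) ^ a ≤ 2 ^ b) : a ≤ b :=
  (pow_le_pow_iff_right₀ (by norm_num : (1 : ℝ) < 2)).1 h

theorem JJ_swap {V : Type} [AddCommGroup V] [Module (ZMod 2) V] [Finite V]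
    (B B' : LinearMap.BilinForm (ZMod 2) V) (W : Submodule (ZMod 2) V) :
    finrank (ZMod 2) (JJ B' B W) ≤ finrank (ZMod 2) (JJ B B' W) := by
  have hfin : Module.Finite (ZMod 2) V := Module.Finite.of_finite
  let φ : JJ B' B W →ₗ[ZMod 2] JJ B B' W :=
    { toFun := fun p => ⟨(p.1.2, p.1.1), by
        obtain ⟨h1, h2, h3⟩ := mem_JJ.1 p.2
        refine mem_JJ.2 ⟨by rw [add_comm]; exact h1, h2.symm, ?_⟩
        intro w hw
        have h4 := h3 w hw
        rw [h2] at h4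
        exact h4⟩
      map_add' := fun _ _ => rfl
      map_smul' := fun _ _ => rfl }
  refine LinearMap.finrank_le_finrank_of_injective (f := φ) ?_
  rintro ⟨⟨p, q⟩, hp⟩ ⟨⟨p', q'⟩, hp'⟩ h
  have h1 : ((q, p) : V × V) = (q', p') := congrArg Subtype.val h
  have h2 := Prod.mk.inj h1
  exact Subtype.ext (Prod.ext h2.2 h2.1)

theorem c2_bounds : 0 ≤ c2 ∧ c2 ≤ 1 :=
  ⟨Pool.Agent.Y948.CQ.t_C2.2.1.le, Pool.Agent.Y948.CQ.t_C2.2.2.1.le⟩

theorem abs_sub_le_one {a b : ℝ} (ha : 0 ≤ a) (ha1 : a ≤ 1) (hb : 0 ≤ b) (hb1 : b ≤ 1) :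
    |a - b| ≤ 1 := by
  rw [abs_le]
  constructor <;> linarith

theorem avg_le_one {α : Type} [Fintype α] [Nonempty α] {f : α → ℝ} (h : ∀ a, f a ≤ 1) : avg f ≤ 1 :=
  (avg_mono h).trans (le_of_eq (avg_const 1))

theorem avg_nn {α : Type} [Fintype α] {f : α → ℝ} (h : ∀ a, 0 ≤ f a) : 0 ≤ avg f := by
  unfold avg
  exact div_nonneg (Finset.sum_nonneg fun a _ => h a) (Nat.cast_nonneg _)

open Classical in
/-- **the two-point law, near** -/
theorem near (ε : ℝ) (hε : 0 < ε) (N : ℕ) : ∃ c : ℕ, ∀ (n : Type) [Fintype n] [DecidableEq n],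
    Fintype.card n = N → ∀ M : Matrix n n (ZMod 2), M.IsSymm → ∀ (k l : ℕ) (h : k < l), c ≤ k →
    (l - k) + c ≤ k →
    |(avg fun ω : Om n l => ind M h.le ω * ind M le_rfl ω) - c2 ^ 2| ≤ ε := by
  obtain ⟨R, hR⟩ := law 2 (ε / 2) (half_pos hε)
  set C : ℝ := 2 ^ N + 4 ^ N * 2 ^ R * 7 with hC
  have hC0 : 0 < C := by positivity
  obtain ⟨c0, hc0⟩ := exists_pow_lt_of_lt_one (show (0 : ℝ) < ε / 2 / C by positivity)
    (show (3 / 4 : ℝ) < 1 by norm_num)
  refine ⟨c0 + N + R, ?_⟩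
  intro n _ _ hn M hM k l h hk hj
  set j := l - k with hjd
  have hj1 : 1 ≤ j := by omega
  set K := K1 k l with hK
  have hKc : K.card = k := card_K1 h.le
  obtain ⟨hc0', hc1'⟩ := c2_bounds
  -- the function of both events
  have hF : ∀ ω : Om n l, ind M h.le ω * ind M le_rfl ω =
      if (∀ i : Fin 2, Nd ((![BF M (tr K ω), BF M ω] : Fin 2 → LinearMap.BilinForm (ZMod 2) (VV n l)) i)
        ⊤) then (1 : ℝ) else 0 := by
    intro ω
    unfold ind
    have e1 := np_iff M h.le ω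
    have e2 := np_self M ω
    have e5 : (∀ i : Fin 2, Nd ((![BF M (tr K ω), BF M ω] :
        Fin 2 → LinearMap.BilinForm (ZMod 2) (VV n l)) i) ⊤) ↔
        Nd (BF M (tr K ω)) ⊤ ∧ Nd (BF M ω) ⊤ := Fin.forall_fin_two
    by_cases a1 : NP M h.le ω <;> by_cases a2 : NP M le_rfl ω
    · rw [if_pos a1, if_pos a2, if_pos (e5.2 ⟨e1.1 a1, e2.1 a2⟩), mul_one]
    · rw [if_pos a1, if_neg a2, if_neg (fun hh => a2 (e2.2 (e5.1 hh).2)), mul_zero]
    · rw [if_neg a1, if_neg (fun hh => a1 (e1.2 (e5.1 hh).1)), zero_mul]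
    · rw [if_neg a1, if_neg (fun hh => a1 (e1.2 (e5.1 hh).1)), zero_mul]
  rw [← avg_shift K]
  have hshift : ∀ ω : Om n l, (avg fun h' : Om n l =>
      ind M h.le (ω + rho n K h') * ind M le_rfl (ω + rho n K h')) =
      avg fun h' : Om n l => if (∀ i : Fin 2,
        Nd ((![BF M (tr K ω), BF M ω] : Fin 2 → LinearMap.BilinForm (ZMod 2) (VV n l)) i +
          BF 0 (rho n K h')) ⊤) then (1 : ℝ) else 0 := by
    intro ω
    congr 1
    funext h'
    rw [hF]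
    have e1 : ∀ i : Fin 2, (![BF M (tr K (ω + rho n K h')), BF M (ω + rho n K h')] :
        Fin 2 → LinearMap.BilinForm (ZMod 2) (VV n l)) i =
        (![BF M (tr K ω), BF M ω] : Fin 2 → LinearMap.BilinForm (ZMod 2) (VV n l)) i +
          BF 0 (rho n K h') := by
      intro i
      fin_cases i
      · show BF M (tr K (ω + rho n K h')) = BF M (tr K ω) + BF 0 (rho n K h')
        rw [tr_shift, BF_add]
      · show BF M (ω + rho n K h') = BF M ω + BF 0 (rho n K h')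
        rw [BF_add]
    simp_rw [e1]
  simp_rw [hshift]
  -- the bound for a single `ω`
  have hone : ∀ ω : Om n l, |(avg fun h' : Om n l => if (∀ i : Fin 2,
        Nd ((![BF M (tr K ω), BF M ω] : Fin 2 → LinearMap.BilinForm (ZMod 2) (VV n l)) i +
          BF 0 (rho n K h')) ⊤) then (1 : ℝ) else 0) - c2 ^ 2| ≤
      ε / 2 + ((if Bad1 K ω then (1 : ℝ) else 0) + (2 ^ (k - R))⁻¹ * cnt K ω) := by
    intro ω
    have hcnt0 : 0 ≤ cnt K ω := by
      unfold cnt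
      exact Finset.sum_nonneg fun z _ => by split_ifs <;> norm_num
    have hbad0 : (0 : ℝ) ≤ if Bad1 K ω then (1 : ℝ) else 0 := by split_ifs <;> norm_num
    have hp : (0 : ℝ) < (2 ^ (k - R))⁻¹ := by positivity
    by_cases hg : ¬ Bad1 K ω ∧ cnt K ω ≤ 2 ^ (k - R)
    · obtain ⟨g1, g2⟩ := hg
      obtain ⟨n1, n2⟩ := nd_of_not_bad g1 M
      have hfr : finrank (ZMod 2) (JJ (BF M (tr K ω)) (BF M ω) (WK n K)) ≤ k - R :=
        pow_le_of ((jj_card K M ω).trans g2)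
      have h1 := hR n l K ![BF M (tr K ω), BF M ω] (k - R) (fun i => by
          fin_cases i
          · exact BF_symm hM _
          · exact BF_symm hM _) (fun i => by
          fin_cases i
          · exact n2
          · exact n1) (fun i i' hii => by
          fin_cases i <;> fin_cases i'
          · exact absurd rfl hii
          · exact hfr
          · exact (JJ_swap _ _ _).trans hfr
          · exact absurd rfl hii) (by rw [hKc, hn]; omega) (by rw [hKc]; omega)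
      refine h1.trans ?_
      have h2 : (0 : ℝ) ≤ (2 ^ (k - R))⁻¹ * cnt K ω := mul_nonneg hp.le hcnt0
      linarith
    · have h1 : (1 : ℝ) ≤ (if Bad1 K ω then (1 : ℝ) else 0) + (2 ^ (k - R))⁻¹ * cnt K ω := by
        have h2 : (0 : ℝ) ≤ (2 ^ (k - R))⁻¹ * cnt K ω := mul_nonneg hp.le hcnt0
        by_cases hb : Bad1 K ω
        · rw [if_pos hb]
          linarith
        · have h3 : 2 ^ (k - R) < cnt K ω := by
            by_contra h4
            exact hg ⟨hb, not_lt.1 h4⟩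
          have h4 : (1 : ℝ) ≤ (2 ^ (k - R))⁻¹ * cnt K ω := by
            rw [inv_mul_eq_div, one_le_div (by positivity)]
            exact h3.le
          linarith
      have h2 := abs_sub_le_one (avg_nn (α := Om n l) (f := fun h' => if (∀ i : Fin 2,
        Nd ((![BF M (tr K ω), BF M ω] : Fin 2 → LinearMap.BilinForm (ZMod 2) (VV n l)) i +
          BF 0 (rho n K h')) ⊤) then (1 : ℝ) else 0) fun h' => by split_ifs <;> norm_num)
        (avg_le_one fun h' => by split_ifs <;> norm_num) (sq_nonneg c2)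
        (pow_le_one₀ hc0' hc1')
      refine h2.trans ?_
      linarith
  have e0 : (avg fun ω : Om n l => avg fun h' : Om n l => if (∀ i : Fin 2,
        Nd ((![BF M (tr K ω), BF M ω] : Fin 2 → LinearMap.BilinForm (ZMod 2) (VV n l)) i +
          BF 0 (rho n K h')) ⊤) then (1 : ℝ) else 0) - c2 ^ 2 =
      avg fun ω : Om n l => ((avg fun h' : Om n l => if (∀ i : Fin 2,
        Nd ((![BF M (tr K ω), BF M ω] : Fin 2 → LinearMap.BilinForm (ZMod 2) (VV n l)) i +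
          BF 0 (rho n K h')) ⊤) then (1 : ℝ) else 0) - c2 ^ 2) := by
    rw [avg_sub, avg_const]
  rw [e0]
  refine (abs_avg _).trans ((avg_mono hone).trans ?_)
  rw [avg_add, avg_const, avg_add, avg_mul]
  have b1 := avg_bad (n := n) K
  have b2 := avg_cnt (n := n) h
  rw [hKc, hn] at b1
  rw [hn, ← hjd] at b2
  -- numbers
  have hcR : (1 / 2 : ℝ) ^ (c0 + N + R) ≤ (1 / 2) ^ c0 :=
    pow_le_pow_of_le_one (by norm_num) (by norm_num) (by omega)
  have hhalf : (1 / 2 : ℝ) ^ c0 ≤ (3 / 4) ^ c0 := pow_le_pow_left₀ (by norm_num) (by norm_num) _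
  have hjk : (2 : ℝ) ^ j / 2 ^ k ≤ (3 / 4) ^ c0 := by
    have h1 : (2 : ℝ) ^ j / 2 ^ k ≤ (1 / 2) ^ c0 := by
      rw [one_div, inv_pow, div_le_iff₀ (by positivity), inv_mul_eq_div, le_div_iff₀ (by positivity),
        ← pow_add]
      exact pow_le_pow_right₀ (by norm_num) (by omega)
    exact h1.trans hhalf
  have hk1 : (1 : ℝ) / 2 ^ k ≤ (3 / 4) ^ c0 := by
    have h1 : (1 : ℝ) / 2 ^ k ≤ 2 ^ j / 2 ^ k :=
      div_le_div_of_nonneg_right (one_le_pow₀ (by norm_num)) (by positivity)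
    exact h1.trans hjk
  have hk2 : (3 / 4 : ℝ) ^ k ≤ (3 / 4) ^ c0 :=
    pow_le_pow_of_le_one (by norm_num) (by norm_num) (by omega)
  have hb1 : (2 : ℝ) ^ (N + (l - k)) / 2 ^ k ≤ 2 ^ N * (3 / 4) ^ c0 := by
    rw [← hjd, pow_add, mul_div_assoc]
    exact mul_le_mul_of_nonneg_left hjk (by positivity)
  have hb2 : (2 ^ (k - R) : ℝ)⁻¹ * (4 ^ N * (2 ^ j + 2 + 4 * (3 / 2) ^ k / 2 ^ j)) ≤
      4 ^ N * 2 ^ R * (7 * (3 / 4) ^ c0) := by
    have h1 : (2 : ℝ) ^ k = 2 ^ (k - R) * 2 ^ R := by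
      rw [← pow_add]
      congr 1
      omega
    have h2 : (2 ^ (k - R) : ℝ)⁻¹ = 2 ^ R / 2 ^ k := by
      rw [h1]
      field_simp
    have h3 : (2 ^ (k - R) : ℝ)⁻¹ * (4 ^ N * (2 ^ j + 2 + 4 * (3 / 2) ^ k / 2 ^ j)) =
        4 ^ N * 2 ^ R * (2 ^ j / 2 ^ k + 2 * (1 / 2 ^ k) + 4 * ((3 / 2) ^ k / 2 ^ k) / 2 ^ j) := by
      rw [h2]
      field_simp
    rw [h3]
    have h4 : (3 / 2 : ℝ) ^ k / 2 ^ k = (3 / 4) ^ k := by
      rw [← div_pow]
      norm_num
    rw [h4]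
    have h5 : 4 * (3 / 4 : ℝ) ^ k / 2 ^ j ≤ 4 * (3 / 4) ^ k :=
      div_le_self (by positivity) (one_le_pow₀ (by norm_num))
    refine mul_le_mul_of_nonneg_left ?_ (by positivity)
    linarith
  have hb3 : (2 ^ (k - R) : ℝ)⁻¹ * (avg fun ω : Om n l => cnt K ω) ≤
      4 ^ N * 2 ^ R * (7 * (3 / 4) ^ c0) :=
    (mul_le_mul_of_nonneg_left b2 (by positivity)).trans hb2
  have hfin : C * (3 / 4 : ℝ) ^ c0 ≤ ε / 2 := by
    have := (lt_div_iff₀ hC0).1 hc0
    linarith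
  have hb1' := b1.trans hb1
  have hCe : C * (3 / 4 : ℝ) ^ c0 = 2 ^ N * (3 / 4) ^ c0 + 4 ^ N * 2 ^ R * (7 * (3 / 4) ^ c0) := by
    rw [hC]
    ring
  linarith

end

end Pool.Agent.Q1.PT
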