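import Pool.Agent.Q1.PT.Mat

/-!
# The law of the indicators along a chain of borderings
-/

set_option autoImplicit false

namespace Pool.Agent.Q1.PT

open Finset Matrix Q283.TW

/-- the indicator of the nonsingular matrices -/
noncomputable def bM {n : Type} [Fintype n] [DecidableEq n] (M : Matrix n n (ZMod 2)) : ℝ :=
  if M.det ≠ 0 then 1 else 0

/-- the mean of `f (b_0, …, b_k)`, where `b_i` is the indicator of the `i`-th matrix in the chain of the
borderings of `M` -/
noncomputable def jn : (k : ℕ) → {n : Type} → [Fintype n] → [DecidableEq n] →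
    Matrix n n (ZMod 2) → (List ℝ → ℝ) → ℝ
  | 0, _, _, _, M, f => f [bM M]
  | k + 1, n, _, _, M, f => avg fun x : (n → ZMod 2) × ZMod 2 =>
      jn k (bord M x.1 x.2) fun l => f (bM M :: l)

theorem jn_zero {n : Type} [Fintype n] [DecidableEq n] (M : Matrix n n (ZMod 2)) (f : List ℝ → ℝ) :
    jn 0 M f = f [bM M] := rfl

theorem jn_succ (k : ℕ) {n : Type} [Fintype n] [DecidableEq n] (M : Matrix n n (ZMod 2))
    (f : List ℝ → ℝ) : jn (k + 1) M f = avg fun x : (n → ZMod 2) × ZMod 2 =>
      jn k (bord M x.1 x.2) fun l => f (bM M :: l) := rfl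

theorem bord_submatrix {m n : Type} [DecidableEq m] [DecidableEq n]
    (e : m ≃ n) (M : Matrix n n (ZMod 2)) (v : m → ZMod 2) (d : ZMod 2) :
    bord (M.submatrix e e) v d = (bord M (v ∘ e.symm) d).submatrix
      (e.sumCongr (Equiv.refl Unit)) (e.sumCongr (Equiv.refl Unit)) := by
  ext i j
  rcases i with i | i <;> rcases j with j | j
  · simp only [bord, Matrix.submatrix_apply, Equiv.sumCongr_apply, Sum.map_inl,
      Matrix.fromBlocks_apply₁₁, Matrix.add_apply, Matrix.diagonal_apply,
      Function.comp_apply, Equiv.symm_apply_apply, e.injective.eq_iff]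
  · simp [bord]
  · simp [bord]
  · simp [bord]

theorem jn_submatrix (k : ℕ) : ∀ {m n : Type} [Fintype m] [DecidableEq m] [Fintype n]
    [DecidableEq n] (e : m ≃ n) (M : Matrix n n (ZMod 2)) (f : List ℝ → ℝ),
    jn k (M.submatrix e e) f = jn k M f := by
  induction k with
  | zero =>
    intro m n _ _ _ _ e M f
    rw [jn_zero, jn_zero, bM, bM, Matrix.det_submatrix_equiv_self]
  | succ k ih =>
    intro m n _ _ _ _ e M f
    rw [jn_succ, jn_succ]
    have h0 : bM (M.submatrix e e) = bM M := by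
      rw [bM, bM, Matrix.det_submatrix_equiv_self]
    have h1 : ∀ x : (m → ZMod 2) × ZMod 2, (jn k (bord (M.submatrix e e) x.1 x.2)
        fun l => f (bM (M.submatrix e e) :: l)) =
        jn k (bord M (x.1 ∘ e.symm) x.2) fun l => f (bM M :: l) := by
      intro x
      rw [h0, bord_submatrix, ih]
    simp_rw [h1]
    exact avg_equiv ((e.arrowCongr (Equiv.refl (ZMod 2))).prodCongr (Equiv.refl (ZMod 2)))
      (fun x => jn k (bord M x.1 x.2) fun l => f (bM M :: l))

theorem jn_mono (k : ℕ) : ∀ {n : Type} [Fintype n] [DecidableEq n] (M : Matrix n n (ZMod 2))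
    {f g : List ℝ → ℝ}, (∀ l, l.length = k + 1 → f l ≤ g l) → jn k M f ≤ jn k M g := by
  induction k with
  | zero =>
    intro n _ _ M f g h
    exact h _ rfl
  | succ k ih =>
    intro n _ _ M f g h
    exact avg_mono fun x => ih _ fun l hl => h _ (by rw [List.length_cons, hl])

theorem avg_mul {α : Type} [Fintype α] (c : ℝ) (f : α → ℝ) : avg (fun a => c * f a) = c * avg f := by
  unfold avg
  rw [← Finset.mul_sum, mul_div_assoc]

theorem jn_mul (k : ℕ) : ∀ {n : Type} [Fintype n] [DecidableEq n] (M : Matrix n n (ZMod 2))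
    (c : ℝ) (f : List ℝ → ℝ), (jn k M fun l => c * f l) = c * jn k M f := by
  induction k with
  | zero =>
    intro n _ _ M c f
    rfl
  | succ k ih =>
    intro n _ _ M c f
    rw [jn_succ, jn_succ, ← avg_mul]
    congr 1
    funext x
    exact ih _ c _

theorem jn_nonneg (k : ℕ) {n : Type} [Fintype n] [DecidableEq n] (M : Matrix n n (ZMod 2))
    {f : List ℝ → ℝ} (h : ∀ l, 0 ≤ f l) : 0 ≤ jn k M f := by
  have h1 := jn_mul k M 0 f
  rw [zero_mul] at h1
  rw [← h1]
  exact jn_mono k M fun l _ => by rw [zero_mul]; exact h l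

/-- the first `k` parameters -/
def pre {n : Type} {k K : ℕ} (h : k ≤ K) (ω : Om n K) : Om n k :=
  (fun i => ω.1 (Fin.castLE h i), fun i => ω.2.1 (Fin.castLE h i),
    fun i j => ω.2.2 (Fin.castLE h i) (Fin.castLE h j))

/-- the kernel of the `k`-th matrix in the chain is zero -/
def Nk {n : Type} [Fintype n] {K : ℕ} (M : Matrix n n (ZMod 2)) (ω : Om n K) (k : Fin (K + 1)) : Prop :=
  Nf M (pre (Nat.lt_succ_iff.1 k.2) ω).1 (pre (Nat.lt_succ_iff.1 k.2) ω).2.1
    (pre (Nat.lt_succ_iff.1 k.2) ω).2.2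

theorem nk_zero {n : Type} [Fintype n] [DecidableEq n] {K : ℕ} (M : Matrix n n (ZMod 2)) (ω : Om n K) :
    Nk M ω 0 ↔ M.det ≠ 0 := nf_zero M _ _ _

theorem nk_succ {n : Type} [Fintype n] [DecidableEq n] {K : ℕ} (M : Matrix n n (ZMod 2))
    (ω : Om n (K + 1)) (k : Fin (K + 1)) :
    Nk M ω k.succ ↔ Nk (bord M (dec n K ω).1.1 (dec n K ω).1.2) (dec n K ω).2 k := by
  have h := nf_succ M (pre (Nat.lt_succ_iff.1 k.succ.2) ω).1 (pre (Nat.lt_succ_iff.1 k.succ.2) ω).2.1
    (pre (Nat.lt_succ_iff.1 k.succ.2) ω).2.2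
  exact h.symm

open Classical in
/-- the law of the chain in terms of the parameters -/
theorem jn_eq (K : ℕ) : ∀ {n : Type} [Fintype n] [DecidableEq n] (M : Matrix n n (ZMod 2))
    (f : List ℝ → ℝ),
    jn K M f = avg fun ω : Om n K => f (List.ofFn fun k : Fin (K + 1) => if Nk M ω k then (1 : ℝ) else 0) := by
  induction K with
  | zero =>
    intro n _ _ M f
    rw [jn_zero]
    have h : ∀ ω : Om n 0, (List.ofFn fun k : Fin 1 => if Nk M ω k then (1 : ℝ) else 0) = [bM M] := by
      intro ω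
      rw [List.ofFn_succ, List.ofFn_zero]
      congr 1
      unfold bM
      exact if_congr (nk_zero M ω) rfl rfl
    simp_rw [h]
    rw [avg_const]
  | succ K ih =>
    intro n _ _ M f
    rw [jn_succ]
    simp_rw [ih]
    rw [← avg_prod (fun z : ((n → ZMod 2) × ZMod 2) × Om (n ⊕ Unit) K =>
      f (bM M :: List.ofFn fun k : Fin (K + 1) =>
        if Nk (bord M z.1.1 z.1.2) z.2 k then (1 : ℝ) else 0))]
    rw [← avg_hom (dec n K) (dec_surj n K)]
    congr 1
    funext ω
    have e := List.ofFn_succ (f := fun k : Fin (K + 1 + 1) => if Nk M ω k then (1 : ℝ) else 0)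
    rw [e]
    congr 1
    congr 1
    · unfold bM
      exact (if_congr (nk_zero M ω) rfl rfl).symm
    · congr 1
      funext k
      exact (if_congr (nk_succ M ω k) rfl rfl).symm

end Pool.Agent.Q1.PT
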