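import Pool.Agent.Q1.PT.Dens
import Pool.Agent.Q1.PT.Tree

/-!
# The chain of borderings and the prime twists
-/

set_option autoImplicit false

namespace Pool.Agent.Q1.PT

open Finset Filter Topology Q283.TW
open Pool.Agent.Y687.MQ (matD SP IP AdmD)

open scoped Classical in
theorem jn_mul_prime {D : ℤ} {p : ℕ} (h : AdmD D) (hp : Spl p) (hpD : p ∉ D.natAbs.primeFactors)
    (k : ℕ) (f : List ℝ → ℝ) :
    jn k (matD (D * (p : ℤ))) f = jn k (bord (matD D) (sym D p).1 (sym D p).2) f := by
  rw [← matD_sub h hp hpD, jn_submatrix]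

open scoped Classical in
/-- the average of the laws over the primes -/
theorem jn_step {D : ℤ} (hD : AdmD D) (k : ℕ) (f : List ℝ → ℝ) :
    Tendsto (fun X : ℕ => (∑ p ∈ (range (X + 1)).filter fun p => Spl p ∧ p ∉ D.natAbs.primeFactors,
      jn k (matD (D * (p : ℤ))) fun l => f (bM (matD D) :: l)) /
      (((range (X + 1)).filter fun p => Spl p).card : ℝ)) atTop (𝓝 (jn (k + 1) (matD D) f)) := by
  rw [jn_succ]
  exact avg_primes hD (fun x => jn k (bord (matD D) x.1 x.2) fun l => f (bM (matD D) :: l)) _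
    fun p hp hpD => jn_mul_prime hD hp hpD k _

end Pool.Agent.Q1.PT
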