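import Pool.Agent.Q1.PT.Cmp

/-!
# First moments
-/

set_option autoImplicit false

namespace Pool.Agent.Q1.PT

open Finset Module
open Pool.Agent.Y697.PP (Sy Nd YY mem_YY)
open Pool.Agent.Y697.PQ (JJ mem_JJ thmJ gi)
open Pool.Agent.Y703.CQ (c2)

theorem avg_hom_zero {X Y : Type} [AddGroup X] [AddGroup Y] [Fintype X] [Fintype Y] [DecidableEq Y]
    (φ : X →+ Y)
    (hφ : Function.Surjective φ) : (avg fun x => if φ x = 0 then (1 : ℝ) else 0) =
      (Fintype.card Y : ℝ)⁻¹ := by
  rw [avg_hom φ hφ fun y => if y = 0 then (1 : ℝ) else 0]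
  unfold avg
  rw [Finset.sum_ite_eq' univ (0 : Y), if_pos (mem_univ _), one_div]

theorem avg_sum {α ι : Type} [Fintype α] (s : Finset ι) (f : ι → α → ℝ) :
    (avg fun a => ∑ i ∈ s, f i a) = ∑ i ∈ s, avg (f i) := by
  unfold avg
  rw [Finset.sum_comm, Finset.sum_div]

section
variable {n : Type} [Fintype n] [DecidableEq n] {l : ℕ}

theorem r2_add_par (ω h : Om n l) (z : VV n l) (i : Fin l) :
    r2 (ω + h) z i = r2 ω z i + r2 h z i := by
  unfold r2
  simp only [Prod.fst_add, Prod.snd_add, Pi.add_apply, add_mul, Finset.sum_add_distrib, sy_add]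
  ring

theorem r2_zero_par (z : VV n l) (i : Fin l) : r2 (0 : Om n l) z i = 0 := by
  have h := r2_add_par (0 : Om n l) 0 z i
  rw [add_zero] at h
  exact left_eq_add.1 h

/-- the rows in `K`, as a function of the parameters -/
def psK (K : Finset (Fin l)) (z : VV n l) : Om n l →+ (K → ZMod 2) where
  toFun ω := fun i => r2 ω z i
  map_zero' := funext fun i => r2_zero_par z i
  map_add' ω ω' := funext fun i => r2_add_par ω ω' z i

theorem psK_surj {K : Finset (Fin l)} {z : VV n l} (hz : z ∈ WK n K) (hz0 : z ≠ 0) :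
    Function.Surjective (psK K z) := by
  intro t
  have two : ∀ s : ZMod 2, s ≠ 0 → s = 1 := by decide
  by_cases hx : ∃ u, z.1 u ≠ 0
  · obtain ⟨u, hu⟩ := hx
    refine ⟨(fun i v => if h : i ∈ K then (if v = u then t ⟨i, h⟩ else 0) else 0, 0, 0), ?_⟩
    funext i
    show r2 _ z i = t i
    unfold r2
    have h1 : z.2 (i : Fin l) = 0 := hz i i.2
    have h2 : ∑ i', sy ((fun i v => if h : i ∈ K then (if v = u then t ⟨i, h⟩ else 0) else 0, 0, 0) :
        Om n l).2.2 (i : Fin l) i' * (z.2 i' + z.2 i) = 0 := by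
      refine Finset.sum_eq_zero fun i' _ => ?_
      have : sy ((fun i v => if h : i ∈ K then (if v = u then t ⟨i, h⟩ else 0) else 0, 0, 0) :
        Om n l).2.2 (i : Fin l) i' = 0 := by
        unfold sy
        split_ifs <;> rfl
      rw [this, zero_mul]
    rw [h2, h1, mul_zero, add_zero, add_zero]
    show ∑ v, (if h : (i : Fin l) ∈ K then (if v = u then t ⟨i, h⟩ else 0) else 0) * (z.1 v + 0) = t i
    rw [Finset.sum_eq_single u]
    · rw [dif_pos i.2, if_pos rfl, two _ hu, add_zero, mul_one]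
    · intro v _ hv
      rw [dif_pos i.2, if_neg hv, zero_mul]
    · intro h
      exact absurd (mem_univ _) h
  · push Not at hx
    obtain ⟨i0, hi0⟩ : ∃ i0, z.2 i0 ≠ 0 := by
      by_contra h
      push Not at h
      exact hz0 (Prod.ext (funext hx) (funext h))
    have hi0K : i0 ∉ K := fun h => hi0 (hz i0 h)
    refine ⟨(0, 0, fun i i' => if i' = i0 then (if h : i ∈ K then t ⟨i, h⟩ else 0) else
      if i = i0 then (if h : i' ∈ K then t ⟨i', h⟩ else 0) else 0), ?_⟩
    funext i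
    show r2 _ z i = t i
    have hne : (i : Fin l) ≠ i0 := fun h => hi0K (h ▸ i.2)
    unfold r2
    have h1 : z.2 (i : Fin l) = 0 := hz i i.2
    rw [h1, mul_zero, add_zero]
    have h2 : ∑ u, ((0, 0, fun i i' => if i' = i0 then (if h : i ∈ K then t ⟨i, h⟩ else 0) else
      if i = i0 then (if h : i' ∈ K then t ⟨i', h⟩ else 0) else 0) : Om n l).1 (i : Fin l) u *
        (z.1 u + 0) = 0 := Finset.sum_eq_zero fun u _ => zero_mul _
    rw [h2, zero_add, Finset.sum_eq_single i0]
    · rw [two _ hi0, add_zero, mul_one]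
      unfold sy
      show (if (i : Fin l) < i0 then (if i0 = i0 then (if h : (i : Fin l) ∈ K then t ⟨i, h⟩ else 0)
        else if (i : Fin l) = i0 then (if h : i0 ∈ K then t ⟨i0, h⟩ else 0) else 0) else
        (if (i : Fin l) = i0 then (if h : i0 ∈ K then t ⟨i0, h⟩ else 0) else
        if i0 = i0 then (if h : (i : Fin l) ∈ K then t ⟨i, h⟩ else 0) else 0)) = t i
      rw [if_pos rfl, if_neg hne, if_pos rfl, dif_pos i.2, ite_self]
    · intro i' _ hi'
      have h3 : sy ((0, 0, fun i i' => if i' = i0 then (if h : i ∈ K then t ⟨i, h⟩ else 0) else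
          if i = i0 then (if h : i' ∈ K then t ⟨i', h⟩ else 0) else 0) : Om n l).2.2 (i : Fin l) i' =
          0 := by
        unfold sy
        show (if (i : Fin l) < i' then (if i' = i0 then (if h : (i : Fin l) ∈ K then t ⟨i, h⟩ else 0)
          else if (i : Fin l) = i0 then (if h : i' ∈ K then t ⟨i', h⟩ else 0) else 0) else
          (if (i : Fin l) = i0 then (if h : i' ∈ K then t ⟨i', h⟩ else 0) else
          if i' = i0 then (if h : (i : Fin l) ∈ K then t ⟨i, h⟩ else 0) else 0)) = 0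
        rw [if_neg hi', if_neg hne, if_neg hi', if_neg hne, ite_self]
      rw [h3, zero_mul]
    · intro h
      exact absurd (mem_univ _) h

/-- a degenerate vector -/
def Bad1 (K : Finset (Fin l)) (ω : Om n l) : Prop := ∃ z ∈ WK n K, z ≠ 0 ∧ ∀ i ∈ K, r2 ω z i = 0

theorem nd_of_not_bad {K : Finset (Fin l)} {ω : Om n l} (h : ¬ Bad1 K ω) (M : Matrix n n (ZMod 2)) :
    Nd (BF M ω) (WK n K) ∧ Nd (BF M (tr K ω)) (WK n K) := by
  constructor
  · intro z hz h0
    by_contra hne
    exact h ⟨z, hz, hne, fun i _ => ((BF_zero_iff M ω z).1 h0).2 i⟩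
  · intro z hz h0
    by_contra hne
    refine h ⟨z, hz, hne, fun i hi => ?_⟩
    have h1 := ((BF_zero_iff M _ z).1 h0).2
    have h2 : ∀ i, z.2 i = 0 := by
      intro i
      by_cases hi : i ∈ K
      · exact hz i hi
      · rw [← r2_tr_not K ω z hi]
        exact h1 i
    have h3 := h1 i
    rw [r2_tr K ω z hi] at h3
    unfold r2
    simp only [h2, add_zero, mul_zero, Finset.sum_const_zero] at h3 ⊢
    exact h3

theorem card_WK (K : Finset (Fin l)) : open Classical in
    ((univ : Finset (VV n l)).filter fun z => z ∈ WK n K).card = 2 ^ (Fintype.card n + (l - K.card)) := by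
  classical
  have hfin : Module.Finite (ZMod 2) (VV n l) := Module.Finite.of_finite
  have h1 : ((univ : Finset (VV n l)).filter fun z => z ∈ WK n K).card = Nat.card (WK n K) := by
    rw [Nat.card_eq_fintype_card, ← Fintype.card_coe]
    exact Fintype.card_congr (Equiv.subtypeEquivRight fun x => by simp)
  have h2 := finrank_WK (n := n) K
  have h3 : finrank (ZMod 2) (VV n l) = Fintype.card n + l := finrank_VV
  have h4 : K.card ≤ l := by
    have := Finset.card_le_univ K
    rwa [Fintype.card_fin] at this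
  rw [h1, Module.natCard_eq_pow_finrank (K := ZMod 2), Nat.card_zmod]
  congr 1
  omega

open Classical in
theorem avg_bad (K : Finset (Fin l)) : (avg fun ω : Om n l => if Bad1 K ω then (1 : ℝ) else 0) ≤
    2 ^ (Fintype.card n + (l - K.card)) / 2 ^ K.card := by
  have h1 : ∀ ω : Om n l, (if Bad1 K ω then (1 : ℝ) else 0) ≤
      ∑ z ∈ (univ : Finset (VV n l)).filter fun z => z ∈ WK n K,
        if z ≠ 0 ∧ psK K z ω = 0 then (1 : ℝ) else 0 := by
    intro ω
    by_cases hb : Bad1 K ω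
    · rw [if_pos hb]
      obtain ⟨z, hz, hz0, hr⟩ := hb
      refine le_trans ?_ (Finset.single_le_sum (f := fun z : VV n l =>
        if z ≠ 0 ∧ psK K z ω = 0 then (1 : ℝ) else 0) (fun z _ => by split_ifs <;> norm_num)
        (Finset.mem_filter.2 ⟨mem_univ z, hz⟩))
      have h2 : z ≠ 0 ∧ psK K z ω = 0 := ⟨hz0, funext fun i => hr i i.2⟩
      show (1 : ℝ) ≤ if z ≠ 0 ∧ psK K z ω = 0 then (1 : ℝ) else 0
      rw [if_pos h2]
    · rw [if_neg hb]
      exact Finset.sum_nonneg fun z _ => by split_ifs <;> norm_num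
  refine (avg_mono h1).trans ?_
  rw [avg_sum]
  have h2 : ∀ z ∈ (univ : Finset (VV n l)).filter fun z => z ∈ WK n K,
      (avg fun ω : Om n l => if z ≠ 0 ∧ psK K z ω = 0 then (1 : ℝ) else 0) ≤ (2 ^ K.card : ℝ)⁻¹ := by
    intro z hz
    have hz' := (Finset.mem_filter.1 hz).2
    by_cases h0 : z ≠ 0
    · have h3 := avg_hom_zero (psK K z) (psK_surj hz' h0)
      have h4 : (Fintype.card (K → ZMod 2) : ℝ) = 2 ^ K.card := by
        rw [Fintype.card_fun, ZMod.card, Fintype.card_coe]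
        push_cast
        rfl
      rw [h4] at h3
      rw [← h3]
      refine avg_mono fun ω => ?_
      by_cases h5 : psK K z ω = 0
      · rw [if_pos ⟨h0, h5⟩, if_pos h5]
      · rw [if_neg (fun h => h5 h.2), if_neg h5]
    · have h3 : ∀ ω : Om n l, (if z ≠ 0 ∧ psK K z ω = 0 then (1 : ℝ) else 0) = 0 := fun ω =>
        if_neg fun h => h0 h.1
      simp_rw [h3]
      rw [avg_const]
      positivity
  refine (Finset.sum_le_sum h2).trans (le_of_eq ?_)
  rw [Finset.sum_const, card_WK, nsmul_eq_mul]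
  push_cast
  rw [div_eq_mul_inv]

/-! ### the space `JJ` -/

/-- the conditions, as functions of the parameters -/
def phJ (K : Finset (Fin l)) (x : n → ZMod 2) (q : VV n l) : Om n l →+ (Fin l → ZMod 2) where
  toFun ω := fun i => if i ∈ K then ∑ u, ω.1 i u * (x u + q.1 u) +
    ∑ i' ∈ Kᶜ, sy ω.2.2 i i' * (q.2 i' + q.2 i) else r2 ω q i
  map_zero' := by
    funext i
    show (if i ∈ K then ∑ u, (0 : ZMod 2) * (x u + q.1 u) +
      ∑ i' ∈ Kᶜ, sy (0 : Fin l → Fin l → ZMod 2) i i' * (q.2 i' + q.2 i) else r2 0 q i) = 0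
    have h1 : ∀ i', sy (0 : Fin l → Fin l → ZMod 2) i i' = 0 := by
      intro i'
      unfold sy
      split_ifs <;> rfl
    simp only [h1, zero_mul, Finset.sum_const_zero, r2_zero_par, add_zero, ite_self]
  map_add' := by
    intro ω ω'
    funext i
    show (if i ∈ K then ∑ u, (ω.1 i u + ω'.1 i u) * (x u + q.1 u) +
      ∑ i' ∈ Kᶜ, sy (ω.2.2 + ω'.2.2) i i' * (q.2 i' + q.2 i) else r2 (ω + ω') q i) =
      (if i ∈ K then ∑ u, ω.1 i u * (x u + q.1 u) +
        ∑ i' ∈ Kᶜ, sy ω.2.2 i i' * (q.2 i' + q.2 i) else r2 ω q i) +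
      (if i ∈ K then ∑ u, ω'.1 i u * (x u + q.1 u) +
        ∑ i' ∈ Kᶜ, sy ω'.2.2 i i' * (q.2 i' + q.2 i) else r2 ω' q i)
    split_ifs
    · simp only [sy_add, add_mul, Finset.sum_add_distrib]
      ring
    · exact r2_add_par _ _ _ _

theorem jj_sub {K : Finset (Fin l)} {M : Matrix n n (ZMod 2)} {ω : Om n l} {p q : VV n l}
    (h : (p, q) ∈ JJ (BF M (tr K ω)) (BF M ω) (WK n K)) :
    phJ K p.1 q ω = 0 ∧ p.2 = fun i => if i ∈ K then q.2 i else 0 := by
  obtain ⟨h1, h2, h3⟩ := mem_JJ.1 h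
  have e1 : ∀ i ∈ K, p.2 i = q.2 i := by
    intro i hi
    have h4 : p.2 i + q.2 i = 0 := h1 i hi
    have key : ∀ a b : ZMod 2, a + b = 0 → a = b := by decide
    exact key _ _ h4
  have e2 : ∀ i, i ∉ K → p.2 i = 0 := by
    intro i hi
    have h4 := h3 (0, Pi.single i 1) (fun i' hi' => Pi.single_eq_of_ne
      (fun h : i' = i => hi (by rw [← h]; exact hi')) _)
    have h5 : BF M (tr K ω) p (0, Pi.single i 1) = 0 := h4
    rw [BF_row2, r2_tr_not K ω p hi] at h5
    exact h5
  have e3 : ∀ i, r2 (tr K ω) p i = r2 ω q i := by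
    intro i
    have h4 := LinearMap.congr_fun h2 (0, Pi.single i 1)
    have h5 : BF M (tr K ω) p (0, Pi.single i 1) = BF M ω q (0, Pi.single i 1) := h4
    rw [BF_row2, BF_row2] at h5
    exact h5
  refine ⟨?_, ?_⟩
  · funext i
    show (if i ∈ K then ∑ u, ω.1 i u * (p.1 u + q.1 u) +
      ∑ i' ∈ Kᶜ, sy ω.2.2 i i' * (q.2 i' + q.2 i) else r2 ω q i) = 0
    by_cases hi : i ∈ K
    · rw [if_pos hi]
      have h4 := e3 i
      rw [r2_tr K ω p hi] at h4
      unfold r2 at h4
      rw [← Finset.sum_add_sum_compl K fun i' => sy ω.2.2 i i' * (q.2 i' + q.2 i)] at h4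
      have h5 : ∑ i' ∈ K, sy ω.2.2 i i' * (p.2 i' + p.2 i) =
          ∑ i' ∈ K, sy ω.2.2 i i' * (q.2 i' + q.2 i) :=
        Finset.sum_congr rfl fun i' hi' => by rw [e1 i hi, e1 i' hi']
      rw [h5, e1 i hi] at h4
      have h6 : ∑ u, ω.1 i u * (p.1 u + q.1 u) =
          ∑ u, ω.1 i u * (p.1 u + q.2 i) + ∑ u, ω.1 i u * (q.1 u + q.2 i) := by
        rw [← Finset.sum_add_distrib]
        refine Finset.sum_congr rfl fun u _ => ?_
        have two0 : (2 : ZMod 2) = 0 := rfl
        linear_combination (-(ω.1 i u * q.2 i)) * two0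
      rw [h6]
      generalize (∑ u, ω.1 i u * (p.1 u + q.2 i)) = a at h4 ⊢
      generalize (∑ u, ω.1 i u * (q.1 u + q.2 i)) = b at h4 ⊢
      generalize (∑ i' ∈ K, sy ω.2.2 i i' * (q.2 i' + q.2 i)) = c at h4 ⊢
      generalize (∑ i' ∈ Kᶜ, sy ω.2.2 i i' * (q.2 i' + q.2 i)) = d at h4 ⊢
      generalize ω.2.1 i * q.2 i = f at h4 ⊢
      revert a b c d f
      decide
    · rw [if_neg hi, ← e3 i, r2_tr_not K ω p hi]
      exact e2 i hi
  · funext i
    by_cases hi : i ∈ K
    · rw [if_pos hi, e1 i hi]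
    · rw [if_neg hi, e2 i hi]

open Classical in
/-- the number of the solutions of the conditions -/
noncomputable def cnt (K : Finset (Fin l)) (ω : Om n l) : ℝ :=
  ∑ z : (n → ZMod 2) × VV n l, if phJ K z.1 z.2 ω = 0 then (1 : ℝ) else 0

theorem jj_card (K : Finset (Fin l)) (M : Matrix n n (ZMod 2)) (ω : Om n l) :
    (2 : ℝ) ^ finrank (ZMod 2) (JJ (BF M (tr K ω)) (BF M ω) (WK n K)) ≤ cnt K ω := by
  classical
  set J := JJ (BF M (tr K ω)) (BF M ω) (WK n K) with hJ
  have hfin : Module.Finite (ZMod 2) (VV n l × VV n l) := Module.Finite.of_finite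
  have h1 : (2 : ℝ) ^ finrank (ZMod 2) J = (Fintype.card J : ℝ) := by
    rw [← Nat.card_eq_fintype_card, Module.natCard_eq_pow_finrank (K := ZMod 2), Nat.card_zmod]
    push_cast
    rfl
  rw [h1]
  unfold cnt
  rw [Finset.sum_boole]
  have h2 : Fintype.card J ≤ ((univ : Finset ((n → ZMod 2) × VV n l)).filter
      fun z => phJ K z.1 z.2 ω = 0).card := by
    rw [← Finset.card_univ]
    refine Finset.card_le_card_of_injOn (fun p => (p.1.1.1, p.1.2)) (fun p _ => ?_) ?_
    · exact Finset.mem_coe.2 (Finset.mem_filter.2 ⟨mem_univ _, (jj_sub p.2).1⟩)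
    · rintro ⟨⟨p, q⟩, hp⟩ _ ⟨⟨p', q'⟩, hp'⟩ _ h
      have h' : ((p.1, q) : (n → ZMod 2) × VV n l) = (p'.1, q') := h
      have h3 : p.1 = p'.1 := (Prod.mk.inj h').1
      have h4 : q = q' := (Prod.mk.inj h').2
      subst h4
      have h5 := (jj_sub hp).2
      have h6 := (jj_sub hp').2
      have h7 : p = p' := Prod.ext h3 (h5.trans h6.symm)
      exact Subtype.ext (Prod.ext h7 rfl)
  exact_mod_cast h2

end

end Pool.Agent.Q1.PT
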